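import Pool.Agent.Helper46.Cone.Chr

/-! GFORM: the Gauss formula in vector form. -/

set_option autoImplicit false

open MeasureTheory Filter Topology

noncomputable section

namespace Pool.Agent.Helper46.Cone

/-- a vector orthogonal to `N`, `Y₁`, `Y₂` vanishes -/
theorem eq_zero_of_perp {Y N : ℝ × ℝ → E3} (hN : Frame Y N) (y : ℝ × ℝ) (v : E3)
    (h0 : inner ℝ v (N y) = 0) (h1 : inner ℝ v (d1 Y y) = 0) (h2 : inner ℝ v (d2 Y y) = 0) :
    v = 0 := by
  have h := hN.gram y v v
  rw [h0, h1, h2] at h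
  have : inner ℝ v v = (0 : ℝ) := by rw [h]; ring
  exact inner_self_eq_zero.mp this

theorem gform11 {Y N : ℝ × ℝ → E3} (hY : Hemi Y) (hN : Frame Y N) (y : ℝ × ℝ) :
    d1 (d1 Y) y = (-(2 * y.1 / q y)) • d1 Y y + (L11 Y N y / √(q y)) • N y := by
  have hq : √(q y) ≠ 0 := (Real.sqrt_pos.mpr (q_pos y)).ne'
  have p1 : inner ℝ (d1 Y y) (N y) = 0 := by rw [real_inner_comm]; exact hN.perp1 y
  have p1' := hN.perp1 y
  have p2' := hN.perp2 y
  rw [← sub_eq_zero]
  refine eq_zero_of_perp hN y _ ?_ ?_ ?_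
  · rw [inner_sub_left, inner_add_left, real_inner_smul_left, real_inner_smul_left, p1, hN.unit y]
    unfold L11
    field_simp
    ring
  · rw [inner_sub_left, inner_add_left, real_inner_smul_left, real_inner_smul_left, p1',
      chr11 hY y _ (Or.inl rfl)]
    ring
  · rw [inner_sub_left, inner_add_left, real_inner_smul_left, real_inner_smul_left, p2',
      chr11 hY y _ (Or.inr rfl)]
    ring

theorem gform12 {Y N : ℝ × ℝ → E3} (hY : Hemi Y) (hN : Frame Y N) (y : ℝ × ℝ) :
    d2 (d1 Y) y = (-(y.1 / q y)) • d2 Y y + (-(y.2 / q y)) • d1 Y y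
      + (L12 Y N y / √(q y)) • N y := by
  have hq : √(q y) ≠ 0 := (Real.sqrt_pos.mpr (q_pos y)).ne'
  have p1 : inner ℝ (d1 Y y) (N y) = 0 := by rw [real_inner_comm]; exact hN.perp1 y
  have p2 : inner ℝ (d2 Y y) (N y) = 0 := by rw [real_inner_comm]; exact hN.perp2 y
  have p1' := hN.perp1 y
  have p2' := hN.perp2 y
  rw [← sub_eq_zero]
  refine eq_zero_of_perp hN y _ ?_ ?_ ?_
  · rw [inner_sub_left, inner_add_left, inner_add_left, real_inner_smul_left,
      real_inner_smul_left, real_inner_smul_left, p1, p2, hN.unit y]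
    unfold L12
    field_simp
    ring
  · rw [inner_sub_left, inner_add_left, inner_add_left, real_inner_smul_left,
      real_inner_smul_left, real_inner_smul_left, p1', chr12 hY y _ (Or.inl rfl)]
    ring
  · rw [inner_sub_left, inner_add_left, inner_add_left, real_inner_smul_left,
      real_inner_smul_left, real_inner_smul_left, p2', chr12 hY y _ (Or.inr rfl)]
    ring

theorem gform22 {Y N : ℝ × ℝ → E3} (hY : Hemi Y) (hN : Frame Y N) (y : ℝ × ℝ) :
    d2 (d2 Y) y = (-(2 * y.2 / q y)) • d2 Y y + (L22 Y N y / √(q y)) • N y := by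
  have hq : √(q y) ≠ 0 := (Real.sqrt_pos.mpr (q_pos y)).ne'
  have p2 : inner ℝ (d2 Y y) (N y) = 0 := by rw [real_inner_comm]; exact hN.perp2 y
  have p1' := hN.perp1 y
  have p2' := hN.perp2 y
  rw [← sub_eq_zero]
  refine eq_zero_of_perp hN y _ ?_ ?_ ?_
  · rw [inner_sub_left, inner_add_left, real_inner_smul_left, real_inner_smul_left, p2, hN.unit y]
    unfold L22
    field_simp
    ring
  · rw [inner_sub_left, inner_add_left, real_inner_smul_left, real_inner_smul_left, p1',
      chr22 hY y _ (Or.inl rfl)]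
    ring
  · rw [inner_sub_left, inner_add_left, real_inner_smul_left, real_inner_smul_left, p2',
      chr22 hY y _ (Or.inr rfl)]
    ring

end Pool.Agent.Helper46.Cone
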