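import Pool.Agent.Helper46.Cone.Chr
import Pool.Agent.Helper46.Cone.Gform

/-!
# Module LINE: straight lines are geodesics
-/

set_option autoImplicit false

open MeasureTheory Filter Topology

noncomputable section

namespace Pool.Agent.Helper46.Cone

theorem line_hasDerivAt_ln (β R t : ℝ) :
    HasDerivAt (fun t => ln β R t) (-Real.sin β, Real.cos β) t := by
  have h1 : HasDerivAt (fun t : ℝ => R * Real.cos β - t * Real.sin β) (-Real.sin β) t := by
    have := ((hasDerivAt_id t).mul_const (Real.sin β)).const_sub (R * Real.cos β)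
    simpa using this
  have h2 : HasDerivAt (fun t : ℝ => R * Real.sin β + t * Real.cos β) (Real.cos β) t := by
    have := ((hasDerivAt_id t).mul_const (Real.cos β)).const_add (R * Real.sin β)
    simpa using this
  exact h1.prodMk h2

theorem line_fderiv_apply {F : Type*} [NormedAddCommGroup F] [NormedSpace ℝ F] (f : ℝ × ℝ → F)
    (y : ℝ × ℝ) (a b : ℝ) : fderiv ℝ f y (a, b) = a • d1 f y + b • d2 f y := by
  have h : ((a, b) : ℝ × ℝ) = a • ((1 : ℝ), (0 : ℝ)) + b • ((0 : ℝ), (1 : ℝ)) := by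
    simp
  rw [h, map_add, map_smul, map_smul]; rfl

theorem line_comp {F : Type*} [NormedAddCommGroup F] [NormedSpace ℝ F] (f : ℝ × ℝ → F)
    (hf : ContDiff ℝ 1 f) (β R t : ℝ) :
    HasDerivAt (fun t => f (ln β R t))
      ((-Real.sin β) • d1 f (ln β R t) + Real.cos β • d2 f (ln β R t)) t := by
  have h1 : HasFDerivAt f (fderiv ℝ f (ln β R t)) (ln β R t) :=
    (hf.differentiable (by norm_num)).differentiableAt.hasFDerivAt
  have h2 := h1.comp_hasDerivAt t (line_hasDerivAt_ln β R t)
  rw [line_fderiv_apply] at h2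
  exact h2

theorem line_q (β R t : ℝ) : q (ln β R t) = 1 + R ^ 2 + t ^ 2 := by
  unfold q ln
  have h := Real.sin_sq_add_cos_sq β
  nlinarith [h, congrArg (fun x => R ^ 2 * x) h, congrArg (fun x => t ^ 2 * x) h]

theorem line_dot (β R t : ℝ) :
    -((ln β R t).1 * Real.sin β) + (ln β R t).2 * Real.cos β = t := by
  unfold ln
  have h := Real.sin_sq_add_cos_sq β
  simp only
  nlinarith [h, congrArg (fun x => R ^ 2 * x) h, congrArg (fun x => t * x) h]

theorem line_norm {Y : ℝ × ℝ → E3} (hY : Hemi Y) (β R t : ℝ) :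
    ‖(-Real.sin β) • d1 Y (ln β R t) + Real.cos β • d2 Y (ln β R t)‖ = sp R t := by
  have hs := Real.sin_sq_add_cos_sq β
  have hpos : 0 < 1 + R ^ 2 + t ^ 2 := by positivity
  have hR : 0 ≤ 1 + R ^ 2 := by positivity
  rw [← line_fderiv_apply]
  have h1 := hY.metric (ln β R t) (-Real.sin β, Real.cos β)
  simp only at h1
  have h2 : (ln β R t).1 * -Real.sin β + (ln β R t).2 * Real.cos β = t := by
    have := line_dot β R t; linarith
  rw [h2, line_q] at h1
  have h3 : (-Real.sin β) ^ 2 + Real.cos β ^ 2 = 1 := by rw [neg_sq]; exact hs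
  rw [h3] at h1
  have h4 : (sp R t) ^ 2 = ‖fderiv ℝ Y (ln β R t) (-Real.sin β, Real.cos β)‖ ^ 2 := by
    rw [h1]; unfold sp
    rw [div_pow, Real.sq_sqrt hR]
    field_simp
    ring
  have h5 : 0 ≤ sp R t := by unfold sp; positivity
  exact (abs_eq_abs.1 (by
    rw [← sq_eq_sq_iff_abs_eq_abs]; exact h4.symm) |>.resolve_right (fun h6 => by
      have h7 : ‖fderiv ℝ Y (ln β R t) (-Real.sin β, Real.cos β)‖ = 0 := by
        have := norm_nonneg (fderiv ℝ Y (ln β R t) (-Real.sin β, Real.cos β))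
        linarith
      have h8 : sp R t = 0 := by linarith
      have h9 : 0 < sp R t := by unfold sp; positivity
      linarith))

theorem line_sp_pos (R t : ℝ) : 0 < sp R t := by unfold sp; positivity

/-- lines are geodesics: `T` is the unit tangent vector -/
theorem line {Y N : ℝ × ℝ → E3} (hY : Hemi Y) (hN : Frame Y N) (β R : ℝ) :
    ∃ T : ℝ → E3, (∀ t, HasDerivAt (fun t => Y (ln β R t)) (sp R t • T t) t) ∧
      (∀ t, ‖T t‖ = 1) ∧
      (∀ t, HasDerivAt T ((Lee Y N β (ln β R t) / (√(q (ln β R t)) * sp R t)) •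
        N (ln β R t)) t) := by
  set V : ℝ → E3 := fun t => (-Real.sin β) • d1 Y (ln β R t) + Real.cos β • d2 Y (ln β R t)
    with hV
  have hs : 0 < √(1 + R ^ 2) := by positivity
  refine ⟨fun t => ((1 + R ^ 2 + t ^ 2) / √(1 + R ^ 2)) • V t, ?_, ?_, ?_⟩
  · intro t
    have h1 := line_comp Y (hY.smooth.of_le (by norm_num)) β R t
    have h2 : sp R t • ((1 + R ^ 2 + t ^ 2) / √(1 + R ^ 2)) • V t = V t := by
      rw [smul_smul]
      have : sp R t * ((1 + R ^ 2 + t ^ 2) / √(1 + R ^ 2)) = 1 := by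
        unfold sp
        have : (1 + R ^ 2 + t ^ 2) ≠ 0 := by positivity
        field_simp
      rw [this, one_smul]
    rw [h2]
    exact h1
  · intro t
    have h1 : ‖V t‖ = sp R t := line_norm hY β R t
    rw [norm_smul, h1, Real.norm_eq_abs, abs_of_pos (by positivity)]
    unfold sp
    have : (1 + R ^ 2 + t ^ 2) ≠ 0 := by positivity
    field_simp
  · intro t
    have hc : HasDerivAt (fun t : ℝ => (1 + R ^ 2 + t ^ 2) / √(1 + R ^ 2))
        (2 * t / √(1 + R ^ 2)) t := by
      have h1 : HasDerivAt (fun t : ℝ => 1 + R ^ 2 + t ^ 2) (2 * t) t := by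
        have := (hasDerivAt_pow 2 t).const_add (1 + R ^ 2)
        simpa using this
      exact h1.div_const _
    have hd1 := line_comp (d1 Y) (cd1 hY) β R t
    have hd2 := line_comp (d2 Y) (cd2 hY) β R t
    have hVd : HasDerivAt V ((-Real.sin β) • ((-Real.sin β) • d1 (d1 Y) (ln β R t)
        + Real.cos β • d2 (d1 Y) (ln β R t)) + Real.cos β • ((-Real.sin β) • d1 (d2 Y) (ln β R t)
        + Real.cos β • d2 (d2 Y) (ln β R t))) t :=
      (hd1.const_smul (-Real.sin β)).add (hd2.const_smul (Real.cos β))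
    have hT := hc.smul hVd
    have hq := line_q β R t
    have hdot := line_dot β R t
    have hqpos : 0 < 1 + R ^ 2 + t ^ 2 := by positivity
    have hsq : 0 < √(1 + R ^ 2 + t ^ 2) := by positivity
    refine hT.congr_deriv ?_
    rw [symm12 hY, gform11 hY hN, gform12 hY hN, gform22 hY hN, hq]
    simp only [hV]
    set y := ln β R t
    unfold Lee sp
    match_scalars
    · have h1 : (1 + R ^ 2 + t ^ 2) / √(1 + R ^ 2) *
        (-Real.sin β *
            (-Real.sin β * (-(2 * y.1 / (1 + R ^ 2 + t ^ 2)) * 1)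
              + Real.cos β * (-(y.2 / (1 + R ^ 2 + t ^ 2)) * 1)) +
          Real.cos β * (-Real.sin β * (-(y.2 / (1 + R ^ 2 + t ^ 2)) * 1))) +
          2 * t / √(1 + R ^ 2) * (-Real.sin β * 1) = (2 * Real.sin β / √(1 + R ^ 2)) *
            ((-(y.1 * Real.sin β) + y.2 * Real.cos β) - t) := by
        field_simp
        ring
      rw [h1, hdot, sub_self, mul_zero]
    · field_simp
      ring
    · have h1 : (1 + R ^ 2 + t ^ 2) / √(1 + R ^ 2) *
        (-Real.sin β * (Real.cos β * (-(y.1 / (1 + R ^ 2 + t ^ 2)) * 1)) +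
          Real.cos β *
            (-Real.sin β * (-(y.1 / (1 + R ^ 2 + t ^ 2)) * 1)
              + Real.cos β * (-(2 * y.2 / (1 + R ^ 2 + t ^ 2)) * 1))) +
          2 * t / √(1 + R ^ 2) * (Real.cos β * 1) = -(2 * Real.cos β / √(1 + R ^ 2)) *
            ((-(y.1 * Real.sin β) + y.2 * Real.cos β) - t) := by
        field_simp
        ring
      rw [h1, hdot, sub_self, mul_zero]

end Pool.Agent.Helper46.Cone
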