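import Pool.Agent.Helper46.Cone.Chord
import Pool.Agent.Helper46.Cone.Line

/-! Module ARC: an arc between two marks which is nearly closed has total curvature `≥ 1`. -/

set_option autoImplicit false

open MeasureTheory Filter Topology

noncomputable section

namespace Pool.Agent.Helper46.Cone

private theorem arc_q (β R t : ℝ) : q (ln β R t) = 1 + R ^ 2 + t ^ 2 := by
  have := Real.sin_sq_add_cos_sq β
  simp only [q, ln]
  linear_combination (R ^ 2 + t ^ 2) * this

private theorem arc_contL {Y N : ℝ × ℝ → E3} (hY : Hemi Y) (hN : Frame Y N) :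
    Continuous (L11 Y N) ∧ Continuous (L12 Y N) ∧ Continuous (L22 Y N) := by
  have c1 : ContDiff ℝ 1 (d1 Y) :=
    (hY.smooth.fderiv_right (m := 1) (by norm_num)).clm_apply contDiff_const
  have c2 : ContDiff ℝ 1 (d2 Y) :=
    (hY.smooth.fderiv_right (m := 1) (by norm_num)).clm_apply contDiff_const
  have k : ∀ (f : ℝ × ℝ → E3) (v : ℝ × ℝ), ContDiff ℝ 1 f →
      Continuous fun y => fderiv ℝ f y v := fun f v hf =>
    (hf.continuous_fderiv (by norm_num)).clm_apply continuous_const
  have hq : Continuous fun y : ℝ × ℝ => √(q y) := by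
    unfold q
    fun_prop
  have hNc := hN.smooth.continuous
  refine ⟨?_, ?_, ?_⟩
  · exact hq.mul ((k _ (1, 0) c1).inner hNc)
  · exact hq.mul ((k _ (0, 1) c1).inner hNc)
  · exact hq.mul ((k _ (0, 1) c2).inner hNc)

private theorem arc_pos {A B C s c : ℝ} (hA : 0 < A) (hd : 0 < A * C - B ^ 2) :
    0 ≤ A * s ^ 2 - 2 * B * (s * c) + C * c ^ 2 := by
  have h1 : 0 ≤ A * (A * s ^ 2 - 2 * B * (s * c) + C * c ^ 2) := by
    have : A * (A * s ^ 2 - 2 * B * (s * c) + C * c ^ 2)
        = (A * s - B * c) ^ 2 + (A * C - B ^ 2) * c ^ 2 := by ring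
    rw [this]
    positivity
  exact nonneg_of_mul_nonneg_right h1 hA

private theorem arc_pt (β θ R : ℝ) (h : Real.cos (θ - β) ≠ 0) :
    pt β θ R = ln β R (R * Real.tan (θ - β)) := by
  have e1 : Real.cos θ = Real.cos (θ - β) * Real.cos β - Real.sin (θ - β) * Real.sin β := by
    rw [← Real.cos_add]; ring_nf
  have e2 : Real.sin θ = Real.sin (θ - β) * Real.cos β + Real.cos (θ - β) * Real.sin β := by
    rw [← Real.sin_add]; ring_nf
  simp only [pt, ln, Prod.mk.injEq]
  rw [Real.tan_eq_sin_div_cos]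
  constructor
  · rw [e1]
    generalize Real.cos (θ - β) = x at *
    field_simp
  · rw [e2]
    generalize Real.cos (θ - β) = x at *
    field_simp
    ring

theorem arc {Y N : ℝ × ℝ → E3} {Ψ G1 G2 : ℝ × ℝ → ℝ} (hY : Hemi Y) (hN : Frame Y N)
    (hP : Pot Y N Ψ G1 G2) (c : E3) (β θ0 θ1 : ℝ) (h0 : β - Real.pi / 3 ≤ θ0) (h01 : θ0 < θ1)
    (h1 : θ1 ≤ β + Real.pi / 3)
    (l0 : Tendsto (fun R : ℝ => Y (R * Real.cos θ0, R * Real.sin θ0)) atTop (𝓝 c))
    (l1 : Tendsto (fun R : ℝ => Y (R * Real.cos θ1, R * Real.sin θ1)) atTop (𝓝 c)) :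
    ∀ᶠ R in atTop, 1 / 2 ≤ (G1 (pt β θ1 R) - G1 (pt β θ0 R)) * (-Real.sin β)
      + (G2 (pt β θ1 R) - G2 (pt β θ0 R)) * Real.cos β := by
  have hpi := Real.pi_pos
  set φ0 := θ0 - β with hφ0
  set φ1 := θ1 - β with hφ1
  have a0 : -(Real.pi / 3) ≤ φ0 := by linarith
  have a01 : φ0 < φ1 := by linarith
  have a1 : φ1 ≤ Real.pi / 3 := by linarith
  have m0 : φ0 ∈ Set.Ioo (-(Real.pi / 2)) (Real.pi / 2) := ⟨by linarith, by linarith⟩
  have m1 : φ1 ∈ Set.Ioo (-(Real.pi / 2)) (Real.pi / 2) := ⟨by linarith, by linarith⟩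
  have c0 : 0 < Real.cos φ0 := Real.cos_pos_of_mem_Ioo m0
  have c1 : 0 < Real.cos φ1 := Real.cos_pos_of_mem_Ioo m1
  have t0 : -√3 ≤ Real.tan φ0 := by
    rw [← Real.tan_pi_div_three, ← Real.tan_neg]
    exact Real.strictMonoOn_tan.monotoneOn ⟨by linarith, by linarith⟩ m0 a0
  have t1 : Real.tan φ1 ≤ √3 := by
    rw [← Real.tan_pi_div_three]
    exact Real.strictMonoOn_tan.monotoneOn m1 ⟨by linarith, by linarith⟩ a1
  have t01 : Real.tan φ0 < Real.tan φ1 := Real.strictMonoOn_tan m0 m1 a01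
  set δ := Real.tan φ1 - Real.tan φ0 with hδ
  have δ0 : 0 < δ := by rw [hδ]; linarith
  -- the end points tend to `c`
  have e0 : Tendsto (fun R : ℝ => Y (pt β θ0 R)) atTop (𝓝 c) := by
    have : Tendsto (fun R : ℝ => R / Real.cos φ0) atTop atTop :=
      tendsto_id.atTop_div_const c0
    exact l0.comp this
  have e1 : Tendsto (fun R : ℝ => Y (pt β θ1 R)) atTop (𝓝 c) := by
    have : Tendsto (fun R : ℝ => R / Real.cos φ1) atTop atTop :=
      tendsto_id.atTop_div_const c1
    exact l1.comp this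
  have e2 : Tendsto (fun R : ℝ => ‖Y (pt β θ1 R) - Y (pt β θ0 R)‖) atTop (𝓝 0) := by
    have := (e1.sub e0).norm
    simpa using this
  have e3 := e2.eventually (gt_mem_nhds (show (0 : ℝ) < δ / 10 by positivity))
  filter_upwards [e3, eventually_ge_atTop (1 : ℝ)] with R hR3 hR1
  rw [arc_pt β θ0 R c0.ne', arc_pt β θ1 R c1.ne'] at hR3
  rw [arc_pt β θ0 R c0.ne', arc_pt β θ1 R c1.ne']
  obtain ⟨T, hT1, hT2, hT3⟩ := line hY hN β R
  set a := R * Real.tan φ0 with ha
  set b := R * Real.tan φ1 with hb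
  have hab : a ≤ b := by
    rw [ha, hb]; exact mul_le_mul_of_nonneg_left t01.le (by linarith)
  have hba : b - a = R * δ := by rw [ha, hb, hδ]; ring
  -- the range of the parameter
  have htr : ∀ t ∈ Set.Icc a b, t ^ 2 ≤ 3 * R ^ 2 := by
    intro t ht
    have h3 : √3 ^ 2 = 3 := Real.sq_sqrt (by norm_num)
    have hs3 : 0 ≤ √3 := Real.sqrt_nonneg _
    have u1 : -(R * √3) ≤ t := by
      refine le_trans ?_ ht.1
      rw [ha]
      nlinarith
    have u2 : t ≤ R * √3 := by
      refine ht.2.trans ?_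
      rw [hb]
      nlinarith
    have : t ^ 2 ≤ (R * √3) ^ 2 := sq_le_sq' u1 u2
    calc t ^ 2 ≤ (R * √3) ^ 2 := this
      _ = 3 * R ^ 2 := by rw [mul_pow, h3]; ring
  obtain ⟨k1, k2, k3⟩ := arc_contL hY hN
  have lnc : Continuous (ln β R) := by unfold ln; fun_prop
  have hNc := hN.smooth.continuous
  have Leec : Continuous fun t => Lee Y N β (ln β R t) := by
    unfold Lee
    have := k1.comp lnc
    have := k2.comp lnc
    have := k3.comp lnc
    fun_prop
  have spc : Continuous (sp R) := by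
    unfold sp
    refine continuous_const.div (by fun_prop) ?_
    intro t
    positivity
  have spp : ∀ t, 0 < sp R t := by
    intro t
    unfold sp
    positivity
  have qp : ∀ y, 0 < q y := by intro y; unfold q; positivity
  have qc : Continuous fun t => √(q (ln β R t)) := by
    simp only [arc_q]; fun_prop
  have T'c : Continuous fun t => (Lee Y N β (ln β R t) / (√(q (ln β R t)) * sp R t)) •
        N (ln β R t) := by
    refine Continuous.smul (Leec.div (qc.mul spc) ?_) (hNc.comp lnc)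
    intro t
    exact (mul_pos (Real.sqrt_pos.2 (qp _)) (spp t)).ne'
  have hch := chord (fun t => Y (ln β R t)) T _ (sp R) a b hab spc spp hT1 hT3 T'c hT2
  have Lee0 : ∀ y, 0 ≤ Lee Y N β y := by
    intro y
    refine arc_pos (hP.pos y) ?_
    rw [hP.det y]
    have := qp y
    positivity
  have Nn : ∀ y, ‖N y‖ = 1 := by
    intro y
    have := hN.unit y
    rw [real_inner_self_eq_norm_sq] at this
    nlinarith [norm_nonneg (N y)]
  have T'n : ∀ t, ‖(Lee Y N β (ln β R t) / (√(q (ln β R t)) * sp R t)) • N (ln β R t)‖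
      = Lee Y N β (ln β R t) / (√(q (ln β R t)) * sp R t) := by
    intro t
    rw [norm_smul, Nn, mul_one, Real.norm_eq_abs, abs_of_nonneg]
    have := spp t
    have := qp (ln β R t)
    have := Lee0 (ln β R t)
    positivity
  simp only [T'n] at hch
  set κ := ∫ t in a..b, Lee Y N β (ln β R t) / (√(q (ln β R t)) * sp R t) with hκ
  -- derivative of the gradient along the line
  have hF : ∀ t, HasDerivAt (fun t => G1 (ln β R t) * (-Real.sin β) + G2 (ln β R t) * Real.cos β)
      (Lee Y N β (ln β R t)) t := by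
    intro t
    have hl : HasDerivAt (ln β R) (-Real.sin β, Real.cos β) t := by
      unfold ln
      have d1 : HasDerivAt (fun t : ℝ => R * Real.cos β - t * Real.sin β) (-Real.sin β) t := by
        have := ((hasDerivAt_id t).mul_const (Real.sin β)).const_sub (R * Real.cos β)
        simpa using this
      have d2 : HasDerivAt (fun t : ℝ => R * Real.sin β + t * Real.cos β) (Real.cos β) t := by
        have := ((hasDerivAt_id t).mul_const (Real.cos β)).const_add (R * Real.sin β)
        simpa using this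
      exact d1.prodMk d2
    have g1 := (hP.dG1 (ln β R t)).comp_hasDerivAt t hl
    have g2 := (hP.dG2 (ln β R t)).comp_hasDerivAt t hl
    have := (g1.mul_const (-Real.sin β)).add (g2.mul_const (Real.cos β))
    refine this.congr_deriv ?_
    simp [Lee]
    ring
  have hFi := intervalIntegral.integral_eq_sub_of_hasDerivAt (a := a) (b := b)
    (fun t _ => hF t) (Leec.intervalIntegrable _ _)
  have key : ∀ t ∈ Set.Icc a b,
      1 / 2 * (Lee Y N β (ln β R t) / (√(q (ln β R t)) * sp R t)) ≤ Lee Y N β (ln β R t) := by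
    intro t ht
    have h1 : 1 / 2 ≤ √(q (ln β R t)) * sp R t := by
      rw [arc_q, sp]
      have hp : 0 < 1 + R ^ 2 + t ^ 2 := by positivity
      have : √(1 + R ^ 2 + t ^ 2) * (√(1 + R ^ 2) / (1 + R ^ 2 + t ^ 2))
          = √(1 + R ^ 2) / √(1 + R ^ 2 + t ^ 2) := by
        have hs : √(1 + R ^ 2 + t ^ 2) ^ 2 = 1 + R ^ 2 + t ^ 2 := Real.sq_sqrt hp.le
        have hs0 : 0 < √(1 + R ^ 2 + t ^ 2) := Real.sqrt_pos.2 hp
        rw [← hs]
        simp only [Real.sqrt_sq hs0.le]
        field_simp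
      rw [this, le_div_iff₀ (Real.sqrt_pos.2 hp)]
      have h4 : √(1 + R ^ 2 + t ^ 2) ≤ √(4 * (1 + R ^ 2)) := by
        apply Real.sqrt_le_sqrt
        have := htr t ht
        nlinarith
      have h5 : √(4 * (1 + R ^ 2)) = 2 * √(1 + R ^ 2) := by
        rw [Real.sqrt_mul (by norm_num), show (4 : ℝ) = 2 ^ 2 by norm_num,
          Real.sqrt_sq (by norm_num)]
      linarith
    have h2 := Lee0 (ln β R t)
    set w := √(q (ln β R t)) * sp R t with hw
    have hw0 : 0 < w := by linarith
    rw [mul_div_assoc', div_le_iff₀ hw0]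
    nlinarith
  have h5 : 1 / 2 * κ ≤ ∫ t in a..b, Lee Y N β (ln β R t) := by
    rw [hκ, ← intervalIntegral.integral_const_mul]
    refine intervalIntegral.integral_mono_on hab ?_ (Leec.intervalIntegrable _ _) key
    refine Continuous.intervalIntegrable ?_ _ _
    refine continuous_const.mul (Leec.div (qc.mul spc) ?_)
    intro t
    exact (mul_pos (Real.sqrt_pos.2 (qp _)) (spp t)).ne'
  have h6 : δ / 5 ≤ ∫ t in a..b, sp R t := by
    have h7 : ∫ t in a..b, (1 / (5 * R)) ≤ ∫ t in a..b, sp R t := by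
      refine intervalIntegral.integral_mono_on hab (by simp) (spc.intervalIntegrable _ _) ?_
      intro t ht
      rw [sp, div_le_div_iff₀ (by positivity) (by positivity)]
      have := htr t ht
      have h8 : R ≤ √(1 + R ^ 2) := Real.le_sqrt_of_sq_le (by linarith)
      nlinarith
    rw [intervalIntegral.integral_const, hba, smul_eq_mul] at h7
    have : R * δ * (1 / (5 * R)) = δ / 5 := by field_simp
    linarith
  have hκ1 : 1 ≤ κ := by
    by_contra hcon
    push Not at hcon
    have κ0 : 0 ≤ κ := by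
      rw [hκ]
      refine intervalIntegral.integral_nonneg hab ?_
      intro t _
      have := spp t
      have := qp (ln β R t)
      have := Lee0 (ln β R t)
      positivity
    have : κ ^ 2 ≤ 1 := by nlinarith
    have h9 : (1 : ℝ) / 2 ≤ 1 - κ ^ 2 / 2 := by linarith
    have h10 : (∫ t in a..b, sp R t) * (1 / 2) ≤ (∫ t in a..b, sp R t) * (1 - κ ^ 2 / 2) :=
      mul_le_mul_of_nonneg_left h9 (by linarith)
    linarith
  rw [hFi] at h5
  linarith

end Pool.Agent.Helper46.Cone
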