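import Mathlib

/-!
# Isometric immersions of the open hemisphere in gnomonic coordinates

Definitions used in the disproof of MP_9df398_gt (frozen statement S13658).
-/

set_option autoImplicit false

open MeasureTheory Filter Topology

noncomputable section

namespace Pool.Agent.Helper46.Cone

abbrev E3 := EuclideanSpace ℝ (Fin 3)

/-- `1 + |y|²`. -/
def q (y : ℝ × ℝ) : ℝ := 1 + y.1 ^ 2 + y.2 ^ 2

/-- first partial derivative -/
def d1 {F : Type*} [NormedAddCommGroup F] [NormedSpace ℝ F] (f : ℝ × ℝ → F) (y : ℝ × ℝ) : F :=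
  fderiv ℝ f y (1, 0)

/-- second partial derivative -/
def d2 {F : Type*} [NormedAddCommGroup F] [NormedSpace ℝ F] (f : ℝ × ℝ → F) (y : ℝ × ℝ) : F :=
  fderiv ℝ f y (0, 1)

/-- `Y` is a `C²` isometric immersion into `ℝ³` of the open unit hemisphere,
written in gnomonic (central projection) coordinates `y ∈ ℝ²`. -/
structure Hemi (Y : ℝ × ℝ → E3) : Prop where
  smooth : ContDiff ℝ 2 Y
  metric : ∀ y a : ℝ × ℝ, ‖fderiv ℝ Y y a‖ ^ 2 =
    (a.1 ^ 2 + a.2 ^ 2) / q y - (y.1 * a.1 + y.2 * a.2) ^ 2 / (q y) ^ 2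

/-- circulation of the 1-form `p dx + r dy` around a rectangle -/
def circ (p r : ℝ × ℝ → ℝ) (x0 x1 y0 y1 : ℝ) : ℝ :=
  (∫ x in x0..x1, p (x, y0)) + (∫ y in y0..y1, r (x1, y))
    - (∫ x in x0..x1, p (x, y1)) - (∫ y in y0..y1, r (x0, y))

/-- `N` is a `C¹` unit normal field of the immersion `Y`; `gram` is the resulting expression of the
inner product of `ℝ³`. -/
structure Frame (Y N : ℝ × ℝ → E3) : Prop where
  smooth : ContDiff ℝ 1 N
  unit : ∀ y, inner ℝ (N y) (N y) = 1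
  perp1 : ∀ y, inner ℝ (N y) (d1 Y y) = 0
  perp2 : ∀ y, inner ℝ (N y) (d2 Y y) = 0
  gram : ∀ (y : ℝ × ℝ) (v t : E3), inner ℝ v t = inner ℝ v (N y) * inner ℝ t (N y) +
    q y * ((1 + y.1 ^ 2) * (inner ℝ v (d1 Y y) * inner ℝ t (d1 Y y))
      + y.1 * y.2 * (inner ℝ v (d1 Y y) * inner ℝ t (d2 Y y)
          + inner ℝ v (d2 Y y) * inner ℝ t (d1 Y y))
      + (1 + y.2 ^ 2) * (inner ℝ v (d2 Y y) * inner ℝ t (d2 Y y)))

/-- weighted second fundamental form -/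
def L11 (Y N : ℝ × ℝ → E3) (y : ℝ × ℝ) : ℝ := √(q y) * inner ℝ (d1 (d1 Y) y) (N y)
def L12 (Y N : ℝ × ℝ → E3) (y : ℝ × ℝ) : ℝ := √(q y) * inner ℝ (d2 (d1 Y) y) (N y)
def L22 (Y N : ℝ × ℝ → E3) (y : ℝ × ℝ) : ℝ := √(q y) * inner ℝ (d2 (d2 Y) y) (N y)

/-- `Ψ` is the (convex) potential of the weighted second fundamental form, `(G1, G2)` its
gradient. -/
structure Pot (Y N : ℝ × ℝ → E3) (Ψ G1 G2 : ℝ × ℝ → ℝ) : Prop where
  dΨ : ∀ y, HasFDerivAt Ψ (G1 y • ContinuousLinearMap.fst ℝ ℝ ℝ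
    + G2 y • ContinuousLinearMap.snd ℝ ℝ ℝ) y
  dG1 : ∀ y, HasFDerivAt G1 (L11 Y N y • ContinuousLinearMap.fst ℝ ℝ ℝ
    + L12 Y N y • ContinuousLinearMap.snd ℝ ℝ ℝ) y
  dG2 : ∀ y, HasFDerivAt G2 (L12 Y N y • ContinuousLinearMap.fst ℝ ℝ ℝ
    + L22 Y N y • ContinuousLinearMap.snd ℝ ℝ ℝ) y
  pos : ∀ y, 0 < L11 Y N y
  det : ∀ y, L11 Y N y * L22 Y N y - L12 Y N y ^ 2 = 1 / (q y) ^ 2

/-- `100`-th marks on the circle -/
def mark (j : ℤ) : ℝ := 2 * Real.pi * j / 100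

/-- point of the line `R e^⊥ + ℝ e` in direction `θ`, where `e^⊥ = (cos β, sin β)` -/
def pt (β θ R : ℝ) : ℝ × ℝ := (R / Real.cos (θ - β) * Real.cos θ, R / Real.cos (θ - β) * Real.sin θ)

/-- the line `R e^⊥ + t e`, `e^⊥ = (cos β, sin β)`, `e = (-sin β, cos β)` -/
def ln (β R t : ℝ) : ℝ × ℝ :=
  (R * Real.cos β - t * Real.sin β, R * Real.sin β + t * Real.cos β)

/-- its speed in the metric -/
def sp (R t : ℝ) : ℝ := √(1 + R ^ 2) / (1 + R ^ 2 + t ^ 2)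

/-- second derivative of `Ψ` along the line -/
def Lee (Y N : ℝ × ℝ → E3) (β : ℝ) (y : ℝ × ℝ) : ℝ :=
  L11 Y N y * Real.sin β ^ 2 - 2 * L12 Y N y * (Real.sin β * Real.cos β)
    + L22 Y N y * Real.cos β ^ 2

/-- the cone points of the counterexample metric -/
def S (n : ℕ) : Finset ℂ := insert 0 (Polynomial.nthRoots n (-1 : ℂ)).toFinset

/-- the conformal factor of the counterexample metric -/
def U (n : ℕ) (z : ℂ) : ℝ :=
  Real.log 2 + ((n : ℝ) - 1) * Real.log ‖z‖ + (1 / (n : ℝ) - 1) * Real.log ‖1 + z ^ n‖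
    - Real.log (1 + Real.exp (2 / (n : ℝ) * Real.log ‖1 + z ^ n‖))

/-- coordinate change: unit disc (stereographic hemisphere) to `1/z` -/
def zeta (n : ℕ) (η : ℂ) : ℂ := η * (1 - η ^ n) ^ (-(1 / (n : ℂ)))

/-- coordinate change: gnomonic plane to unit disc -/
def eta (y : ℝ × ℝ) : ℂ := ((1 / (1 + √(q y)) : ℝ) : ℂ) * ((y.1 : ℂ) + (y.2 : ℂ) * Complex.I)

end Pool.Agent.Helper46.Cone
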