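import Mathlib
import Pool.Agent.Helper46.Cone.Defs

/-!
# Area of the gradient image, and area of a parallelogram
-/

set_option autoImplicit false

open MeasureTheory Filter Topology

noncomputable section

namespace Pool.Agent.Helper46.Cone

private lemma det_pair (a b c d : ℝ) :
    ((a • ContinuousLinearMap.fst ℝ ℝ ℝ + b • ContinuousLinearMap.snd ℝ ℝ ℝ).prod
      (c • ContinuousLinearMap.fst ℝ ℝ ℝ + d • ContinuousLinearMap.snd ℝ ℝ ℝ)).det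
      = a * d - b * c := by
  rw [ContinuousLinearMap.det, ← LinearMap.det_toMatrix (Module.Basis.finTwoProd ℝ),
    Matrix.det_fin_two]
  simp [LinearMap.toMatrix_apply, Module.Basis.finTwoProd]
  try ring

theorem area_le {Y N : ℝ × ℝ → E3} {Ψ G1 G2 : ℝ × ℝ → ℝ} (hP : Pot Y N Ψ G1 G2) :
    volume (Set.range fun y => (G1 y, G2 y)) ≤ ENNReal.ofReal (Real.pi ^ 2) := by
  rw [← Set.image_univ]
  have hd : ∀ y ∈ (Set.univ : Set (ℝ × ℝ)), HasFDerivWithinAt (fun y => (G1 y, G2 y))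
      ((L11 Y N y • ContinuousLinearMap.fst ℝ ℝ ℝ
        + L12 Y N y • ContinuousLinearMap.snd ℝ ℝ ℝ).prod
        (L12 Y N y • ContinuousLinearMap.fst ℝ ℝ ℝ
        + L22 Y N y • ContinuousLinearMap.snd ℝ ℝ ℝ)) Set.univ y := by
    intro y _
    exact ((hP.dG1 y).prodMk (hP.dG2 y)).hasFDerivWithinAt
  refine (addHaar_image_le_lintegral_abs_det_fderiv volume MeasurableSet.univ hd).trans ?_
  rw [Measure.restrict_univ]
  have hle : ∀ y : ℝ × ℝ, ENNReal.ofReal |((L11 Y N y • ContinuousLinearMap.fst ℝ ℝ ℝ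
        + L12 Y N y • ContinuousLinearMap.snd ℝ ℝ ℝ).prod
        (L12 Y N y • ContinuousLinearMap.fst ℝ ℝ ℝ
        + L22 Y N y • ContinuousLinearMap.snd ℝ ℝ ℝ)).det| ≤
        ENNReal.ofReal ((1 + y.1 ^ 2)⁻¹) * ENNReal.ofReal ((1 + y.2 ^ 2)⁻¹) := by
    intro y
    rw [det_pair, ← ENNReal.ofReal_mul (by positivity)]
    apply ENNReal.ofReal_le_ofReal
    have h1 : L11 Y N y * L22 Y N y - L12 Y N y * L12 Y N y = 1 / (q y) ^ 2 := by
      rw [← hP.det y]; ring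
    have hq : 0 < q y := by unfold q; positivity
    rw [h1, abs_of_pos (by positivity), ← mul_inv, one_div]
    apply inv_anti₀ (by positivity)
    unfold q
    nlinarith [sq_nonneg y.1, sq_nonneg y.2, mul_nonneg (sq_nonneg y.1) (sq_nonneg y.2),
      mul_nonneg (sq_nonneg y.1) (sq_nonneg y.1), mul_nonneg (sq_nonneg y.2) (sq_nonneg y.2)]
  refine (lintegral_mono hle).trans ?_
  have hm : Measurable fun x : ℝ => ENNReal.ofReal ((1 + x ^ 2)⁻¹) := by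
    fun_prop
  have hone : ∫⁻ x : ℝ, ENNReal.ofReal ((1 + x ^ 2)⁻¹) = ENNReal.ofReal Real.pi := by
    rw [← ofReal_integral_eq_lintegral_ofReal integrable_inv_one_add_sq
      (Filter.Eventually.of_forall fun x => by positivity), integral_univ_inv_one_add_sq]
  rw [Measure.volume_eq_prod, lintegral_prod_mul hm.aemeasurable hm.aemeasurable, hone,
    ← ENNReal.ofReal_mul Real.pi_pos.le, sq]

theorem para (a v w : ℝ × ℝ) :
    ENNReal.ofReal (|v.1 * w.2 - v.2 * w.1| / 4) ≤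
      volume {p : ℝ × ℝ | ∃ s t : ℝ, 0 < s ∧ s < 1 / 2 ∧ 0 < t ∧ t < 1 / 2 ∧
        p = (a.1 + s * v.1 + t * w.1, a.2 + s * v.2 + t * w.2)} := by
  obtain ⟨f, hf⟩ : ∃ f : ℝ × ℝ →L[ℝ] ℝ × ℝ, f =
    ((v.1 • ContinuousLinearMap.fst ℝ ℝ ℝ + w.1 • ContinuousLinearMap.snd ℝ ℝ ℝ).prod
      (v.2 • ContinuousLinearMap.fst ℝ ℝ ℝ + w.2 • ContinuousLinearMap.snd ℝ ℝ ℝ)) := ⟨_, rfl⟩
  have hset : {p : ℝ × ℝ | ∃ s t : ℝ, 0 < s ∧ s < 1 / 2 ∧ 0 < t ∧ t < 1 / 2 ∧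
        p = (a.1 + s * v.1 + t * w.1, a.2 + s * v.2 + t * w.2)} =
      (fun x => a + x) '' (f '' (Set.Ioo (0 : ℝ) (1 / 2) ×ˢ Set.Ioo (0 : ℝ) (1 / 2))) := by
    ext p
    constructor
    · rintro ⟨s, t, h1, h2, h3, h4, rfl⟩
      refine ⟨f (s, t), ⟨(s, t), ⟨⟨h1, h2⟩, ⟨h3, h4⟩⟩, rfl⟩, ?_⟩
      rw [hf]
      ext <;> simp <;> ring
    · rintro ⟨x, ⟨⟨s, t⟩, ⟨⟨h1, h2⟩, ⟨h3, h4⟩⟩, rfl⟩, rfl⟩
      refine ⟨s, t, h1, h2, h3, h4, ?_⟩
      rw [hf]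
      ext <;> simp <;> ring
  have hdet : LinearMap.det (f : ℝ × ℝ →ₗ[ℝ] ℝ × ℝ) = v.1 * w.2 - v.2 * w.1 := by
    have := det_pair v.1 w.1 v.2 w.2
    rw [← hf, ContinuousLinearMap.det] at this
    rw [this]; ring
  rw [hset]
  have htr : volume ((fun x => a + x) '' (f '' (Set.Ioo (0 : ℝ) (1 / 2) ×ˢ
      Set.Ioo (0 : ℝ) (1 / 2)))) = volume (f '' (Set.Ioo (0 : ℝ) (1 / 2) ×ˢ
      Set.Ioo (0 : ℝ) (1 / 2))) := by
    rw [Set.image_add_left, measure_preimage_add]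
  rw [htr, Measure.addHaar_image_continuousLinearMap, hdet, Measure.volume_eq_prod,
    Measure.prod_prod, Real.volume_Ioo, ← ENNReal.ofReal_mul (by norm_num),
    ← ENNReal.ofReal_mul (abs_nonneg _)]
  apply ENNReal.ofReal_le_ofReal
  apply le_of_eq
  ring

end Pool.Agent.Helper46.Cone
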