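import Pool.Agent.Helper46.Cone.Defs

/-! Module CHORD: a curve with small total curvature has a long chord. -/

set_option autoImplicit false

open MeasureTheory Filter Topology

noncomputable section

namespace Pool.Agent.Helper46.Cone

theorem chord (c T T' : ℝ → E3) (s : ℝ → ℝ) (a b : ℝ) (hab : a ≤ b) (hs : Continuous s)
    (hs0 : ∀ t, 0 < s t) (hc : ∀ t, HasDerivAt c (s t • T t) t)
    (hT : ∀ t, HasDerivAt T (T' t) t) (hT' : Continuous T') (hTn : ∀ t, ‖T t‖ = 1) :
    (∫ t in a..b, s t) * (1 - (∫ t in a..b, ‖T' t‖) ^ 2 / 2) ≤ ‖c b - c a‖ := by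
  have hTc : Continuous T := continuous_iff_continuousAt.2 fun t => (hT t).continuousAt
  set κ : ℝ := ∫ t in a..b, ‖T' t‖ with hκ
  have hbd : ∀ t ∈ Set.Icc a b, ‖T t - T a‖ ≤ κ := by
    intro t ht
    have h1 : ∫ u in a..t, T' u = T t - T a :=
      intervalIntegral.integral_eq_sub_of_hasDerivAt (fun u _ => hT u)
        (hT'.intervalIntegrable _ _)
    rw [← h1]
    refine (intervalIntegral.norm_integral_le_integral_norm ht.1).trans ?_
    exact intervalIntegral.integral_mono_interval le_rfl ht.1 ht.2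
      (Eventually.of_forall fun u => norm_nonneg _) (hT'.norm.intervalIntegrable _ _)
  have hin : ∀ t ∈ Set.Icc a b, 1 - κ ^ 2 / 2 ≤ inner ℝ (T t) (T a) := by
    intro t ht
    have h1 : ‖T t - T a‖ ^ 2 = ‖T t‖ ^ 2 - 2 * inner ℝ (T t) (T a) + ‖T a‖ ^ 2 :=
      norm_sub_sq_real _ _
    rw [hTn, hTn] at h1
    have h2 : ‖T t - T a‖ ^ 2 ≤ κ ^ 2 := pow_le_pow_left₀ (norm_nonneg _) (hbd t ht) 2
    linarith
  have hint : ∫ t in a..b, s t * inner ℝ (T t) (T a) = inner ℝ (c b - c a) (T a) := by
    rw [inner_sub_left]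
    have := intervalIntegral.integral_eq_sub_of_hasDerivAt (a := a) (b := b)
      (f := fun t => inner ℝ (c t) (T a)) (f' := fun t => s t * inner ℝ (T t) (T a))
      (fun t _ => by
        have := (hc t).inner ℝ (hasDerivAt_const t (T a))
        simpa [inner_smul_left] using this)
      ((hs.mul (hTc.inner continuous_const)).intervalIntegrable _ _)
    exact this
  calc (∫ t in a..b, s t) * (1 - κ ^ 2 / 2) = ∫ t in a..b, s t * (1 - κ ^ 2 / 2) := by
        rw [intervalIntegral.integral_mul_const]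
    _ ≤ ∫ t in a..b, s t * inner ℝ (T t) (T a) := by
        refine intervalIntegral.integral_mono_on hab
          ((hs.mul continuous_const).intervalIntegrable _ _)
          ((hs.mul (hTc.inner continuous_const)).intervalIntegrable _ _) ?_
        intro t ht
        exact mul_le_mul_of_nonneg_left (hin t ht) (hs0 t).le
    _ = inner ℝ (c b - c a) (T a) := hint
    _ ≤ ‖c b - c a‖ * ‖T a‖ := real_inner_le_norm _ _
    _ = ‖c b - c a‖ := by rw [hTn, mul_one]

end Pool.Agent.Helper46.Cone
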