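import Pool.Agent.Helper46.Cone.Defs

/-! CHR: regularity, metric coefficients and their derivatives (Christoffel symbols). -/

set_option autoImplicit false

open MeasureTheory Filter Topology

noncomputable section

namespace Pool.Agent.Helper46.Cone

theorem q_pos (y : ℝ × ℝ) : 0 < q y := by unfold q; positivity

theorem hasDerivAt_d1 {F : Type*} [NormedAddCommGroup F] [NormedSpace ℝ F] {f : ℝ × ℝ → F}
    {y : ℝ × ℝ} (hf : DifferentiableAt ℝ f y) :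
    HasDerivAt (fun s => f (s, y.2)) (d1 f y) y.1 := by
  have h1 : HasDerivAt (fun s : ℝ => ((s, y.2) : ℝ × ℝ)) ((1, 0) : ℝ × ℝ) y.1 :=
    (hasDerivAt_id y.1).prodMk (hasDerivAt_const y.1 y.2)
  have h2 : HasFDerivAt f (fderiv ℝ f y) (y.1, y.2) := hf.hasFDerivAt
  exact h2.comp_hasDerivAt y.1 h1

theorem hasDerivAt_d2 {F : Type*} [NormedAddCommGroup F] [NormedSpace ℝ F] {f : ℝ × ℝ → F}
    {y : ℝ × ℝ} (hf : DifferentiableAt ℝ f y) :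
    HasDerivAt (fun s => f (y.1, s)) (d2 f y) y.2 := by
  have h1 : HasDerivAt (fun s : ℝ => ((y.1, s) : ℝ × ℝ)) ((0, 1) : ℝ × ℝ) y.2 :=
    (hasDerivAt_const y.2 y.1).prodMk (hasDerivAt_id y.2)
  have h2 : HasFDerivAt f (fderiv ℝ f y) (y.1, y.2) := hf.hasFDerivAt
  exact h2.comp_hasDerivAt y.2 h1

theorem cd1 {Y : ℝ × ℝ → E3} (hY : Hemi Y) : ContDiff ℝ 1 (d1 Y) := by
  have h : ContDiff ℝ 1 (fderiv ℝ Y) := hY.smooth.fderiv_right (by norm_num)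
  exact h.clm_apply contDiff_const

theorem cd2 {Y : ℝ × ℝ → E3} (hY : Hemi Y) : ContDiff ℝ 1 (d2 Y) := by
  have h : ContDiff ℝ 1 (fderiv ℝ Y) := hY.smooth.fderiv_right (by norm_num)
  exact h.clm_apply contDiff_const

theorem symm12 {Y : ℝ × ℝ → E3} (hY : Hemi Y) (y : ℝ × ℝ) : d1 (d2 Y) y = d2 (d1 Y) y := by
  have h : ContDiff ℝ 1 (fderiv ℝ Y) := hY.smooth.fderiv_right (by norm_num)
  have hd : DifferentiableAt ℝ (fderiv ℝ Y) y := h.differentiable (by norm_num) y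
  have hs : IsSymmSndFDerivAt ℝ Y y :=
    hY.smooth.contDiffAt.isSymmSndFDerivAt (by simp [minSmoothness])
  have e1 : d1 (d2 Y) y = fderiv ℝ (fderiv ℝ Y) y (1, 0) (0, 1) := by
    unfold d1 d2
    rw [fderiv_clm_apply hd (differentiableAt_const _)]
    simp
  have e2 : d2 (d1 Y) y = fderiv ℝ (fderiv ℝ Y) y (0, 1) (1, 0) := by
    unfold d1 d2
    rw [fderiv_clm_apply hd (differentiableAt_const _)]
    simp
  rw [e1, e2]
  exact hs.eq _ _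

theorem g11 {Y : ℝ × ℝ → E3} (hY : Hemi Y) (y : ℝ × ℝ) :
    inner ℝ (d1 Y y) (d1 Y y) = (1 + y.2 ^ 2) / (q y) ^ 2 := by
  have h := hY.metric y (1, 0)
  have hq := (q_pos y).ne'
  rw [real_inner_self_eq_norm_sq]
  unfold d1
  rw [h]
  field_simp
  simp only [q]
  ring

theorem g22 {Y : ℝ × ℝ → E3} (hY : Hemi Y) (y : ℝ × ℝ) :
    inner ℝ (d2 Y y) (d2 Y y) = (1 + y.1 ^ 2) / (q y) ^ 2 := by
  have h := hY.metric y (0, 1)
  have hq := (q_pos y).ne'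
  rw [real_inner_self_eq_norm_sq]
  unfold d2
  rw [h]
  field_simp
  simp only [q]
  ring

theorem g12 {Y : ℝ × ℝ → E3} (hY : Hemi Y) (y : ℝ × ℝ) :
    inner ℝ (d1 Y y) (d2 Y y) = -(y.1 * y.2) / (q y) ^ 2 := by
  have h := hY.metric y (1, 1)
  have h11 := g11 hY y
  have h22 := g22 hY y
  have hq := (q_pos y).ne'
  have e : fderiv ℝ Y y (1, 1) = d1 Y y + d2 Y y := by
    unfold d1 d2
    rw [← map_add]
    simp
  rw [e, norm_add_sq_real, ← real_inner_self_eq_norm_sq, ← real_inner_self_eq_norm_sq,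
    h11, h22] at h
  have h' : inner ℝ (d1 Y y) (d2 Y y) = (((1:ℝ) ^ 2 + 1 ^ 2) / q y - (y.1 * 1 + y.2 * 1) ^ 2 / (q y) ^ 2
      - (1 + y.2 ^ 2) / (q y) ^ 2 - (1 + y.1 ^ 2) / (q y) ^ 2) / 2 := by
    linarith
  rw [h']
  field_simp
  simp only [q]
  ring

/-- the six derivatives of the metric coefficients -/
theorem dg {Y : ℝ × ℝ → E3} (hY : Hemi Y) (y : ℝ × ℝ) :
    2 * inner ℝ (d1 (d1 Y) y) (d1 Y y) = -(4 * y.1 * (1 + y.2 ^ 2)) / (q y) ^ 3 ∧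
    2 * inner ℝ (d2 (d1 Y) y) (d1 Y y) = 2 * y.2 / (q y) ^ 2 - 4 * y.2 * (1 + y.2 ^ 2) / (q y) ^ 3 ∧
    inner ℝ (d1 (d1 Y) y) (d2 Y y) + inner ℝ (d2 (d1 Y) y) (d1 Y y) =
      -y.2 / (q y) ^ 2 + 4 * y.1 ^ 2 * y.2 / (q y) ^ 3 ∧
    inner ℝ (d2 (d1 Y) y) (d2 Y y) + inner ℝ (d2 (d2 Y) y) (d1 Y y) =
      -y.1 / (q y) ^ 2 + 4 * y.1 * y.2 ^ 2 / (q y) ^ 3 ∧
    2 * inner ℝ (d2 (d1 Y) y) (d2 Y y) = 2 * y.1 / (q y) ^ 2 - 4 * y.1 * (1 + y.1 ^ 2) / (q y) ^ 3 ∧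
    2 * inner ℝ (d2 (d2 Y) y) (d2 Y y) = -(4 * y.2 * (1 + y.1 ^ 2)) / (q y) ^ 3 := by
  have D1 : DifferentiableAt ℝ (d1 Y) y := (cd1 hY).differentiable (by norm_num) y
  have D2 : DifferentiableAt ℝ (d2 Y) y := (cd2 hY).differentiable (by norm_num) y
  have a1 := hasDerivAt_d1 D1
  have a2 := hasDerivAt_d2 D1
  have b1 := hasDerivAt_d1 D2
  have b2 := hasDerivAt_d2 D2
  rw [symm12 hY] at b1
  have hq := (q_pos y).ne'
  have hq' : (1 + y.1 ^ 2 + y.2 ^ 2) ≠ 0 := hq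
  -- derivative of q
  have q1 : HasDerivAt (fun s : ℝ => 1 + s ^ 2 + y.2 ^ 2) (2 * y.1) y.1 := by
    have := (((hasDerivAt_id y.1).pow 2).const_add 1).add_const (y.2 ^ 2)
    refine this.congr_deriv ?_
    simp
  have q2 : HasDerivAt (fun s : ℝ => 1 + y.1 ^ 2 + s ^ 2) (2 * y.2) y.2 := by
    have := ((hasDerivAt_id y.2).pow 2).const_add (1 + y.1 ^ 2)
    refine this.congr_deriv ?_
    simp
  refine ⟨?_, ?_, ?_, ?_, ?_, ?_⟩
  · have h := a1.inner ℝ a1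
    have e : (fun s => inner ℝ (d1 Y (s, y.2)) (d1 Y (s, y.2))) =
        fun s : ℝ => (1 + y.2 ^ 2) / (1 + s ^ 2 + y.2 ^ 2) ^ 2 := by
      funext s; rw [g11 hY]; rfl
    rw [e] at h
    have h2 := (hasDerivAt_const y.1 (1 + y.2 ^ 2)).div (q1.pow 2) (pow_ne_zero 2 hq')
    have h3 := h.unique h2
    have h4 : 2 * inner ℝ (d1 (d1 Y) y) (d1 Y y) =
      inner ℝ (d1 Y (y.1, y.2)) (d1 (d1 Y) y) + inner ℝ (d1 (d1 Y) y) (d1 Y (y.1, y.2)) := by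
      rw [real_inner_comm (d1 (d1 Y) y) (d1 Y (y.1, y.2))]; ring
    rw [h4, h3]
    simp only [q, Pi.pow_apply]
    field_simp
    push_cast
    ring
  · have h := a2.inner ℝ a2
    have e : (fun s => inner ℝ (d1 Y (y.1, s)) (d1 Y (y.1, s))) =
        fun s : ℝ => (1 + s ^ 2) / (1 + y.1 ^ 2 + s ^ 2) ^ 2 := by
      funext s; rw [g11 hY]; rfl
    rw [e] at h
    have h2 := (((hasDerivAt_id y.2).pow 2).const_add 1).div (q2.pow 2) (pow_ne_zero 2 hq')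
    have h3 := h.unique h2
    have h4 : 2 * inner ℝ (d2 (d1 Y) y) (d1 Y y) =
      inner ℝ (d1 Y (y.1, y.2)) (d2 (d1 Y) y) + inner ℝ (d2 (d1 Y) y) (d1 Y (y.1, y.2)) := by
      rw [real_inner_comm (d2 (d1 Y) y) (d1 Y (y.1, y.2))]; ring
    rw [h4, h3]
    simp only [q, Pi.pow_apply, id]
    field_simp
    push_cast
    ring
  · have h := a1.inner ℝ b1
    have e : (fun s => inner ℝ (d1 Y (s, y.2)) (d2 Y (s, y.2))) =
        fun s : ℝ => -(s * y.2) / (1 + s ^ 2 + y.2 ^ 2) ^ 2 := by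
      funext s; rw [g12 hY]; rfl
    rw [e] at h
    have h2 := (((hasDerivAt_id y.1).mul_const y.2).neg).div (q1.pow 2) (pow_ne_zero 2 hq')
    have h3 := h.unique h2
    have h4 : inner ℝ (d1 (d1 Y) y) (d2 Y y) + inner ℝ (d2 (d1 Y) y) (d1 Y y) =
      inner ℝ (d1 Y (y.1, y.2)) (d2 (d1 Y) y) + inner ℝ (d1 (d1 Y) y) (d2 Y (y.1, y.2)) := by
      rw [real_inner_comm (d2 (d1 Y) y) (d1 Y (y.1, y.2))]; ring
    rw [h4, h3]
    simp only [q, Pi.pow_apply, Pi.neg_apply, id]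
    field_simp
    push_cast
    ring
  · have h := a2.inner ℝ b2
    have e : (fun s => inner ℝ (d1 Y (y.1, s)) (d2 Y (y.1, s))) =
        fun s : ℝ => -(y.1 * s) / (1 + y.1 ^ 2 + s ^ 2) ^ 2 := by
      funext s; rw [g12 hY]; rfl
    rw [e] at h
    have h2 := (((hasDerivAt_id y.2).const_mul y.1).neg).div (q2.pow 2) (pow_ne_zero 2 hq')
    have h3 := h.unique h2
    have h4 : inner ℝ (d2 (d1 Y) y) (d2 Y y) + inner ℝ (d2 (d2 Y) y) (d1 Y y) =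
      inner ℝ (d1 Y (y.1, y.2)) (d2 (d2 Y) y) + inner ℝ (d2 (d1 Y) y) (d2 Y (y.1, y.2)) := by
      rw [real_inner_comm (d2 (d2 Y) y) (d1 Y (y.1, y.2))]; ring
    rw [h4, h3]
    simp only [q, Pi.pow_apply, Pi.neg_apply, id]
    field_simp
    push_cast
    ring
  · have h := b1.inner ℝ b1
    have e : (fun s => inner ℝ (d2 Y (s, y.2)) (d2 Y (s, y.2))) =
        fun s : ℝ => (1 + s ^ 2) / (1 + s ^ 2 + y.2 ^ 2) ^ 2 := by
      funext s; rw [g22 hY]; rfl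
    rw [e] at h
    have h2 := (((hasDerivAt_id y.1).pow 2).const_add 1).div (q1.pow 2) (pow_ne_zero 2 hq')
    have h3 := h.unique h2
    have h4 : 2 * inner ℝ (d2 (d1 Y) y) (d2 Y y) =
      inner ℝ (d2 Y (y.1, y.2)) (d2 (d1 Y) y) + inner ℝ (d2 (d1 Y) y) (d2 Y (y.1, y.2)) := by
      rw [real_inner_comm (d2 (d1 Y) y) (d2 Y (y.1, y.2))]; ring
    rw [h4, h3]
    simp only [q, Pi.pow_apply, id]
    field_simp
    push_cast
    ring
  · have h := b2.inner ℝ b2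
    have e : (fun s => inner ℝ (d2 Y (y.1, s)) (d2 Y (y.1, s))) =
        fun s : ℝ => (1 + y.1 ^ 2) / (1 + y.1 ^ 2 + s ^ 2) ^ 2 := by
      funext s; rw [g22 hY]; rfl
    rw [e] at h
    have h2 := (hasDerivAt_const y.2 (1 + y.1 ^ 2)).div (q2.pow 2) (pow_ne_zero 2 hq')
    have h3 := h.unique h2
    have h4 : 2 * inner ℝ (d2 (d2 Y) y) (d2 Y y) =
      inner ℝ (d2 Y (y.1, y.2)) (d2 (d2 Y) y) + inner ℝ (d2 (d2 Y) y) (d2 Y (y.1, y.2)) := by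
      rw [real_inner_comm (d2 (d2 Y) y) (d2 Y (y.1, y.2))]; ring
    rw [h4, h3]
    simp only [q, Pi.pow_apply]
    field_simp
    push_cast
    ring

/-- for `Yk = d1 Y` and `Yk = d2 Y` -/
theorem chr11 {Y : ℝ × ℝ → E3} (hY : Hemi Y) (y : ℝ × ℝ) (v : E3)
    (hv : v = d1 Y y ∨ v = d2 Y y) :
    inner ℝ (d1 (d1 Y) y) v = -(2 * y.1 / q y) * inner ℝ (d1 Y y) v := by
  obtain ⟨a1, a2, b1, b2, c1, c2⟩ := dg hY y
  have hq := (q_pos y).ne'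
  rcases hv with rfl | rfl
  · rw [g11 hY]
    have : inner ℝ (d1 (d1 Y) y) (d1 Y y) = (-(4 * y.1 * (1 + y.2 ^ 2)) / (q y) ^ 3) / 2 := by
      linarith
    rw [this]
    field_simp
    ring
  · rw [g12 hY]
    have : inner ℝ (d1 (d1 Y) y) (d2 Y y) = -y.2 / (q y) ^ 2 + 4 * y.1 ^ 2 * y.2 / (q y) ^ 3
        - (2 * y.2 / (q y) ^ 2 - 4 * y.2 * (1 + y.2 ^ 2) / (q y) ^ 3) / 2 := by
      linarith
    rw [this]
    field_simp
    simp only [q]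
    ring

theorem chr12 {Y : ℝ × ℝ → E3} (hY : Hemi Y) (y : ℝ × ℝ) (v : E3)
    (hv : v = d1 Y y ∨ v = d2 Y y) :
    inner ℝ (d2 (d1 Y) y) v =
      -(y.1 / q y) * inner ℝ (d2 Y y) v - (y.2 / q y) * inner ℝ (d1 Y y) v := by
  obtain ⟨a1, a2, b1, b2, c1, c2⟩ := dg hY y
  have hq := (q_pos y).ne'
  rcases hv with rfl | rfl
  · rw [g11 hY, real_inner_comm (d1 Y y) (d2 Y y), g12 hY]
    have : inner ℝ (d2 (d1 Y) y) (d1 Y y) =
        (2 * y.2 / (q y) ^ 2 - 4 * y.2 * (1 + y.2 ^ 2) / (q y) ^ 3) / 2 := by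
      linarith
    rw [this]
    field_simp
    simp only [q]
    ring
  · rw [g12 hY, g22 hY]
    have : inner ℝ (d2 (d1 Y) y) (d2 Y y) =
        (2 * y.1 / (q y) ^ 2 - 4 * y.1 * (1 + y.1 ^ 2) / (q y) ^ 3) / 2 := by
      linarith
    rw [this]
    field_simp
    simp only [q]
    ring

theorem chr22 {Y : ℝ × ℝ → E3} (hY : Hemi Y) (y : ℝ × ℝ) (v : E3)
    (hv : v = d1 Y y ∨ v = d2 Y y) :
    inner ℝ (d2 (d2 Y) y) v = -(2 * y.2 / q y) * inner ℝ (d2 Y y) v := by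
  obtain ⟨a1, a2, b1, b2, c1, c2⟩ := dg hY y
  have hq := (q_pos y).ne'
  rcases hv with rfl | rfl
  · rw [real_inner_comm (d1 Y y) (d2 Y y), g12 hY]
    have : inner ℝ (d2 (d2 Y) y) (d1 Y y) = -y.1 / (q y) ^ 2 + 4 * y.1 * y.2 ^ 2 / (q y) ^ 3
        - (2 * y.1 / (q y) ^ 2 - 4 * y.1 * (1 + y.1 ^ 2) / (q y) ^ 3) / 2 := by
      linarith
    rw [this]
    field_simp
    simp only [q]
    ring
  · rw [g22 hY]
    have : inner ℝ (d2 (d2 Y) y) (d2 Y y) = (-(4 * y.2 * (1 + y.1 ^ 2)) / (q y) ^ 3) / 2 := by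
      linarith
    rw [this]
    field_simp
    ring

end Pool.Agent.Helper46.Cone
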