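import Pool.Agent.Helper46.Cone.Defs

/-!
# Module GREEN: Green's formula for two `C¹` functions
-/

set_option autoImplicit false

open MeasureTheory Filter Topology

noncomputable section

namespace Pool.Agent.Helper46.Cone

section
variable {F : Type*} [NormedAddCommGroup F] [NormedSpace ℝ F]

private theorem gr_cont1 {A : ℝ × ℝ → F} (hA : ContDiff ℝ 1 A) : Continuous (d1 A) :=
  (hA.continuous_fderiv one_ne_zero).clm_apply continuous_const

private theorem gr_cont2 {A : ℝ × ℝ → F} (hA : ContDiff ℝ 1 A) : Continuous (d2 A) :=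
  (hA.continuous_fderiv one_ne_zero).clm_apply continuous_const

private theorem gr_deriv1 {A : ℝ × ℝ → F} (hA : ContDiff ℝ 1 A) (x y : ℝ) :
    HasDerivAt (fun t => A (t, y)) (d1 A (x, y)) x := by
  have h1 : HasFDerivAt A (fderiv ℝ A (x, y)) (x, y) :=
    (hA.differentiable one_ne_zero (x, y)).hasFDerivAt
  have h2 : HasDerivAt (fun t : ℝ => (t, y)) ((1 : ℝ), (0 : ℝ)) x :=
    (hasDerivAt_id x).prodMk (hasDerivAt_const x y)
  exact h1.comp_hasDerivAt x h2

private theorem gr_deriv2 {A : ℝ × ℝ → F} (hA : ContDiff ℝ 1 A) (x y : ℝ) :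
    HasDerivAt (fun t => A (x, t)) (d2 A (x, y)) y := by
  have h1 : HasFDerivAt A (fderiv ℝ A (x, y)) (x, y) :=
    (hA.differentiable one_ne_zero (x, y)).hasFDerivAt
  have h2 : HasDerivAt (fun t : ℝ => (x, t)) ((0 : ℝ), (1 : ℝ)) y :=
    (hasDerivAt_const y x).prodMk (hasDerivAt_id y)
  exact h1.comp_hasDerivAt y h2

/-- the difference quotient -/
private def grQ (A : ℝ × ℝ → F) (x : ℝ) (ε y : ℝ) : F := ∫ s in (0 : ℝ)..1, d1 A (x + s * ε, y)

private theorem grQ_cont {A : ℝ × ℝ → F} (hA : ContDiff ℝ 1 A) (x : ℝ) :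
    Continuous (fun p : ℝ × ℝ => grQ A x p.1 p.2) := by
  unfold grQ
  apply intervalIntegral.continuous_parametric_intervalIntegral_of_continuous'
  exact (gr_cont1 hA).comp (by fun_prop)

private theorem grQ_spec [CompleteSpace F] {A : ℝ × ℝ → F} (hA : ContDiff ℝ 1 A) (x ε y : ℝ) :
    A (x + ε, y) - A (x, y) = ε • grQ A x ε y := by
  unfold grQ
  rw [← intervalIntegral.integral_smul]
  have h : ∀ s ∈ Set.uIcc (0 : ℝ) 1, HasDerivAt (fun s => A (x + s * ε, y))
      (ε • d1 A (x + s * ε, y)) s := by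
    intro s _
    have h1 : HasDerivAt (fun s : ℝ => x + s * ε) ε s := by
      simpa using ((hasDerivAt_id s).mul_const ε).const_add x
    have h2 := (gr_deriv1 hA (x + s * ε) y).scomp s h1
    exact h2
  rw [intervalIntegral.integral_eq_sub_of_hasDerivAt h]
  · simp
  · apply Continuous.intervalIntegrable
    exact continuous_const.smul ((gr_cont1 hA).comp (by fun_prop))

private theorem grQ_zero [CompleteSpace F] (A : ℝ × ℝ → F) (x y : ℝ) :
    grQ A x 0 y = d1 A (x, y) := by
  unfold grQ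
  simp

end

section
variable {F : Type*} [NormedAddCommGroup F] [InnerProductSpace ℝ F] [CompleteSpace F]

private theorem gr_key {A B : ℝ × ℝ → F} (hA : ContDiff ℝ 1 A) (hB : ContDiff ℝ 1 B)
    (y0 y1 x ε : ℝ) :
    (∫ y in y0..y1, inner ℝ (A (x + ε, y)) (d2 B (x + ε, y)))
      - (∫ y in y0..y1, inner ℝ (A (x, y)) (d2 B (x, y)))
    = ε * ((∫ y in y0..y1, inner ℝ (grQ A x ε y) (d2 B (x + ε, y)))
        + inner ℝ (A (x, y1)) (grQ B x ε y1) - inner ℝ (A (x, y0)) (grQ B x ε y0)
        - ∫ y in y0..y1, inner ℝ (d2 A (x, y)) (grQ B x ε y)) := by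
  have cA := hA.continuous
  have cB := hB.continuous
  have cA2 := gr_cont2 hA
  have cB2 := gr_cont2 hB
  have cQA : Continuous (fun y => grQ A x ε y) :=
    (grQ_cont hA x).comp (by fun_prop : Continuous fun y : ℝ => (ε, y))
  have cQB : Continuous (fun y => grQ B x ε y) :=
    (grQ_cont hB x).comp (by fun_prop : Continuous fun y : ℝ => (ε, y))
  -- integration by parts
  have hparts : ∫ y in y0..y1, (inner ℝ (A (x, y)) (d2 B (x + ε, y) - d2 B (x, y))
        + inner ℝ (d2 A (x, y)) (B (x + ε, y) - B (x, y)))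
      = inner ℝ (A (x, y1)) (B (x + ε, y1) - B (x, y1))
        - inner ℝ (A (x, y0)) (B (x + ε, y0) - B (x, y0)) := by
    rw [intervalIntegral.integral_eq_sub_of_hasDerivAt
      (f := fun y => inner ℝ (A (x, y)) (B (x + ε, y) - B (x, y)))]
    · intro y _
      exact (gr_deriv2 hA x y).inner ℝ ((gr_deriv2 hB (x + ε) y).sub (gr_deriv2 hB x y))
    · apply Continuous.intervalIntegrable
      fun_prop
  rw [intervalIntegral.integral_add (Continuous.intervalIntegrable (by fun_prop) _ _)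
    (Continuous.intervalIntegrable (by fun_prop) _ _)] at hparts
  rw [← intervalIntegral.integral_sub (Continuous.intervalIntegrable (by fun_prop) _ _)
    (Continuous.intervalIntegrable (by fun_prop) _ _)]
  have e1 : (fun y => inner ℝ (A (x + ε, y)) (d2 B (x + ε, y)) -
      inner ℝ (A (x, y)) (d2 B (x, y))) = fun y =>
      ε * inner ℝ (grQ A x ε y) (d2 B (x + ε, y)) +
        inner ℝ (A (x, y)) (d2 B (x + ε, y) - d2 B (x, y)) := by
    funext y
    have h := grQ_spec hA x ε y
    rw [← real_inner_smul_left, ← h, inner_sub_left, inner_sub_right]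
    ring
  rw [e1, intervalIntegral.integral_add (Continuous.intervalIntegrable (by fun_prop) _ _)
    (Continuous.intervalIntegrable (by fun_prop) _ _), intervalIntegral.integral_const_mul]
  have e2 : (fun y => inner ℝ (d2 A (x, y)) (B (x + ε, y) - B (x, y))) = fun y =>
      ε * inner ℝ (d2 A (x, y)) (grQ B x ε y) := by
    funext y
    rw [grQ_spec hB x ε y, real_inner_smul_right]
  rw [e2, intervalIntegral.integral_const_mul, grQ_spec hB x ε y0, grQ_spec hB x ε y1,
    real_inner_smul_right, real_inner_smul_right] at hparts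
  linear_combination hparts

private theorem gr_hasDeriv {A B : ℝ × ℝ → F} (hA : ContDiff ℝ 1 A) (hB : ContDiff ℝ 1 B)
    (y0 y1 x : ℝ) :
    HasDerivAt (fun x => ∫ y in y0..y1, inner ℝ (A (x, y)) (d2 B (x, y)))
      ((∫ y in y0..y1, inner ℝ (d1 A (x, y)) (d2 B (x, y)))
        + inner ℝ (A (x, y1)) (d1 B (x, y1)) - inner ℝ (A (x, y0)) (d1 B (x, y0))
        - ∫ y in y0..y1, inner ℝ (d2 A (x, y)) (d1 B (x, y))) x := by
  have cA := hA.continuous
  have cB := hB.continuous
  have cA2 := gr_cont2 hA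
  have cB2 := gr_cont2 hB
  have cQA := grQ_cont hA x
  have cQB := grQ_cont hB x
  let G : ℝ → ℝ := fun ε => (∫ y in y0..y1, inner ℝ (grQ A x ε y) (d2 B (x + ε, y)))
        + inner ℝ (A (x, y1)) (grQ B x ε y1) - inner ℝ (A (x, y0)) (grQ B x ε y0)
        - ∫ y in y0..y1, inner ℝ (d2 A (x, y)) (grQ B x ε y)
  have hG : Continuous G := by
    have c1 : Continuous (fun ε => ∫ y in y0..y1, inner ℝ (grQ A x ε y) (d2 B (x + ε, y))) := by
      apply intervalIntegral.continuous_parametric_intervalIntegral_of_continuous'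
      have : Continuous (fun p : ℝ × ℝ => (inner ℝ (grQ A x p.1 p.2) (d2 B (x + p.1, p.2)) : ℝ)) :=
        cQA.inner (cB2.comp (by fun_prop))
      exact this
    have c2 : Continuous (fun ε => ∫ y in y0..y1, inner ℝ (d2 A (x, y)) (grQ B x ε y)) := by
      apply intervalIntegral.continuous_parametric_intervalIntegral_of_continuous'
      have : Continuous (fun p : ℝ × ℝ => (inner ℝ (d2 A (x, p.2)) (grQ B x p.1 p.2) : ℝ)) :=
        (cA2.comp (by fun_prop)).inner cQB
      exact this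
    have c3 : ∀ z : ℝ, Continuous (fun ε => (inner ℝ (A (x, z)) (grQ B x ε z) : ℝ)) := fun z =>
      continuous_const.inner (cQB.comp (by fun_prop : Continuous fun ε : ℝ => (ε, z)))
    exact ((c1.add (c3 y1)).sub (c3 y0)).sub c2
  have hG0 : G 0 = (∫ y in y0..y1, inner ℝ (d1 A (x, y)) (d2 B (x, y)))
        + inner ℝ (A (x, y1)) (d1 B (x, y1)) - inner ℝ (A (x, y0)) (d1 B (x, y0))
        - ∫ y in y0..y1, inner ℝ (d2 A (x, y)) (d1 B (x, y)) := by
    simp only [G, grQ_zero, add_zero]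
  rw [← hG0, hasDerivAt_iff_tendsto_slope_zero]
  have h1 : Tendsto G (𝓝[≠] 0) (𝓝 (G 0)) := (hG.tendsto 0).mono_left nhdsWithin_le_nhds
  refine h1.congr' ?_
  filter_upwards [self_mem_nhdsWithin] with ε hε
  have hε' : ε ≠ 0 := hε
  rw [gr_key hA hB y0 y1 x ε]
  simp only [smul_eq_mul, G]
  field_simp

private theorem green_complete (A B : ℝ × ℝ → F)
    (hA : ContDiff ℝ 1 A) (hB : ContDiff ℝ 1 B) (x0 x1 y0 y1 : ℝ) :
    circ (fun y => inner ℝ (A y) (d1 B y)) (fun y => inner ℝ (A y) (d2 B y)) x0 x1 y0 y1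
      = ∫ x in x0..x1, ∫ y in y0..y1, (inner ℝ (d1 A (x, y)) (d2 B (x, y))
          - inner ℝ (d2 A (x, y)) (d1 B (x, y))) := by
  have cA := hA.continuous
  have cB := hB.continuous
  have cA1 := gr_cont1 hA
  have cB1 := gr_cont1 hB
  have cA2 := gr_cont2 hA
  have cB2 := gr_cont2 hB
  have c1 : Continuous (fun x => ∫ y in y0..y1, inner ℝ (d1 A (x, y)) (d2 B (x, y))) := by
    apply intervalIntegral.continuous_parametric_intervalIntegral_of_continuous'
    have : Continuous (fun p : ℝ × ℝ => (inner ℝ (d1 A p) (d2 B p) : ℝ)) := cA1.inner cB2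
    exact this
  have c2 : Continuous (fun x => ∫ y in y0..y1, inner ℝ (d2 A (x, y)) (d1 B (x, y))) := by
    apply intervalIntegral.continuous_parametric_intervalIntegral_of_continuous'
    have : Continuous (fun p : ℝ × ℝ => (inner ℝ (d2 A p) (d1 B p) : ℝ)) := cA2.inner cB1
    exact this
  have c3 : ∀ z : ℝ, Continuous (fun x => (inner ℝ (A (x, z)) (d1 B (x, z)) : ℝ)) := fun z =>
    (cA.comp (by fun_prop)).inner (cB1.comp (by fun_prop))
  have c12 : Continuous (fun x => (∫ y in y0..y1, inner ℝ (d1 A (x, y)) (d2 B (x, y))) +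
      inner ℝ (A (x, y1)) (d1 B (x, y1))) := c1.add (c3 y1)
  have c123 : Continuous (fun x => (∫ y in y0..y1, inner ℝ (d1 A (x, y)) (d2 B (x, y))) +
      inner ℝ (A (x, y1)) (d1 B (x, y1)) - inner ℝ (A (x, y0)) (d1 B (x, y0))) :=
    c12.sub (c3 y0)
  have c1234 : Continuous (fun x => (∫ y in y0..y1, inner ℝ (d1 A (x, y)) (d2 B (x, y))) +
      inner ℝ (A (x, y1)) (d1 B (x, y1)) - inner ℝ (A (x, y0)) (d1 B (x, y0)) -
      ∫ y in y0..y1, inner ℝ (d2 A (x, y)) (d1 B (x, y))) := c123.sub c2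
  have h := intervalIntegral.integral_eq_sub_of_hasDerivAt
    (a := x0) (b := x1) (fun x _ => gr_hasDeriv hA hB y0 y1 x)
    (Continuous.intervalIntegrable c1234 _ _)
  rw [intervalIntegral.integral_sub (Continuous.intervalIntegrable c123 _ _)
    (Continuous.intervalIntegrable c2 _ _),
    intervalIntegral.integral_sub (Continuous.intervalIntegrable c12 _ _)
    (Continuous.intervalIntegrable (c3 y0) _ _),
    intervalIntegral.integral_add (Continuous.intervalIntegrable c1 _ _)
    (Continuous.intervalIntegrable (c3 y1) _ _)] at h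
  have h2 : (∫ x in x0..x1, ∫ y in y0..y1, (inner ℝ (d1 A (x, y)) (d2 B (x, y))
          - inner ℝ (d2 A (x, y)) (d1 B (x, y)))) =
      (∫ x in x0..x1, ∫ y in y0..y1, inner ℝ (d1 A (x, y)) (d2 B (x, y))) -
        ∫ x in x0..x1, ∫ y in y0..y1, inner ℝ (d2 A (x, y)) (d1 B (x, y)) := by
    rw [← intervalIntegral.integral_sub (Continuous.intervalIntegrable c1 _ _)
      (Continuous.intervalIntegrable c2 _ _)]
    congr 1
    funext x
    rw [intervalIntegral.integral_sub]
    · exact Continuous.intervalIntegrable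
        ((cA1.comp (by fun_prop)).inner (cB2.comp (by fun_prop))) _ _
    · exact Continuous.intervalIntegrable
        ((cA2.comp (by fun_prop)).inner (cB1.comp (by fun_prop))) _ _
  rw [h2]
  unfold circ
  linear_combination -h

end

theorem green {F : Type*} [NormedAddCommGroup F] [InnerProductSpace ℝ F] (A B : ℝ × ℝ → F)
    (hA : ContDiff ℝ 1 A) (hB : ContDiff ℝ 1 B) (x0 x1 y0 y1 : ℝ) :
    circ (fun y => inner ℝ (A y) (d1 B y)) (fun y => inner ℝ (A y) (d2 B y)) x0 x1 y0 y1
      = ∫ x in x0..x1, ∫ y in y0..y1, (inner ℝ (d1 A (x, y)) (d2 B (x, y))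
          - inner ℝ (d2 A (x, y)) (d1 B (x, y))) := by
  let L : F →L[ℝ] UniformSpace.Completion F := UniformSpace.Completion.toComplL
  have hL : ∀ v w : F, (inner ℝ (L v) (L w) : ℝ) = inner ℝ v w := fun v w =>
    UniformSpace.Completion.inner_coe v w
  have hd : ∀ {C : ℝ × ℝ → F}, ContDiff ℝ 1 C → ∀ y, fderiv ℝ (fun y => L (C y)) y =
      L.comp (fderiv ℝ C y) := fun hC y =>
    (L.hasFDerivAt.comp y (hC.differentiable one_ne_zero y).hasFDerivAt).fderiv
  have hd1 : ∀ {C : ℝ × ℝ → F}, ContDiff ℝ 1 C → ∀ y, d1 (fun y => L (C y)) y =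
      L (d1 C y) := fun hC y => by
    unfold d1; rw [hd hC]; rfl
  have hd2 : ∀ {C : ℝ × ℝ → F}, ContDiff ℝ 1 C → ∀ y, d2 (fun y => L (C y)) y =
      L (d2 C y) := fun hC y => by
    unfold d2; rw [hd hC]; rfl
  have h := green_complete (fun y => L (A y)) (fun y => L (B y)) (L.contDiff.comp hA)
    (L.contDiff.comp hB) x0 x1 y0 y1
  simp only [hd1 hA, hd1 hB, hd2 hA, hd2 hB, hL] at h
  exact h

end Pool.Agent.Helper46.Cone
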