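import Pool.Agent.Helper46.Cone.Defs
import Pool.Agent.Helper46.Cone.Green
import Pool.Agent.Helper46.Cone.Chr
import Pool.Agent.Helper46.Cone.Gform

/-!
# Module CODAZZI: the Codazzi equations in weak form
-/

set_option autoImplicit false

open MeasureTheory Filter Topology

noncomputable section

namespace Pool.Agent.Helper46.Cone

theorem codazzi_q_pos (y : ℝ × ℝ) : 0 < q y := by unfold q; positivity

theorem codazzi_q_smooth : ContDiff ℝ 1 q := by
  unfold q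
  fun_prop

theorem codazzi_sqrt_smooth : ContDiff ℝ 1 (fun y => √(q y)) :=
  codazzi_q_smooth.sqrt (fun y => (codazzi_q_pos y).ne')

theorem codazzi_q_fderiv (y : ℝ × ℝ) :
    HasFDerivAt q (((2 * y.1) • ContinuousLinearMap.fst ℝ ℝ ℝ)
      + ((2 * y.2) • ContinuousLinearMap.snd ℝ ℝ ℝ)) y := by
  have h1 : HasFDerivAt (fun z : ℝ × ℝ => z.1) (ContinuousLinearMap.fst ℝ ℝ ℝ) y :=
    hasFDerivAt_fst
  have h2 : HasFDerivAt (fun z : ℝ × ℝ => z.2) (ContinuousLinearMap.snd ℝ ℝ ℝ) y :=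
    hasFDerivAt_snd
  have h3 : HasFDerivAt (fun z : ℝ × ℝ => 1 + z.1 ^ 2 + z.2 ^ 2) _ y :=
    ((h1.pow 2).const_add (1 : ℝ)).add (h2.pow 2)
  refine h3.congr_fderiv ?_
  ext <;> simp

/-- directional derivative of `√q • V` -/
theorem codazzi_fderiv_smul (V : ℝ × ℝ → E3) (hV : ContDiff ℝ 1 V) (y a : ℝ × ℝ) :
    fderiv ℝ (fun z => √(q z) • V z) y a =
      √(q y) • fderiv ℝ V y a + ((y.1 * a.1 + y.2 * a.2) / √(q y)) • V y := by
  have hs := (codazzi_q_fderiv y).sqrt (codazzi_q_pos y).ne'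
  have hv : HasFDerivAt V (fderiv ℝ V y) y :=
    (hV.differentiable (by norm_num) y).hasFDerivAt
  have h := (hs.smul hv).fderiv
  have h' : fderiv ℝ (fun z => √(q z) • V z) y = _ := h
  rw [h']
  simp only [add_apply, smul_apply,
    ContinuousLinearMap.smulRight_apply, ContinuousLinearMap.coe_fst', ContinuousLinearMap.coe_snd',
    smul_eq_mul]
  congr 2
  have : √(q y) ≠ 0 := (Real.sqrt_pos.2 (codazzi_q_pos y)).ne'
  field_simp

/-- differentiating `⟪N, V⟫ = 0` -/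
theorem codazzi_perp (N V : ℝ × ℝ → E3) (hN : ContDiff ℝ 1 N) (hV : ContDiff ℝ 1 V) (c : ℝ)
    (h : ∀ y, inner ℝ (N y) (V y) = c) (y a : ℝ × ℝ) :
    inner ℝ (V y) (fderiv ℝ N y a) = - inner ℝ (fderiv ℝ V y a) (N y) := by
  have hv : HasFDerivAt V (fderiv ℝ V y) y :=
    (hV.differentiable (by norm_num) y).hasFDerivAt
  have hn : HasFDerivAt N (fderiv ℝ N y) y :=
    (hN.differentiable (by norm_num) y).hasFDerivAt
  have h1 := (hn.inner ℝ hv).fderiv
  have h2 : (fun t => inner ℝ (N t) (V t)) = fun _ => c := funext h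
  rw [h2] at h1
  have h3 := congrArg (fun l => l a) h1
  simp only [Pi.zero_apply, ContinuousLinearMap.comp_apply,
    ContinuousLinearMap.prod_apply, fderivInnerCLM_apply, fderiv_fun_const, zero_apply] at h3
  have e1 : inner ℝ (N y) (fderiv ℝ V y a) = inner ℝ (fderiv ℝ V y a) (N y) :=
    real_inner_comm _ _
  have e2 : inner ℝ (fderiv ℝ N y a) (V y) = inner ℝ (V y) (fderiv ℝ N y a) :=
    real_inner_comm _ _
  linarith

/-- the data at a point needed below -/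
theorem codazzi_data {Y N : ℝ × ℝ → E3} (hY : Hemi Y) (hN : Frame Y N) (y : ℝ × ℝ) :
    inner ℝ (N y) (d1 N y) = 0 ∧ inner ℝ (N y) (d2 N y) = 0 ∧
    inner ℝ (d1 Y y) (d1 N y) = -(L11 Y N y / √(q y)) ∧
    inner ℝ (d1 Y y) (d2 N y) = -(L12 Y N y / √(q y)) ∧
    inner ℝ (d2 Y y) (d1 N y) = -(L12 Y N y / √(q y)) ∧
    inner ℝ (d2 Y y) (d2 N y) = -(L22 Y N y / √(q y)) := by
  have hs : √(q y) ≠ 0 := (Real.sqrt_pos.2 (codazzi_q_pos y)).ne'
  have e11 : L11 Y N y / √(q y) = inner ℝ (d1 (d1 Y) y) (N y) := by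
    unfold L11; field_simp
  have e12 : L12 Y N y / √(q y) = inner ℝ (d2 (d1 Y) y) (N y) := by
    unfold L12; field_simp
  have e22 : L22 Y N y / √(q y) = inner ℝ (d2 (d2 Y) y) (N y) := by
    unfold L22; field_simp
  rw [e11, e12, e22]
  refine ⟨?_, ?_, ?_, ?_, ?_, ?_⟩
  · have := codazzi_perp N N hN.smooth hN.smooth 1 hN.unit y (1, 0)
    rw [real_inner_comm (N y) (fderiv ℝ N y (1, 0))] at this
    unfold d1
    linarith
  · have := codazzi_perp N N hN.smooth hN.smooth 1 hN.unit y (0, 1)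
    rw [real_inner_comm (N y) (fderiv ℝ N y (0, 1))] at this
    unfold d2
    linarith
  · exact codazzi_perp N (d1 Y) hN.smooth (cd1 hY) 0 hN.perp1 y (1, 0)
  · exact codazzi_perp N (d1 Y) hN.smooth (cd1 hY) 0 hN.perp1 y (0, 1)
  · rw [← symm12 hY]
    exact codazzi_perp N (d2 Y) hN.smooth (cd2 hY) 0 hN.perp2 y (1, 0)
  · exact codazzi_perp N (d2 Y) hN.smooth (cd2 hY) 0 hN.perp2 y (0, 1)

/-- derivative of `√q • V` in direction 1 -/
theorem codazzi_d1 (V : ℝ × ℝ → E3) (hV : ContDiff ℝ 1 V) (y : ℝ × ℝ) :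
    d1 (fun z => √(q z) • V z) y = √(q y) • d1 V y + (y.1 / √(q y)) • V y := by
  unfold d1
  rw [codazzi_fderiv_smul V hV]
  simp

theorem codazzi_d2 (V : ℝ × ℝ → E3) (hV : ContDiff ℝ 1 V) (y : ℝ × ℝ) :
    d2 (fun z => √(q z) • V z) y = √(q y) • d2 V y + (y.2 / √(q y)) • V y := by
  unfold d2
  rw [codazzi_fderiv_smul V hV]
  simp

theorem codazzi_circ_neg (p r p' r' : ℝ × ℝ → ℝ) (hp : ∀ y, p' y = -p y) (hr : ∀ y, r' y = -r y)
    (x0 x1 y0 y1 : ℝ) : circ p' r' x0 x1 y0 y1 = - circ p r x0 x1 y0 y1 := by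
  unfold circ
  simp only [hp, hr, intervalIntegral.integral_neg]
  ring

theorem codazzi1 {Y N : ℝ × ℝ → E3} (hY : Hemi Y) (hN : Frame Y N) (x0 x1 y0 y1 : ℝ) :
    circ (L11 Y N) (L12 Y N) x0 x1 y0 y1 = 0 := by
  have hA : ContDiff ℝ 1 (fun z => √(q z) • d1 Y z) := codazzi_sqrt_smooth.smul (cd1 hY)
  have h := green _ N hA hN.smooth x0 x1 y0 y1
  have h0 : ∀ y, inner ℝ (d1 (fun z => √(q z) • d1 Y z) y) (d2 N y)
      - inner ℝ (d2 (fun z => √(q z) • d1 Y z) y) (d1 N y) = 0 := by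
    intro y
    obtain ⟨n1, n2, a11, a12, a21, a22⟩ := codazzi_data hY hN y
    have hs : √(q y) ≠ 0 := (Real.sqrt_pos.2 (codazzi_q_pos y)).ne'
    have hq : √(q y) ^ 2 = q y := Real.sq_sqrt (codazzi_q_pos y).le
    have hq0 : q y ≠ 0 := (codazzi_q_pos y).ne'
    rw [codazzi_d1 _ (cd1 hY), codazzi_d2 _ (cd1 hY), gform11 hY hN, gform12 hY hN]
    simp only [inner_add_left, inner_smul_left, n1, n2, a11, a12, a21, RCLike.conj_to_real]
    generalize √(q y) = t at hs hq ⊢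
    rw [← hq]
    field_simp
    ring
  have hp : ∀ y, inner ℝ (√(q y) • d1 Y y) (d1 N y) = - L11 Y N y := by
    intro y
    obtain ⟨n1, n2, a11, a12, a21, a22⟩ := codazzi_data hY hN y
    have hs : √(q y) ≠ 0 := (Real.sqrt_pos.2 (codazzi_q_pos y)).ne'
    rw [inner_smul_left, a11, RCLike.conj_to_real]
    field_simp
  have hr : ∀ y, inner ℝ (√(q y) • d1 Y y) (d2 N y) = - L12 Y N y := by
    intro y
    obtain ⟨n1, n2, a11, a12, a21, a22⟩ := codazzi_data hY hN y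
    have hs : √(q y) ≠ 0 := (Real.sqrt_pos.2 (codazzi_q_pos y)).ne'
    rw [inner_smul_left, a12, RCLike.conj_to_real]
    field_simp
  rw [codazzi_circ_neg (L11 Y N) (L12 Y N) _ _ hp hr] at h
  simp only [h0, intervalIntegral.integral_zero] at h
  linarith

theorem codazzi2 {Y N : ℝ × ℝ → E3} (hY : Hemi Y) (hN : Frame Y N) (x0 x1 y0 y1 : ℝ) :
    circ (L12 Y N) (L22 Y N) x0 x1 y0 y1 = 0 := by
  have hA : ContDiff ℝ 1 (fun z => √(q z) • d2 Y z) := codazzi_sqrt_smooth.smul (cd2 hY)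
  have h := green _ N hA hN.smooth x0 x1 y0 y1
  have h0 : ∀ y, inner ℝ (d1 (fun z => √(q z) • d2 Y z) y) (d2 N y)
      - inner ℝ (d2 (fun z => √(q z) • d2 Y z) y) (d1 N y) = 0 := by
    intro y
    obtain ⟨n1, n2, a11, a12, a21, a22⟩ := codazzi_data hY hN y
    have hs : √(q y) ≠ 0 := (Real.sqrt_pos.2 (codazzi_q_pos y)).ne'
    have hq : √(q y) ^ 2 = q y := Real.sq_sqrt (codazzi_q_pos y).le
    have hq0 : q y ≠ 0 := (codazzi_q_pos y).ne'
    rw [codazzi_d1 _ (cd2 hY), codazzi_d2 _ (cd2 hY), symm12 hY, gform12 hY hN, gform22 hY hN]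
    simp only [inner_add_left, inner_smul_left, n1, n2, a12, a21, a22, RCLike.conj_to_real]
    generalize √(q y) = t at hs hq ⊢
    rw [← hq]
    field_simp
    ring
  have hp : ∀ y, inner ℝ (√(q y) • d2 Y y) (d1 N y) = - L12 Y N y := by
    intro y
    obtain ⟨n1, n2, a11, a12, a21, a22⟩ := codazzi_data hY hN y
    have hs : √(q y) ≠ 0 := (Real.sqrt_pos.2 (codazzi_q_pos y)).ne'
    rw [inner_smul_left, a21, RCLike.conj_to_real]
    field_simp
  have hr : ∀ y, inner ℝ (√(q y) • d2 Y y) (d2 N y) = - L22 Y N y := by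
    intro y
    obtain ⟨n1, n2, a11, a12, a21, a22⟩ := codazzi_data hY hN y
    have hs : √(q y) ≠ 0 := (Real.sqrt_pos.2 (codazzi_q_pos y)).ne'
    rw [inner_smul_left, a22, RCLike.conj_to_real]
    field_simp
  rw [codazzi_circ_neg (L12 Y N) (L22 Y N) _ _ hp hr] at h
  simp only [h0, intervalIntegral.integral_zero] at h
  linarith

end Pool.Agent.Helper46.Cone
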