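import Pool.Agent.Helper46.Cone.Defs

/-!
# GNOM: gnomonic coordinates
-/

set_option autoImplicit false

open MeasureTheory Filter Topology

noncomputable section

namespace Pool.Agent.Helper46.Cone

private theorem gnom_q_pos (y : ℝ × ℝ) : 0 < q y := by
  unfold q; positivity

private theorem gnom_norm_eta_sq (y : ℝ × ℝ) :
    ‖eta y‖ ^ 2 = (√(q y) - 1) / (√(q y) + 1) := by
  have hq := gnom_q_pos y
  have hs : 0 < √(q y) := Real.sqrt_pos.2 hq
  have hs2 : √(q y) ^ 2 = q y := Real.sq_sqrt hq.le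
  have h1 : ‖((y.1 : ℂ) + (y.2 : ℂ) * Complex.I)‖ ^ 2 = y.1 ^ 2 + y.2 ^ 2 := by
    rw [← Complex.normSq_eq_norm_sq, Complex.normSq_add_mul_I]
  unfold eta
  rw [norm_mul, mul_pow, h1, Complex.norm_real, Real.norm_eq_abs, sq_abs]
  have h2 : y.1 ^ 2 + y.2 ^ 2 = √(q y) ^ 2 - 1 := by rw [hs2]; unfold q; ring
  rw [h2]
  have h3 : √(q y) + 1 ≠ 0 := by positivity
  have h4 : 1 + √(q y) ≠ 0 := by positivity
  field_simp
  ring

private theorem gnom_eta_mem (y : ℝ × ℝ) : eta y ∈ Metric.ball (0 : ℂ) 1 := by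
  rw [mem_ball_zero_iff]
  have h := gnom_norm_eta_sq y
  have hs : 0 < √(q y) := Real.sqrt_pos.2 (gnom_q_pos y)
  have h1 : ‖eta y‖ ^ 2 < 1 := by
    rw [h, div_lt_one (by positivity)]
    linarith
  nlinarith [norm_nonneg (eta y)]

private theorem gnom_eta_contDiff (y : ℝ × ℝ) : ContDiffAt ℝ 2 eta y := by
  have hq : ContDiffAt ℝ 2 q y := by
    unfold q; fun_prop
  have hs : ContDiffAt ℝ 2 (fun y => √(q y)) y := hq.sqrt (gnom_q_pos y).ne'
  have hr : ContDiffAt ℝ 2 (fun y => 1 / (1 + √(q y))) y :=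
    contDiffAt_const.div (contDiffAt_const.add hs) (by
      have := Real.sqrt_nonneg (q y); positivity)
  have hc : ∀ g : ℝ × ℝ → ℝ, ContDiffAt ℝ 2 g y → ContDiffAt ℝ 2 (fun y => (g y : ℂ)) y :=
    fun g hg => Complex.ofRealCLM.contDiff.contDiffAt.comp y hg
  exact (hc _ hr).mul ((hc _ contDiffAt_fst).add ((hc _ contDiffAt_snd).mul contDiffAt_const))

private theorem gnom_deriv (y a : ℝ × ℝ) :
    ‖fderiv ℝ eta y a‖ ^ 2 = ((a.1 ^ 2 + a.2 ^ 2) - (y.1 * a.1 + y.2 * a.2) ^ 2 / q y)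
      / (1 + √(q y)) ^ 2 := by
  have hq := gnom_q_pos y
  have hs : 0 < √(q y) := Real.sqrt_pos.2 hq
  have hs2 : √(q y) ^ 2 = q y := Real.sq_sqrt hq.le
  set s := √(q y) with hsd
  -- the curve
  have hline : HasDerivAt (fun t : ℝ => y + t • a) a 0 := by
    simpa using ((hasDerivAt_id (0 : ℝ)).smul_const a).const_add y
  have h0 : y + (0 : ℝ) • a = y := by simp
  have hE : HasFDerivAt eta (fderiv ℝ eta y) (y + (0 : ℝ) • a) := by
    rw [h0]
    exact ((gnom_eta_contDiff y).differentiableAt (by norm_num)).hasFDerivAt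
  have h1 : HasDerivAt (fun t : ℝ => eta (y + t • a)) (fderiv ℝ eta y a) 0 :=
    HasFDerivAt.comp_hasDerivAt (f := fun t : ℝ => y + t • a) (0 : ℝ) hE hline
  have e1 : HasDerivAt (fun t : ℝ => y.1 + t * a.1) a.1 0 := by
    simpa using ((hasDerivAt_id (0 : ℝ)).mul_const a.1).const_add y.1
  have e2 : HasDerivAt (fun t : ℝ => y.2 + t * a.2) a.2 0 := by
    simpa using ((hasDerivAt_id (0 : ℝ)).mul_const a.2).const_add y.2
  have eq : HasDerivAt (fun t : ℝ => 1 + (y.1 + t * a.1) ^ 2 + (y.2 + t * a.2) ^ 2)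
      (2 * y.1 * a.1 + 2 * y.2 * a.2) 0 := by
    have := ((e1.pow 2).const_add 1).add (e2.pow 2)
    refine this.congr_deriv ?_
    simp
  have hq0 : 1 + (y.1 + 0 * a.1) ^ 2 + (y.2 + 0 * a.2) ^ 2 = q y := by unfold q; ring
  have es : HasDerivAt (fun t : ℝ => √(1 + (y.1 + t * a.1) ^ 2 + (y.2 + t * a.2) ^ 2))
      ((2 * y.1 * a.1 + 2 * y.2 * a.2) / (2 * s)) 0 := by
    have := eq.sqrt (by rw [hq0]; exact hq.ne')
    rwa [hq0] at this
  have er : HasDerivAt (fun t : ℝ => 1 / (1 + √(1 + (y.1 + t * a.1) ^ 2 + (y.2 + t * a.2) ^ 2)))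
      (-((2 * y.1 * a.1 + 2 * y.2 * a.2) / (2 * s)) / (1 + s) ^ 2) 0 := by
    have h2 := (es.const_add 1).inv (by
      rw [hq0]; positivity)
    rw [hq0, ← hsd] at h2
    have hfe : (fun t : ℝ => 1 / (1 + √(1 + (y.1 + t * a.1) ^ 2 + (y.2 + t * a.2) ^ 2))) =
        (fun t : ℝ => 1 + √(1 + (y.1 + t * a.1) ^ 2 + (y.2 + t * a.2) ^ 2))⁻¹ := by
      funext t
      simp [one_div]
    rw [hfe]
    exact h2
  have ec := er.ofReal_comp.mul (e1.ofReal_comp.add ((e2.ofReal_comp).mul_const Complex.I))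
  have hfun : (fun t : ℝ => eta (y + t • a)) = fun t : ℝ =>
      ((1 / (1 + √(1 + (y.1 + t * a.1) ^ 2 + (y.2 + t * a.2) ^ 2)) : ℝ) : ℂ) *
        (((y.1 + t * a.1 : ℝ) : ℂ) + ((y.2 + t * a.2 : ℝ) : ℂ) * Complex.I) := by
    funext t
    simp [eta, q]
  rw [hfun] at h1
  have huniq : fderiv ℝ eta y a =
      ((-((2 * y.1 * a.1 + 2 * y.2 * a.2) / (2 * s)) / (1 + s) ^ 2 : ℝ) : ℂ)
        * ((y.1 : ℂ) + (y.2 : ℂ) * Complex.I)
      + ((1 / (1 + s) : ℝ) : ℂ) * ((a.1 : ℂ) + (a.2 : ℂ) * Complex.I) := by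
    have h2 := h1.unique ec
    rw [hq0, ← hsd] at h2
    rw [h2]
    simp
  rw [huniq]
  have hnorm : ∀ r u c d : ℝ, ‖(u : ℂ) * ((y.1 : ℂ) + (y.2 : ℂ) * Complex.I)
      + (r : ℂ) * ((c : ℂ) + (d : ℂ) * Complex.I)‖ ^ 2
      = (u * y.1 + r * c) ^ 2 + (u * y.2 + r * d) ^ 2 := by
    intro r u c d
    have : (u : ℂ) * ((y.1 : ℂ) + (y.2 : ℂ) * Complex.I)
      + (r : ℂ) * ((c : ℂ) + (d : ℂ) * Complex.I)
      = ((u * y.1 + r * c : ℝ) : ℂ) + ((u * y.2 + r * d : ℝ) : ℂ) * Complex.I := by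
      push_cast; ring
    rw [this, ← Complex.normSq_eq_norm_sq, Complex.normSq_add_mul_I]
  rw [hnorm]
  have hy2 : y.1 ^ 2 + y.2 ^ 2 = s ^ 2 - 1 := by rw [hs2]; unfold q; ring
  rw [← hs2]
  clear_value s
  have h1s : 1 + s ≠ 0 := by positivity
  have hu : -((2 * y.1 * a.1 + 2 * y.2 * a.2) / (2 * s)) / (1 + s) ^ 2
      = -(y.1 * a.1 + y.2 * a.2) / (s * (1 + s) ^ 2) := by field_simp
  rw [hu]
  set D := y.1 * a.1 + y.2 * a.2 with hD
  set u := -D / (s * (1 + s) ^ 2) with hud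
  have h2 : (u * y.1 + 1 / (1 + s) * a.1) ^ 2 + (u * y.2 + 1 / (1 + s) * a.2) ^ 2
      = u ^ 2 * (s ^ 2 - 1) + 2 * u * (1 / (1 + s)) * D + (1 / (1 + s)) ^ 2 * (a.1 ^ 2 + a.2 ^ 2) := by
    rw [hD]
    linear_combination u ^ 2 * hy2
  rw [h2, hud]
  clear_value D
  field_simp
  ring

theorem gnom (P : ℂ → E3) (hP : ContDiffOn ℝ 2 P (Metric.ball 0 1))
    (hm : ∀ η ∈ Metric.ball (0 : ℂ) 1, ∀ v : ℂ, ‖fderiv ℝ P η v‖ = 2 / (1 + ‖η‖ ^ 2) * ‖v‖) :
    Hemi (fun y => P (eta y)) := by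
  have hPat : ∀ y, ContDiffAt ℝ 2 P (eta y) := fun y =>
    hP.contDiffAt (Metric.isOpen_ball.mem_nhds (gnom_eta_mem y))
  refine ⟨?_, ?_⟩
  · rw [contDiff_iff_contDiffAt]
    intro y
    exact (hPat y).comp y (gnom_eta_contDiff y)
  · intro y a
    have hd : fderiv ℝ (fun y => P (eta y)) y = (fderiv ℝ P (eta y)).comp (fderiv ℝ eta y) :=
      fderiv_comp y ((hPat y).differentiableAt (by norm_num))
        ((gnom_eta_contDiff y).differentiableAt (by norm_num))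
    rw [hd, ContinuousLinearMap.comp_apply, hm _ (gnom_eta_mem y), mul_pow, gnom_deriv,
      gnom_norm_eta_sq]
    have hq := gnom_q_pos y
    have hs : 0 < √(q y) := Real.sqrt_pos.2 hq
    have hs2 : √(q y) ^ 2 = q y := Real.sq_sqrt hq.le
    generalize √(q y) = s at *
    rw [← hs2]
    have h1 : s + 1 ≠ 0 := by positivity
    have h2 : 1 + s ≠ 0 := by positivity
    have h3 : (1 + (s - 1) / (s + 1)) = 2 * s / (s + 1) := by field_simp; ring
    rw [h3]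
    field_simp
    ring

end Pool.Agent.Helper46.Cone
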