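import Pool.Agent.Helper46.Cone.Defs

/-!
# Module PULL: the pull-back of the immersion to the unit disc
-/

set_option autoImplicit false

open MeasureTheory Filter Topology

noncomputable section

namespace Pool.Agent.Helper46.Cone

namespace Pull

theorem slit {n : ℕ} (hn : 2 ≤ n) {η : ℂ} (hη : ‖η‖ < 1) : 1 - η ^ n ∈ Complex.slitPlane := by
  rw [Complex.mem_slitPlane_iff]
  left
  have h1 : ‖η ^ n‖ < 1 := by
    rw [norm_pow]; exact pow_lt_one₀ (norm_nonneg _) hη (by omega)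
  have h2 := Complex.re_le_norm (η ^ n)
  simp only [Complex.sub_re, Complex.one_re]
  linarith

theorem ne {n : ℕ} (hn : 2 ≤ n) {η : ℂ} (hη : ‖η‖ < 1) : 1 - η ^ n ≠ 0 :=
  Complex.slitPlane_ne_zero (slit hn hη)

/-- `ζ` is holomorphic in the disc -/
theorem zeta_diff {n : ℕ} (hn : 2 ≤ n) {η : ℂ} (hη : ‖η‖ < 1) :
    DifferentiableAt ℂ (zeta n) η := by
  unfold zeta
  refine differentiableAt_id.mul ?_
  refine DifferentiableAt.cpow ?_ (differentiableAt_const _) (slit hn hη)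
  exact (differentiableAt_const _).sub (differentiableAt_pow n)

theorem zeta_pow {n : ℕ} (hn : 2 ≤ n) {η : ℂ} (_hη : ‖η‖ < 1) :
    zeta n η ^ n = η ^ n / (1 - η ^ n) := by
  have hn0 : (n : ℂ) ≠ 0 := by
    have : n ≠ 0 := by omega
    exact_mod_cast this
  unfold zeta
  have : (n : ℂ) * -(1 / (n : ℂ)) = -1 := by field_simp
  rw [mul_pow, ← Complex.cpow_nat_mul, this, Complex.cpow_neg_one, div_eq_mul_inv]

theorem zeta_ne {n : ℕ} (hn : 2 ≤ n) {η : ℂ} (hη : ‖η‖ < 1) (h0 : η ≠ 0) : zeta n η ≠ 0 := by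
  intro h
  have h1 := zeta_pow hn hη
  rw [h, zero_pow (by omega)] at h1
  have h2 : η ^ n / (1 - η ^ n) ≠ 0 := div_ne_zero (pow_ne_zero _ h0) (ne hn hη)
  exact h2 h1.symm

theorem zeta_zero (n : ℕ) : zeta n 0 = 0 := by simp [zeta]

/-- `z = 1/ζ` -/
def zz (n : ℕ) (η : ℂ) : ℂ := (zeta n η)⁻¹

theorem zz_pow {n : ℕ} (hn : 2 ≤ n) {η : ℂ} (hη : ‖η‖ < 1) (h0 : η ≠ 0) :
    zz n η ^ n = (η ^ n)⁻¹ - 1 := by
  unfold zz
  rw [inv_pow, zeta_pow hn hη, inv_div, sub_div, div_self (pow_ne_zero _ h0), one_div]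

theorem zz_ne {n : ℕ} (hn : 2 ≤ n) {η : ℂ} (hη : ‖η‖ < 1) (h0 : η ≠ 0) : zz n η ≠ 0 :=
  inv_ne_zero (zeta_ne hn hη h0)

theorem zz_diff {n : ℕ} (hn : 2 ≤ n) {η : ℂ} (hη : ‖η‖ < 1) (h0 : η ≠ 0) :
    DifferentiableAt ℂ (zz n) η := (zeta_diff hn hη).inv (zeta_ne hn hη h0)

theorem zz_notMem {n : ℕ} (hn : 2 ≤ n) {η : ℂ} (hη : ‖η‖ < 1) (h0 : η ≠ 0) :
    zz n η ∉ S n := by
  unfold S
  rw [Finset.mem_insert, Multiset.mem_toFinset, Polynomial.mem_nthRoots (by omega)]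
  rintro (h | h)
  · exact zz_ne hn hη h0 h
  · rw [zz_pow hn hη h0] at h
    have : (η ^ n)⁻¹ = 0 := by linear_combination h
    exact inv_ne_zero (pow_ne_zero _ h0) this

/-- the norm of the derivative of `z` -/
theorem zz_deriv {n : ℕ} (hn : 2 ≤ n) {η : ℂ} (hη : ‖η‖ < 1) (h0 : η ≠ 0) :
    ‖zz n η‖ ^ (n - 1) * ‖deriv (zz n) η‖ = ‖η‖ ^ (n - 1) / (‖η‖ ^ n) ^ 2 := by
  have h1 : HasDerivAt (fun w => zz n w ^ n) ((n : ℂ) * zz n η ^ (n - 1) * deriv (zz n) η) η :=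
    ((zz_diff hn hη h0).hasDerivAt).pow n
  have h2 : HasDerivAt (fun w : ℂ => (w ^ n)⁻¹ - 1) (-((n : ℂ) * η ^ (n - 1)) / (η ^ n) ^ 2) η :=
    ((hasDerivAt_pow n η).inv (pow_ne_zero _ h0)).sub_const 1
  have h3 : (fun w => zz n w ^ n) =ᶠ[𝓝 η] fun w : ℂ => (w ^ n)⁻¹ - 1 := by
    have hb : ∀ᶠ w in 𝓝 η, ‖w‖ < 1 := continuous_norm.continuousAt.eventually_lt
      continuousAt_const hη
    have h0' : ∀ᶠ w in 𝓝 η, w ≠ 0 := isOpen_ne.mem_nhds h0
    filter_upwards [hb, h0'] with w hw hw0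
    exact zz_pow hn hw hw0
  have h4 := h1.unique (h2.congr_of_eventuallyEq h3)
  have h5 := congrArg norm h4
  have hn0 : (n : ℝ) ≠ 0 := by
    have : n ≠ 0 := by omega
    exact_mod_cast this
  simp only [norm_mul, norm_div, norm_neg, norm_pow, Complex.norm_natCast] at h5
  rw [mul_assoc, mul_div_assoc] at h5
  exact mul_left_cancel₀ hn0 h5

theorem exp_U {n : ℕ} (hn : 2 ≤ n) {η : ℂ} (hη : ‖η‖ < 1) (h0 : η ≠ 0) :
    Real.exp (U n (zz n η)) * ‖deriv (zz n) η‖ = 2 / (1 + ‖η‖ ^ 2) := by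
  have hz := zz_ne hn hη h0
  have ha : 0 < ‖η‖ := norm_pos_iff.2 h0
  have hb : 0 < ‖zz n η‖ := norm_pos_iff.2 hz
  have hn0 : (n : ℝ) ≠ 0 := by
    have : n ≠ 0 := by omega
    exact_mod_cast this
  have h1 : Real.log ‖1 + zz n η ^ n‖ = -(n * Real.log ‖η‖) := by
    rw [zz_pow hn hη h0]
    have : 1 + ((η ^ n)⁻¹ - 1) = (η ^ n)⁻¹ := by ring
    rw [this, norm_inv, norm_pow, Real.log_inv, Real.log_pow]
  have h2 : Real.exp (2 / (n : ℝ) * Real.log ‖1 + zz n η ^ n‖) = (‖η‖ ^ 2)⁻¹ := by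
    rw [h1]
    have : 2 / (n : ℝ) * -(n * Real.log ‖η‖) = -Real.log (‖η‖ ^ 2) := by
      rw [Real.log_pow]; push_cast; field_simp
    rw [this, Real.exp_neg, Real.exp_log (by positivity)]
  have h3 : Real.exp ((1 / (n : ℝ) - 1) * Real.log ‖1 + zz n η ^ n‖) = ‖η‖ ^ (n - 1) := by
    rw [h1]
    have : (1 / (n : ℝ) - 1) * -(n * Real.log ‖η‖) = Real.log (‖η‖ ^ (n - 1)) := by
      rw [Real.log_pow, Nat.cast_sub (by omega)]; push_cast; field_simp; ring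
    rw [this, Real.exp_log (by positivity)]
  have h4 : Real.exp (((n : ℝ) - 1) * Real.log ‖zz n η‖) = ‖zz n η‖ ^ (n - 1) := by
    have : ((n : ℝ) - 1) * Real.log ‖zz n η‖ = Real.log (‖zz n η‖ ^ (n - 1)) := by
      rw [Real.log_pow, Nat.cast_sub (by omega)]; push_cast; ring
    rw [this, Real.exp_log (by positivity)]
  have h5 := zz_deriv hn hη h0
  unfold U
  rw [Real.exp_sub, Real.exp_add, Real.exp_add, Real.exp_log (by norm_num), h4, h3, h2,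
    Real.exp_log (by positivity)]
  have h6 : 2 * ‖zz n η‖ ^ (n - 1) * ‖η‖ ^ (n - 1) / (1 + (‖η‖ ^ 2)⁻¹) * ‖deriv (zz n) η‖ =
      2 * ‖η‖ ^ (n - 1) / (1 + (‖η‖ ^ 2)⁻¹) * (‖zz n η‖ ^ (n - 1) * ‖deriv (zz n) η‖) := by
    ring
  rw [h6, h5]
  have h7 : ‖η‖ ^ n = ‖η‖ ^ (n - 1) * ‖η‖ := by
    rw [← pow_succ]; congr 1; omega
  rw [h7]
  have h8 : 0 < ‖η‖ ^ (n - 1) := by positivity
  field_simp
  ring

end Pull

open Pull

theorem pull (n : ℕ) (hn : 2 ≤ n) (f : ℂ → E3)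
    (hf : ContDiffOn ℝ 2 f (↑(S n) : Set ℂ)ᶜ)
    (hm : ∀ z ∉ S n, ∀ v : ℂ, ‖fderiv ℝ f z v‖ = Real.exp (U n z) * ‖v‖)
    (hg : ∃ r : ℝ, 0 < r ∧ ∃ g : ℂ → E3, ContDiffOn ℝ 2 g (Metric.ball (0 : ℂ) r) ∧
          ∀ w ∈ Metric.ball (0 : ℂ) r, w ≠ 0 → g w = f w⁻¹) :
    ∃ P : ℂ → E3, ContDiffOn ℝ 2 P (Metric.ball 0 1) ∧
      (∀ η ∈ Metric.ball (0 : ℂ) 1, ∀ v : ℂ, ‖fderiv ℝ P η v‖ = 2 / (1 + ‖η‖ ^ 2) * ‖v‖) ∧
      (∀ η ∈ Metric.ball (0 : ℂ) 1, η ≠ 0 → P η = f (zeta n η)⁻¹) := by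
  classical
  obtain ⟨r, hr, g, hg, hgf⟩ := hg
  set P : ℂ → E3 := fun η => if η = 0 then g 0 else f (zz n η) with hP
  have hS : IsOpen ((↑(S n) : Set ℂ)ᶜ) := (S n).finite_toSet.isClosed.isOpen_compl
  have hball : ∀ η : ℂ, η ∈ Metric.ball (0 : ℂ) 1 → ‖η‖ < 1 := by
    intro η hη; simpa using hη
  -- local forms of `P`
  have loc1 : ∀ η : ℂ, ‖η‖ < 1 → η ≠ 0 → P =ᶠ[𝓝 η] (f ∘ zz n) := by
    intro η hη h0
    filter_upwards [isOpen_ne.mem_nhds h0] with w hw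
    simp only [hP, if_neg (show w ≠ 0 from hw), Function.comp]
  have hz0 : ContinuousAt (zeta n) 0 := (zeta_diff hn (by simp)).continuousAt
  have loc0 : P =ᶠ[𝓝 0] (g ∘ zeta n) := by
    have h1 : ∀ᶠ w in 𝓝 (0 : ℂ), zeta n w ∈ Metric.ball (0 : ℂ) r := by
      apply hz0
      rw [zeta_zero]
      exact Metric.ball_mem_nhds 0 hr
    have h2 : ∀ᶠ w in 𝓝 (0 : ℂ), ‖w‖ < 1 := by
      have := Metric.ball_mem_nhds (0 : ℂ) one_pos
      filter_upwards [this] with w hw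
      exact hball w hw
    filter_upwards [h1, h2] with w hw hw1
    by_cases h0 : w = 0
    · simp only [hP, h0, if_true, Function.comp, zeta_zero]
    · simp only [hP, if_neg h0, Function.comp]
      exact (hgf _ hw (zeta_ne hn hw1 h0)).symm
  -- regularity
  have an : ∀ h : ℂ → ℂ, ∀ η : ℂ, (∀ᶠ w in 𝓝 η, DifferentiableAt ℂ h w) → ContDiffAt ℝ 2 h η := by
    intro h η hd
    have : AnalyticAt ℂ h η := Complex.analyticAt_iff_eventually_differentiableAt.2 hd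
    exact (this.contDiffAt (n := 2)).restrict_scalars ℝ
  have hlt : ∀ η : ℂ, ‖η‖ < 1 → ∀ᶠ w in 𝓝 η, ‖w‖ < 1 := fun η hη =>
    continuous_norm.continuousAt.eventually_lt continuousAt_const hη
  have cz : ∀ η : ℂ, ‖η‖ < 1 → ContDiffAt ℝ 2 (zeta n) η := by
    intro η hη
    apply an
    filter_upwards [hlt η hη] with w hw
    exact zeta_diff hn hw
  have czz : ∀ η : ℂ, ‖η‖ < 1 → η ≠ 0 → ContDiffAt ℝ 2 (zz n) η := by
    intro η hη h0
    apply an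
    filter_upwards [hlt η hη, isOpen_ne.mem_nhds h0] with w hw hw0
    exact zz_diff hn hw hw0
  have hfc : ∀ η : ℂ, ‖η‖ < 1 → η ≠ 0 → ContDiffAt ℝ 2 f (zz n η) := by
    intro η hη h0
    refine hf.contDiffAt (hS.mem_nhds ?_)
    exact zz_notMem hn hη h0
  have hPc : ∀ η : ℂ, ‖η‖ < 1 → ContDiffAt ℝ 2 P η := by
    intro η hη
    by_cases h0 : η = 0
    · subst h0
      refine ContDiffAt.congr_of_eventuallyEq ?_ loc0
      refine ContDiffAt.comp 0 ?_ (cz 0 hη)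
      rw [zeta_zero]
      exact hg.contDiffAt (Metric.ball_mem_nhds 0 hr)
    · refine ContDiffAt.congr_of_eventuallyEq ?_ (loc1 η hη h0)
      exact ContDiffAt.comp η (hfc η hη h0) (czz η hη h0)
  -- the metric off 0
  have hm1 : ∀ η : ℂ, ‖η‖ < 1 → η ≠ 0 → ∀ v : ℂ,
      ‖fderiv ℝ P η v‖ = 2 / (1 + ‖η‖ ^ 2) * ‖v‖ := by
    intro η hη h0 v
    have hd : HasFDerivAt (zz n) ((ContinuousLinearMap.toSpanSingleton ℂ
        (deriv (zz n) η)).restrictScalars ℝ) η := by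
      have := ((zz_diff hn hη h0).hasDerivAt).hasFDerivAt
      exact this.restrictScalars ℝ
    have hfd : HasFDerivAt f (fderiv ℝ f (zz n η)) (zz n η) :=
      ((hfc η hη h0).differentiableAt (by norm_num)).hasFDerivAt
    have hc := (hfd.comp η hd).congr_of_eventuallyEq (loc1 η hη h0)
    rw [hc.fderiv]
    simp only [ContinuousLinearMap.coe_comp, Function.comp,
      ContinuousLinearMap.coe_restrictScalars', ContinuousLinearMap.toSpanSingleton_apply,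
      smul_eq_mul]
    rw [hm _ (zz_notMem hn hη h0), norm_mul, ← exp_U hn hη h0]
    ring
  refine ⟨P, ?_, ?_, ?_⟩
  · intro η hη
    exact (hPc η (hball η hη)).contDiffWithinAt
  · intro η hη v
    by_cases h0 : η = 0
    · subst h0
      have hc1 : ContinuousAt (fderiv ℝ P) 0 := by
        have := (hPc 0 (by simp)).fderiv_right (m := 1) (by norm_num)
        exact this.continuousAt
      have hc2 : ContinuousAt (fun η : ℂ => ‖fderiv ℝ P η v‖ - 2 / (1 + ‖η‖ ^ 2) * ‖v‖) 0 := by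
        refine ContinuousAt.sub ?_ ?_
        · exact (hc1.clm_apply continuousAt_const).norm
        · refine ContinuousAt.mul ?_ continuousAt_const
          refine ContinuousAt.div continuousAt_const ?_ (by positivity)
          exact continuousAt_const.add (continuous_norm.continuousAt.pow 2)
      have h2 : (fun η : ℂ => ‖fderiv ℝ P η v‖ - 2 / (1 + ‖η‖ ^ 2) * ‖v‖) =ᶠ[𝓝[≠] 0]
          fun _ => (0 : ℝ) := by
        have hb : ∀ᶠ w in 𝓝[≠] (0 : ℂ), ‖w‖ < 1 := (hlt 0 (by simp)).filter_mono nhdsWithin_le_nhds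
        filter_upwards [hb, self_mem_nhdsWithin] with w hw hw0
        rw [hm1 w hw hw0 v, sub_self]
      have h3 : Tendsto (fun η : ℂ => ‖fderiv ℝ P η v‖ - 2 / (1 + ‖η‖ ^ 2) * ‖v‖) (𝓝[≠] 0)
          (𝓝 0) := tendsto_const_nhds.congr' h2.symm
      have h4 := tendsto_nhds_unique (hc2.tendsto.mono_left nhdsWithin_le_nhds) h3
      exact sub_eq_zero.1 h4
    · exact hm1 η (hball η hη) h0 v
  · intro η _ h0
    simp only [hP, if_neg h0]
    rfl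

end Pool.Agent.Helper46.Cone
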