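import Pool.Agent.Helper46.Cone.Defs

/-! Modules LIM0 and RAY. -/

set_option autoImplicit false

open MeasureTheory Filter Topology

noncomputable section

namespace Pool.Agent.Helper46.Cone

private theorem lim0_not_mem (n : ℕ) (hn : 2 ≤ n) (z : ℂ) (hz : ‖z‖ < 1 / 2) (hz0 : z ≠ 0) :
    z ∉ S n := by
  unfold S
  rw [Finset.mem_insert, Multiset.mem_toFinset, Polynomial.mem_nthRoots (by omega)]
  rintro (h | h)
  · exact hz0 h
  · have h1 : ‖z‖ ^ n = 1 := by rw [← norm_pow, h]; simp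
    have h2 : ‖z‖ ^ n < 1 := pow_lt_one₀ (norm_nonneg _) (by linarith) (by omega)
    linarith

private theorem lim0_exp (n : ℕ) (hn : 2 ≤ n) (z : ℂ) (hz : ‖z‖ < 1 / 2) (_hz0 : z ≠ 0) :
    Real.exp (U n z) ≤ 4 := by
  have hzn : ‖z ^ n‖ ≤ 1 / 4 := by
    rw [norm_pow]
    calc ‖z‖ ^ n ≤ (1 / 2) ^ n := pow_le_pow_left₀ (norm_nonneg _) hz.le n
      _ ≤ (1 / 2) ^ 2 := pow_le_pow_of_le_one (by norm_num) (by norm_num) hn
      _ = 1 / 4 := by norm_num
  have hlow : 3 / 4 ≤ ‖1 + z ^ n‖ := by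
    have := norm_sub_norm_le (1 : ℂ) (-(z ^ n))
    rw [norm_neg, sub_neg_eq_add, norm_one] at this
    linarith
  have hn' : (2 : ℝ) ≤ (n : ℝ) := by exact_mod_cast hn
  have hU : U n z ≤ Real.log 4 := by
    unfold U
    have e1 : ((n : ℝ) - 1) * Real.log ‖z‖ ≤ 0 := by
      apply mul_nonpos_of_nonneg_of_nonpos (by linarith)
      exact Real.log_nonpos (norm_nonneg _) (by linarith)
    have hc0 : -1 ≤ (1 / (n : ℝ) - 1) := by
      have : 0 ≤ 1 / (n : ℝ) := by positivity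
      linarith
    have hc1 : (1 / (n : ℝ) - 1) ≤ 0 := by
      have : 1 / (n : ℝ) ≤ 1 := by
        rw [div_le_one (by linarith)]; linarith
      linarith
    have hl : -Real.log 2 ≤ Real.log ‖1 + z ^ n‖ := by
      rw [← Real.log_inv]
      exact Real.log_le_log (by norm_num) (by linarith)
    have hl2 : 0 ≤ Real.log 2 := Real.log_nonneg (by norm_num)
    have e2 : (1 / (n : ℝ) - 1) * Real.log ‖1 + z ^ n‖ ≤ Real.log 2 := by
      nlinarith
    have e3 : 0 ≤ Real.log (1 + Real.exp (2 / (n : ℝ) * Real.log ‖1 + z ^ n‖)) := by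
      apply Real.log_nonneg
      have := Real.exp_pos (2 / (n : ℝ) * Real.log ‖1 + z ^ n‖)
      linarith
    have e4 : Real.log 4 = Real.log 2 + Real.log 2 := by
      rw [← Real.log_mul (by norm_num) (by norm_num)]; norm_num
    linarith
  calc Real.exp (U n z) ≤ Real.exp (Real.log 4) := Real.exp_le_exp.2 hU
    _ = 4 := Real.exp_log (by norm_num)

private theorem lim0_seg (n : ℕ) (hn : 2 ≤ n) (f : ℂ → E3)
    (hf : ContDiffOn ℝ 2 f (↑(S n) : Set ℂ)ᶜ)
    (hm : ∀ z ∉ S n, ∀ v : ℂ, ‖fderiv ℝ f z v‖ = Real.exp (U n z) * ‖v‖)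
    (z w : ℂ) (hz : ‖z‖ < 1 / 2) (hw : ‖w‖ < 1 / 2) (h0 : (0 : ℂ) ∉ segment ℝ z w) :
    ‖f w - f z‖ ≤ 4 * ‖w - z‖ := by
  have hsub : segment ℝ z w ⊆ Metric.ball (0 : ℂ) (1 / 2) :=
    (convex_ball (0 : ℂ) (1 / 2)).segment_subset (by simpa using hz) (by simpa using hw)
  have hx : ∀ x ∈ segment ℝ z w, x ∉ S n ∧ ‖x‖ < 1 / 2 ∧ x ≠ 0 := by
    intro x hx
    have h1 : ‖x‖ < 1 / 2 := by simpa using hsub hx
    have h2 : x ≠ 0 := fun h => h0 (h ▸ hx)
    exact ⟨lim0_not_mem n hn x h1 h2, h1, h2⟩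
  have hopen : IsOpen ((↑(S n) : Set ℂ)ᶜ) := (S n).finite_toSet.isClosed.isOpen_compl
  refine Convex.norm_image_sub_le_of_norm_fderiv_le (𝕜 := ℝ) (f := f) (C := 4)
    (s := segment ℝ z w) ?_ ?_ (convex_segment z w) (left_mem_segment ℝ z w)
    (right_mem_segment ℝ z w)
  · intro x hxs
    have hxS := (hx x hxs).1
    exact ((hf.contDiffAt (hopen.mem_nhds (by simpa using hxS))).differentiableAt (by norm_num))
  · intro x hxs
    obtain ⟨h1, h2, h3⟩ := hx x hxs
    refine ContinuousLinearMap.opNorm_le_bound _ (by norm_num) fun v => ?_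
    rw [hm x h1 v]
    exact mul_le_mul_of_nonneg_right (lim0_exp n hn x h2 h3) (norm_nonneg _)

private theorem lim0_dist (n : ℕ) (hn : 2 ≤ n) (f : ℂ → E3)
    (hf : ContDiffOn ℝ 2 f (↑(S n) : Set ℂ)ᶜ)
    (hm : ∀ z ∉ S n, ∀ v : ℂ, ‖fderiv ℝ f z v‖ = Real.exp (U n z) * ‖v‖)
    (δ : ℝ) (hδ : δ ≤ 1 / 2)
    (z w : ℂ) (hz : ‖z‖ < δ) (hw : ‖w‖ < δ) (hz0 : z ≠ 0) (hw0 : w ≠ 0) :
    ‖f w - f z‖ ≤ 16 * δ := by
  by_cases h0 : (0 : ℂ) ∈ segment ℝ z w
  · -- `w` is a negative multiple of `z`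
    have hIz : ‖Complex.I * z‖ = ‖z‖ := by simp
    have key : ∀ t : ℝ, 0 < t → ∀ x : ℂ, x = (t : ℂ) * z ∨ x = -((t : ℂ) * z) →
        (0 : ℂ) ∉ segment ℝ (Complex.I * z) x := by
      intro t ht x hx hmem
      obtain ⟨a, b, ha, hb, hab, he⟩ := hmem
      have hx' : ∃ s : ℝ, s ≠ 0 ∧ x = (s : ℂ) * z := by
        rcases hx with h | h
        · exact ⟨t, ht.ne', h⟩
        · exact ⟨-t, neg_ne_zero.2 ht.ne', by rw [h]; push_cast; ring⟩
      obtain ⟨s, hs, rfl⟩ := hx'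
      have h2 : ((a : ℂ) * Complex.I + (b : ℂ) * (s : ℂ)) * z = 0 := by
        rw [← he]
        simp only [Complex.real_smul]
        ring
      rcases mul_eq_zero.1 h2 with h | h
      · have hre := congrArg Complex.re h
        have him := congrArg Complex.im h
        simp at hre him
        rcases hre with h | h
        · subst h; subst him; norm_num at hab
        · exact hs h
      · exact hz0 h
    obtain ⟨a, b, ha, hb, hab, he⟩ := h0
    have hb0 : b ≠ 0 := by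
      rintro rfl
      rw [add_zero] at hab
      subst hab
      simp at he
      exact hz0 he
    have ha0 : a ≠ 0 := by
      rintro rfl
      rw [zero_add] at hab
      subst hab
      simp at he
      exact hw0 he
    have hbC : (b : ℂ) ≠ 0 := by exact_mod_cast hb0
    have hwz : w = -(((a / b : ℝ) : ℂ) * z) := by
      simp only [Complex.real_smul] at he
      push_cast
      field_simp
      linear_combination he
    have hap : 0 < a / b := by positivity
    have k1 := key 1 one_pos z (Or.inl (by simp))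
    have k2 := key (a / b) hap w (Or.inr hwz)
    have s1 := lim0_seg n hn f hf hm (Complex.I * z) z (by rw [hIz]; linarith) (by linarith) k1
    have s2 := lim0_seg n hn f hf hm (Complex.I * z) w (by rw [hIz]; linarith) (by linarith) k2
    have n1 : ‖z - Complex.I * z‖ ≤ 2 * δ := by
      calc ‖z - Complex.I * z‖ ≤ ‖z‖ + ‖Complex.I * z‖ := norm_sub_le _ _
        _ ≤ 2 * δ := by rw [hIz]; linarith
    have n2 : ‖w - Complex.I * z‖ ≤ 2 * δ := by
      calc ‖w - Complex.I * z‖ ≤ ‖w‖ + ‖Complex.I * z‖ := norm_sub_le _ _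
        _ ≤ 2 * δ := by rw [hIz]; linarith
    calc ‖f w - f z‖ = ‖(f w - f (Complex.I * z)) - (f z - f (Complex.I * z))‖ := by
          congr 1; abel
      _ ≤ ‖f w - f (Complex.I * z)‖ + ‖f z - f (Complex.I * z)‖ := norm_sub_le _ _
      _ ≤ 16 * δ := by linarith
  · have s1 := lim0_seg n hn f hf hm z w (by linarith) (by linarith) h0
    have n1 : ‖w - z‖ ≤ 2 * δ := by
      calc ‖w - z‖ ≤ ‖w‖ + ‖z‖ := norm_sub_le _ _
        _ ≤ 2 * δ := by linarith
    have : 0 < δ := lt_of_le_of_lt (norm_nonneg _) hz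
    linarith

/-! ### LIM0 -/
theorem lim0 (n : ℕ) (hn : 2 ≤ n) (f : ℂ → E3)
    (hf : ContDiffOn ℝ 2 f (↑(S n) : Set ℂ)ᶜ)
    (hm : ∀ z ∉ S n, ∀ v : ℂ, ‖fderiv ℝ f z v‖ = Real.exp (U n z) * ‖v‖) :
    ∃ c, Tendsto f (𝓝[≠] 0) (𝓝 c) := by
  have hc : Cauchy (map f (𝓝[≠] (0 : ℂ))) := by
    rw [Metric.cauchy_iff]
    refine ⟨inferInstance, fun ε hε => ?_⟩
    obtain ⟨δ, hδ0, hδ1, hδ2⟩ : ∃ δ : ℝ, 0 < δ ∧ δ ≤ 1 / 2 ∧ 16 * δ < ε :=
      ⟨min (1 / 2) (ε / 32), by positivity, min_le_left _ _, by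
        have := min_le_right (1 / 2 : ℝ) (ε / 32)
        linarith⟩
    refine ⟨f '' (Metric.ball (0 : ℂ) δ ∩ {0}ᶜ), ?_, ?_⟩
    · rw [mem_map]
      exact mem_of_superset (inter_mem (mem_nhdsWithin_of_mem_nhds (Metric.ball_mem_nhds _ hδ0))
        self_mem_nhdsWithin) (Set.subset_preimage_image _ _)
    · rintro _ ⟨z, ⟨hz, hz0⟩, rfl⟩ _ ⟨w, ⟨hw, hw0⟩, rfl⟩
      rw [dist_comm, dist_eq_norm]
      have := lim0_dist n hn f hf hm δ hδ1 z w (by simpa using hz) (by simpa using hw)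
        (by simpa using hz0) (by simpa using hw0)
      linarith
  exact cauchy_map_iff_exists_tendsto.1 hc

/-! ### RAY -/

/-- modulus of `eta` on the circle of radius `R` -/
private def rayRho (R : ℝ) : ℝ := R / (1 + √(1 + R ^ 2))

private theorem rayRho_pos {R : ℝ} (hR : 0 < R) : 0 < rayRho R := by
  unfold rayRho; positivity

private theorem rayRho_lt {R : ℝ} (hR : 0 < R) : rayRho R < 1 := by
  unfold rayRho
  rw [div_lt_one (by positivity)]
  have : R ≤ √(1 + R ^ 2) := Real.le_sqrt_of_sq_le (by linarith)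
  linarith

private theorem rayRho_tendsto : Tendsto rayRho atTop (𝓝 1) := by
  have h1 : Tendsto (fun R : ℝ => 1 - 2 / (R + 2)) atTop (𝓝 (1 - 0)) := by
    apply Tendsto.sub tendsto_const_nhds
    exact Tendsto.div_atTop tendsto_const_nhds (tendsto_atTop_add_const_right _ _ tendsto_id)
  rw [sub_zero] at h1
  refine tendsto_of_tendsto_of_tendsto_of_le_of_le' h1 tendsto_const_nhds ?_ ?_
  · filter_upwards [eventually_gt_atTop 0] with R hR
    unfold rayRho
    have h2 : √(1 + R ^ 2) ≤ 1 + R := Real.sqrt_le_iff.2 ⟨by linarith, by nlinarith⟩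
    have h3 : 1 - 2 / (R + 2) = R / (R + 2) := by field_simp; ring
    rw [h3]
    exact div_le_div_of_nonneg_left hR.le (by positivity) (by linarith)
  · filter_upwards [eventually_gt_atTop 0] with R hR
    exact (rayRho_lt hR).le

private theorem ray_eta (R θ : ℝ) :
    eta (R * Real.cos θ, R * Real.sin θ) = (rayRho R : ℂ) * Complex.exp (θ * Complex.I) := by
  unfold eta q rayRho
  have h : 1 + (R * Real.cos θ) ^ 2 + (R * Real.sin θ) ^ 2 = 1 + R ^ 2 := by
    have := Real.sin_sq_add_cos_sq θ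
    linear_combination R ^ 2 * this
  simp only [h]
  rw [Complex.exp_mul_I]
  push_cast
  ring

private theorem ray_pow (R : ℝ) (j : ℤ) :
    (eta (R * Real.cos (mark j), R * Real.sin (mark j))) ^ 100 = ((rayRho R ^ 100 : ℝ) : ℂ) := by
  rw [ray_eta, mul_pow, ← Complex.exp_nat_mul]
  have : ((100 : ℕ) : ℂ) * ((mark j : ℂ) * Complex.I) = (j : ℂ) * (2 * Real.pi * Complex.I) := by
    unfold mark
    push_cast
    ring
  rw [this, Complex.exp_int_mul_two_pi_mul_I]
  push_cast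
  ring

private theorem ray_norm (R : ℝ) (hR : 0 < R) (j : ℤ) :
    ‖eta (R * Real.cos (mark j), R * Real.sin (mark j))‖ = rayRho R := by
  rw [ray_eta, norm_mul, Complex.norm_exp_ofReal_mul_I, mul_one, Complex.norm_real,
    Real.norm_of_nonneg (rayRho_pos hR).le]

private theorem ray_zeta_norm (R : ℝ) (hR : 0 < R) (j : ℤ) :
    ‖(zeta 100 (eta (R * Real.cos (mark j), R * Real.sin (mark j))))⁻¹‖
      = (rayRho R)⁻¹ * (1 - rayRho R ^ 100) ^ (1 / 100 : ℝ) := by
  have hpos : 0 < 1 - rayRho R ^ 100 := by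
    have := pow_lt_one₀ (rayRho_pos hR).le (rayRho_lt hR) (n := 100) (by norm_num)
    linarith
  unfold zeta
  rw [norm_inv, norm_mul, ray_norm R hR j, ray_pow R j, mul_inv]
  congr 1
  rw [← Complex.ofReal_one, ← Complex.ofReal_sub]
  have : (-(((1 : ℝ) : ℂ) / ((100 : ℕ) : ℂ))) = ((-(1 / 100) : ℝ) : ℂ) := by push_cast; ring
  rw [this, Complex.norm_cpow_eq_rpow_re_of_pos hpos, Complex.ofReal_re, Real.rpow_neg hpos.le,
    inv_inv]

theorem ray (f P : ℂ → E3) (c : E3) (hc : Tendsto f (𝓝[≠] 0) (𝓝 c))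
    (hPf : ∀ η ∈ Metric.ball (0 : ℂ) 1, η ≠ 0 → P η = f (zeta 100 η)⁻¹) (j : ℤ) :
    Tendsto (fun R : ℝ => P (eta (R * Real.cos (mark j), R * Real.sin (mark j))))
      atTop (𝓝 c) := by
  have h1 : Tendsto (fun R : ℝ =>
      (zeta 100 (eta (R * Real.cos (mark j), R * Real.sin (mark j))))⁻¹) atTop (𝓝[≠] 0) := by
    rw [tendsto_nhdsWithin_iff]
    constructor
    · rw [tendsto_zero_iff_norm_tendsto_zero]
      have h2 : Tendsto (fun R : ℝ => (rayRho R)⁻¹ * (1 - rayRho R ^ 100) ^ (1 / 100 : ℝ)) atTop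
          (𝓝 ((1 : ℝ)⁻¹ * (1 - 1 ^ 100) ^ (1 / 100 : ℝ))) := by
        apply Tendsto.mul (rayRho_tendsto.inv₀ one_ne_zero)
        have h3 : Tendsto (fun R : ℝ => 1 - rayRho R ^ 100) atTop (𝓝 (1 - 1 ^ 100)) :=
          tendsto_const_nhds.sub (rayRho_tendsto.pow 100)
        exact h3.rpow_const (Or.inr (by norm_num))
      have h4 : ((1 : ℝ)⁻¹ * (1 - 1 ^ 100) ^ (1 / 100 : ℝ)) = 0 := by
        rw [one_pow, sub_self, Real.zero_rpow (by norm_num), mul_zero]
      rw [h4] at h2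
      refine h2.congr' ?_
      filter_upwards [eventually_gt_atTop 0] with R hR
      exact (ray_zeta_norm R hR j).symm
    · filter_upwards [eventually_gt_atTop 0] with R hR
      have hpos : 0 < 1 - rayRho R ^ 100 := by
        have := pow_lt_one₀ (rayRho_pos hR).le (rayRho_lt hR) (n := 100) (by norm_num)
        linarith
      have h5 := ray_zeta_norm R hR j
      have h6 : 0 < (rayRho R)⁻¹ * (1 - rayRho R ^ 100) ^ (1 / 100 : ℝ) :=
        mul_pos (inv_pos.2 (rayRho_pos hR)) (Real.rpow_pos_of_pos hpos _)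
      rw [← h5] at h6
      exact norm_pos_iff.1 h6
  refine (hc.comp h1).congr' ?_
  filter_upwards [eventually_gt_atTop 0] with R hR
  have hn := ray_norm R hR j
  symm
  apply hPf
  · rw [mem_ball_zero_iff, hn]
    exact rayRho_lt hR
  · rw [← norm_pos_iff, hn]
    exact rayRho_pos hR

end Pool.Agent.Helper46.Cone
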