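import Pool.Agent.Helper46.Cone.Defs

/-! Module UPDE: the Liouville equation for the function `U n` -/

set_option autoImplicit false

open MeasureTheory Filter Topology InnerProductSpace Laplacian

noncomputable section

namespace Pool.Agent.Helper46.Cone

/-- second derivative of a composition with a function of one variable -/
theorem upde_comp {h : ℂ → ℝ} {z : ℂ} (hh : ContDiffAt ℝ 2 h z) (φ φ' φ'' : ℝ → ℝ)
    (h1 : ∀ t, HasDerivAt φ (φ' t) t) (h2 : ∀ t, HasDerivAt φ' (φ'' t) t) (v : ℂ) :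
    iteratedFDeriv ℝ 2 (fun w => φ (h w)) z ![v, v] =
      φ'' (h z) * (fderiv ℝ h z v) ^ 2 + φ' (h z) * iteratedFDeriv ℝ 2 h z ![v, v] := by
  have e1 : fderiv ℝ (fun w => φ (h w)) =ᶠ[𝓝 z] fun w => φ' (h w) • fderiv ℝ h w := by
    have := hh.eventually (by simp)
    filter_upwards [this] with w hw
    have hd : HasFDerivAt h (fderiv ℝ h w) w := (hw.differentiableAt (by simp)).hasFDerivAt
    exact ((h1 (h w)).comp_hasFDerivAt w hd).fderiv
  have hd : HasFDerivAt h (fderiv ℝ h z) z := (hh.differentiableAt (by simp)).hasFDerivAt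
  have hd2 : HasFDerivAt (fderiv ℝ h) (fderiv ℝ (fderiv ℝ h) z) z :=
    ((hh.fderiv_right (m := 1) (by norm_num)).differentiableAt (by simp)).hasFDerivAt
  have hc : HasFDerivAt (fun w => φ' (h w)) (φ'' (h z) • fderiv ℝ h z) z :=
    (h2 (h z)).comp_hasFDerivAt z hd
  have e2 : fderiv ℝ (fun w => φ' (h w) • fderiv ℝ h w) z =
      φ' (h z) • fderiv ℝ (fderiv ℝ h) z + (φ'' (h z) • fderiv ℝ h z).smulRight (fderiv ℝ h z) :=
    (hc.smul hd2).fderiv
  rw [iteratedFDeriv_two_apply, iteratedFDeriv_two_apply, e1.fderiv_eq, e2]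
  simp
  ring

/-- derivative of `log ‖g‖` for a holomorphic function without zero -/
theorem upde_log {g : ℂ → ℂ} {g' z : ℂ} (hg : HasDerivAt g g' z) (h0 : g z ≠ 0) (v : ℂ) :
    fderiv ℝ (fun w => Real.log ‖g w‖) z v = (g' * v / g z).re := by
  have e : (fun w => Real.log ‖g w‖) = fun w => (1 / 2 : ℝ) * Real.log (‖g w‖ ^ 2) := by
    funext w
    rw [Real.log_pow]; push_cast; ring
  have hG : HasFDerivAt g ((ContinuousLinearMap.toSpanSingleton ℂ g').restrictScalars ℝ) z :=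
    hg.hasFDerivAt.restrictScalars ℝ
  have hn : ‖g z‖ ^ 2 ≠ 0 := pow_ne_zero _ (norm_ne_zero_iff.2 h0)
  have h1 := (hG.norm_sq.log hn).const_mul (1 / 2 : ℝ)
  rw [e, h1.fderiv]
  simp only [smul_apply, ContinuousLinearMap.comp_apply, smul_eq_mul,
    innerSL_apply_apply, ContinuousLinearMap.coe_restrictScalars',
    ContinuousLinearMap.toSpanSingleton_apply, nsmul_eq_mul, Complex.inner]
  rw [Complex.div_re, Complex.sq_norm]
  have hns : Complex.normSq (g z) ≠ 0 := by simpa using h0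
  simp
  field_simp
  ring

theorem upde_S {n : ℕ} (hn : 2 ≤ n) {z : ℂ} (hz : z ∉ S n) : z ≠ 0 ∧ 1 + z ^ n ≠ 0 := by
  simp only [S, Finset.mem_insert, Multiset.mem_toFinset, not_or] at hz
  refine ⟨hz.1, fun h => hz.2 ?_⟩
  rw [Polynomial.mem_nthRoots (by omega)]
  linear_combination h

theorem U_pde (n : ℕ) (hn : 2 ≤ n) : ∀ z ∉ S n, iteratedFDeriv ℝ 2 (U n) z ![(1 : ℂ), 1]
          + iteratedFDeriv ℝ 2 (U n) z ![Complex.I, Complex.I] = -Real.exp (2 * U n z) := by
  intro z hz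
  obtain ⟨hz0, hz1⟩ := upde_S hn hz
  have hn0 : (n : ℝ) ≠ 0 := by positivity
  set a : ℝ := 2 / n with ha
  set h : ℂ → ℝ := fun w => Real.log ‖1 + w ^ n‖ with hh
  set φ : ℝ → ℝ := fun t => Real.log (1 + Real.exp (a * t)) with hφ
  set φ' : ℝ → ℝ := fun t => a * Real.exp (a * t) / (1 + Real.exp (a * t)) with hφ'
  set φ'' : ℝ → ℝ := fun t => a ^ 2 * Real.exp (a * t) / (1 + Real.exp (a * t)) ^ 2 with hφ''
  have hE : ∀ t, HasDerivAt (fun t => Real.exp (a * t)) (a * Real.exp (a * t)) t := fun t => by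
    have := ((hasDerivAt_id t).const_mul a).exp
    simpa [mul_comm] using this
  have hpos : ∀ t, 1 + Real.exp (a * t) ≠ 0 := fun t => by positivity
  have d1 : ∀ t, HasDerivAt φ (φ' t) t := fun t => by
    exact ((hE t).const_add 1).log (hpos t)
  have d2 : ∀ t, HasDerivAt φ' (φ'' t) t := fun t => by
    have := ((hE t).const_mul a).div ((hE t).const_add 1) (hpos t)
    refine this.congr_deriv ?_
    simp only [hφ'']
    have := hpos t
    field_simp
    ring
  have hharm : HarmonicAt h z := by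
    have : AnalyticAt ℂ (fun w : ℂ => 1 + w ^ n) z := by fun_prop
    exact this.harmonicAt_log_norm hz1
  have hharm0 : HarmonicAt (fun w : ℂ => Real.log ‖w‖) z :=
    (analyticAt_id (𝕜 := ℂ) (z := z)).harmonicAt_log_norm hz0
  have hF0 : HarmonicAt (fun w : ℂ => Real.log 2 + ((n : ℝ) - 1) * Real.log ‖w‖
      + (1 / (n : ℝ) - 1) * h w) z := by
    exact ((harmonicAt_const (Real.log 2)).add (hharm0.const_smul (c := ((n : ℝ) - 1)))).add
      (hharm.const_smul (c := (1 / (n : ℝ) - 1)))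
  have hcomp : ContDiffAt ℝ 2 (fun w => φ (h w)) z := by
    have : ContDiffAt ℝ 2 φ (h z) := by
      refine ContDiffAt.log ?_ (hpos _)
      fun_prop
    exact this.comp z hharm.1
  have hU : U n = (fun w : ℂ => Real.log 2 + ((n : ℝ) - 1) * Real.log ‖w‖
      + (1 / (n : ℝ) - 1) * h w) - (fun w => φ (h w)) := by
    funext w; rfl
  have hlap : (Δ (U n)) z = iteratedFDeriv ℝ 2 (U n) z ![(1 : ℂ), 1]
          + iteratedFDeriv ℝ 2 (U n) z ![Complex.I, Complex.I] := by
    rw [laplacian_eq_iteratedFDeriv_complexPlane]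
  have hlap2 : (Δ (fun w => φ (h w))) z = iteratedFDeriv ℝ 2 (fun w => φ (h w)) z ![(1 : ℂ), 1]
          + iteratedFDeriv ℝ 2 (fun w => φ (h w)) z ![Complex.I, Complex.I] := by
    rw [laplacian_eq_iteratedFDeriv_complexPlane]
  have hlap3 : (Δ h) z = iteratedFDeriv ℝ 2 h z ![(1 : ℂ), 1]
          + iteratedFDeriv ℝ 2 h z ![Complex.I, Complex.I] := by
    rw [laplacian_eq_iteratedFDeriv_complexPlane]
  have hh0 : (Δ h) z = 0 := hharm.2.self_of_nhds
  have hF00 := hF0.2.self_of_nhds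
  rw [Pi.zero_apply] at hF00
  rw [← hlap, hU, hF0.1.laplacian_sub hcomp, hF00, hlap2, upde_comp hharm.1 φ φ' φ'' d1 d2,
    upde_comp hharm.1 φ φ' φ'' d1 d2, ← hU]
  have hder : HasDerivAt (fun w : ℂ => 1 + w ^ n) (n * z ^ (n - 1)) z :=
    (hasDerivAt_pow n z).const_add 1
  set c : ℂ := n * z ^ (n - 1) / (1 + z ^ n) with hc
  have e1 : fderiv ℝ h z 1 = c.re := by
    rw [hh, upde_log hder hz1, mul_one]
  have e2 : fderiv ℝ h z Complex.I = -c.im := by
    rw [hh, upde_log hder hz1, show (n : ℂ) * z ^ (n - 1) * Complex.I / (1 + z ^ n) =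
      c * Complex.I by rw [hc]; ring]
    simp
  have hcn : c.re ^ 2 + c.im ^ 2 = (n * ‖z‖ ^ (n - 1) / ‖1 + z ^ n‖) ^ 2 := by
    have : ‖c‖ ^ 2 = c.re ^ 2 + c.im ^ 2 := by rw [Complex.sq_norm, Complex.normSq_apply]; ring
    rw [← this, hc]; simp
  have key : Real.exp (2 * U n z) = φ'' (h z) * (c.re ^ 2 + c.im ^ 2) := by
    have hzp : 0 < ‖z‖ := norm_pos_iff.2 hz0
    have h1p : 0 < ‖1 + z ^ n‖ := norm_pos_iff.2 hz1
    have hEp : 0 < 1 + Real.exp (a * h z) := by positivity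
    have s1 : 2 * U n z = Real.log 4 + Real.log ((‖z‖ ^ (n - 1)) ^ 2) + (a * h z)
        - Real.log (‖1 + z ^ n‖ ^ 2) - Real.log ((1 + Real.exp (a * h z)) ^ 2) := by
      rw [U, show (4 : ℝ) = 2 ^ 2 by norm_num, Real.log_pow, Real.log_pow, Real.log_pow,
        Real.log_pow, Real.log_pow, ha, hh]
      have : ((n - 1 : ℕ) : ℝ) = (n : ℝ) - 1 := by
        rw [Nat.cast_sub (by omega)]; simp
      rw [this]
      push_cast
      ring
    rw [s1, Real.exp_sub, Real.exp_sub, Real.exp_add, Real.exp_add, Real.exp_log (by norm_num),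
      Real.exp_log (by positivity), Real.exp_log (by positivity), Real.exp_log (by positivity),
      hcn]
    simp only [hφ'', ha]
    field_simp
    ring
  rw [key, e1, e2]
  have := hlap3
  rw [hh0] at this
  linear_combination (φ' (h z)) * this

end Pool.Agent.Helper46.Cone
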