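import Pool.Agent.Helper46.Cone.Defs

/-!
# Regularity of the conformal factor `U`
-/

set_option autoImplicit false

open Filter Topology

noncomputable section

namespace Pool.Agent.Helper46.Cone

lemma USmooth.not_mem_S {n : ℕ} (hn : 2 ≤ n) {z : ℂ} (hz : z ∉ S n) : z ≠ 0 ∧ 1 + z ^ n ≠ 0 := by
  rw [S, Finset.mem_insert, not_or, Multiset.mem_toFinset,
    Polynomial.mem_nthRoots (by omega : 0 < n)] at hz
  refine ⟨hz.1, fun h => hz.2 ?_⟩
  exact eq_neg_of_add_eq_zero_right h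

lemma USmooth.mem_S {n : ℕ} (hn : 2 ≤ n) {z : ℂ} (hz : z ∈ S n) : z = 0 ∨ z ^ n = -1 := by
  rw [S, Finset.mem_insert, Multiset.mem_toFinset,
    Polynomial.mem_nthRoots (by omega : 0 < n)] at hz
  exact hz

lemma USmooth.log_norm {f : ℂ → ℂ} {z : ℂ} (hf : ContDiffAt ℝ 2 f z) (h0 : f z ≠ 0) :
    ContDiffAt ℝ 2 (fun z => Real.log ‖f z‖) z :=
  (hf.norm ℝ h0).log (norm_ne_zero_iff.2 h0)

lemma USmooth.one_add_pow (n : ℕ) (z : ℂ) : ContDiffAt ℝ 2 (fun z : ℂ => 1 + z ^ n) z :=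
  contDiffAt_const.add (contDiffAt_id.pow n)

theorem U_smooth (n : ℕ) (hn : 2 ≤ n) : ContDiffOn ℝ 2 (U n) (↑(S n) : Set ℂ)ᶜ := by
  intro z hz
  obtain ⟨h0, h1⟩ := USmooth.not_mem_S hn (by simpa using hz)
  apply ContDiffAt.contDiffWithinAt
  have hl1 : ContDiffAt ℝ 2 (fun z : ℂ => Real.log ‖z‖) z := USmooth.log_norm contDiffAt_id h0
  have hl2 : ContDiffAt ℝ 2 (fun z : ℂ => Real.log ‖1 + z ^ n‖) z :=
    USmooth.log_norm (USmooth.one_add_pow n z) h1
  have hl3 : ContDiffAt ℝ 2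
      (fun z : ℂ => Real.log (1 + Real.exp (2 / (n : ℝ) * Real.log ‖1 + z ^ n‖))) z := by
    refine ContDiffAt.log (contDiffAt_const.add (ContDiffAt.exp (contDiffAt_const.mul hl2))) ?_
    positivity
  exact ((contDiffAt_const.add (contDiffAt_const.mul hl1)).add (contDiffAt_const.mul hl2)).sub hl3

theorem U_cone (n : ℕ) (hn : 2 ≤ n) : ∀ p ∈ S n, ∃ θ : ℝ, 0 < θ ∧ θ ≠ 1 ∧ ∃ h : ℂ → ℝ,
    ContinuousAt h p ∧ ∀ z : ℂ, z ≠ p → U n z = (θ - 1) * Real.log ‖z - p‖ + h z := by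
  intro p hp
  have hn2 : (2 : ℝ) ≤ n := by exact_mod_cast hn
  rcases USmooth.mem_S hn hp with rfl | hp
  · refine ⟨n, by linarith, by intro h; linarith, fun z => Real.log 2 +
      (1 / (n : ℝ) - 1) * Real.log ‖1 + z ^ n‖
      - Real.log (1 + Real.exp (2 / (n : ℝ) * Real.log ‖1 + z ^ n‖)), ?_, ?_⟩
    · have h1 : (1 : ℂ) + 0 ^ n ≠ 0 := by
        rw [zero_pow (by omega), add_zero]; exact one_ne_zero
      have hl2 : ContinuousAt (fun z : ℂ => Real.log ‖1 + z ^ n‖) 0 :=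
        (USmooth.log_norm (USmooth.one_add_pow n 0) h1).continuousAt
      have hl3 : ContinuousAt
          (fun z : ℂ => Real.log (1 + Real.exp (2 / (n : ℝ) * Real.log ‖1 + z ^ n‖))) 0 := by
        refine ContinuousAt.log (continuousAt_const.add
          (Real.continuous_exp.continuousAt.comp (continuousAt_const.mul hl2))) ?_
        have := Real.exp_pos (2 / (n : ℝ) * Real.log ‖1 + (0 : ℂ) ^ n‖)
        exact ne_of_gt (by linarith)
      exact (continuousAt_const.add (continuousAt_const.mul hl2)).sub hl3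
    · intro z _
      rw [U, sub_zero]; ring
  · -- a root of `z ^ n = -1`
    have hp0 : p ≠ 0 := by
      rintro rfl
      rw [zero_pow (by omega)] at hp
      exact one_ne_zero (neg_eq_zero.1 hp.symm)
    let G : ℂ → ℂ := fun z => ∑ i ∈ Finset.range n, z ^ i * p ^ (n - 1 - i)
    have hG : ∀ z, 1 + z ^ n = (z - p) * G z := by
      intro z
      have h := (Commute.all z p).mul_geom_sum₂ n
      rw [hp] at h
      show _ = (z - p) * _
      rw [h]; ring
    have hGp : G p ≠ 0 := by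
      show ∑ i ∈ Finset.range n, p ^ i * p ^ (n - 1 - i) ≠ 0
      have h : ∀ i ∈ Finset.range n, p ^ i * p ^ (n - 1 - i) = p ^ (n - 1) := by
        intro i hi
        rw [← pow_add]
        congr 1
        have := Finset.mem_range.1 hi
        omega
      rw [Finset.sum_congr rfl h, Finset.sum_const, Finset.card_range, nsmul_eq_mul]
      exact mul_ne_zero (by exact_mod_cast (by omega : n ≠ 0)) (pow_ne_zero _ hp0)
    have hGc : Continuous G := by
      show Continuous fun z : ℂ => ∑ i ∈ Finset.range n, z ^ i * p ^ (n - 1 - i)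
      fun_prop
    let h0 : ℂ → ℝ := fun z => Real.log 2 + ((n : ℝ) - 1) * Real.log ‖z‖ +
      (1 / (n : ℝ) - 1) * Real.log ‖G z‖ - Real.log (1 + ‖1 + z ^ n‖ ^ (2 / (n : ℝ)))
    have hh0 : ContinuousAt h0 p := by
      have hl1 : ContinuousAt (fun z : ℂ => Real.log ‖z‖) p :=
        continuous_norm.continuousAt.log (norm_ne_zero_iff.2 hp0)
      have hl2 : ContinuousAt (fun z : ℂ => Real.log ‖G z‖) p :=
        hGc.norm.continuousAt.log (norm_ne_zero_iff.2 hGp)
      have hc : Continuous fun z : ℂ => ‖1 + z ^ n‖ ^ (2 / (n : ℝ)) := by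
        refine Continuous.rpow_const (by fun_prop) fun z => Or.inr (by positivity)
      have hl3 : ContinuousAt (fun z : ℂ => Real.log (1 + ‖1 + z ^ n‖ ^ (2 / (n : ℝ)))) p := by
        refine (continuous_const.add hc).continuousAt.log ?_
        have : 0 ≤ ‖1 + p ^ n‖ ^ (2 / (n : ℝ)) := Real.rpow_nonneg (norm_nonneg _) _
        have h : 0 < 1 + ‖1 + p ^ n‖ ^ (2 / (n : ℝ)) := by linarith
        exact h.ne'
      exact ((continuousAt_const.add (continuousAt_const.mul hl1)).add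
        (continuousAt_const.mul hl2)).sub hl3
    classical
    refine ⟨1 / n, by positivity, ?_, fun z => if z = p then h0 p else
      U n z - (1 / (n : ℝ) - 1) * Real.log ‖z - p‖, ?_, ?_⟩
    · intro h
      rw [div_eq_one_iff_eq (by linarith)] at h
      linarith
    · refine hh0.congr ?_
      have hne : ∀ᶠ z in 𝓝 p, G z ≠ 0 := hGc.continuousAt.eventually_ne hGp
      filter_upwards [hne] with z hz
      by_cases hzp : z = p
      · rw [if_pos hzp, hzp]
      · rw [if_neg hzp]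
        have hzp' : z - p ≠ 0 := sub_ne_zero.2 hzp
        have h1 : 1 + z ^ n ≠ 0 := by rw [hG]; exact mul_ne_zero hzp' hz
        have h2 : 0 < ‖1 + z ^ n‖ := norm_pos_iff.2 h1
        have h3 : Real.log ‖1 + z ^ n‖ = Real.log ‖z - p‖ + Real.log ‖G z‖ := by
          rw [hG, norm_mul, Real.log_mul (norm_ne_zero_iff.2 hzp') (norm_ne_zero_iff.2 hz)]
        have h4 : ‖1 + z ^ n‖ ^ (2 / (n : ℝ)) =
            Real.exp (2 / (n : ℝ) * Real.log ‖1 + z ^ n‖) := by
          rw [Real.rpow_def_of_pos h2, mul_comm]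
        simp only [h0, U, h4]
        rw [h3]; ring
    · intro z hz
      simp only [if_neg hz]
      ring

theorem U_inf (n : ℕ) (hn : 2 ≤ n) : ∃ r : ℝ, 0 < r ∧ ∃ φ : ℂ → ℝ,
    ContDiffOn ℝ 2 φ (Metric.ball (0 : ℂ) r) ∧
          ∀ w ∈ Metric.ball (0 : ℂ) r, w ≠ 0 → φ w = U n w⁻¹ - 2 * Real.log ‖w‖ := by
  have hn2 : (2 : ℝ) ≤ n := by exact_mod_cast hn
  have hne : ∀ w ∈ Metric.ball (0 : ℂ) 1, 1 + w ^ n ≠ 0 := by
    intro w hw h
    rw [mem_ball_zero_iff] at hw
    have h1 : w ^ n = -1 := eq_neg_of_add_eq_zero_right h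
    have h2 : ‖w ^ n‖ = 1 := by rw [h1, norm_neg, norm_one]
    rw [norm_pow] at h2
    have h3 : ‖w‖ ^ n < 1 := pow_lt_one₀ (norm_nonneg _) hw (by omega)
    linarith
  refine ⟨1, one_pos, fun w => Real.log 2 + (1 / (n : ℝ) - 1) * Real.log ‖1 + w ^ n‖ -
    Real.log (‖w‖ ^ 2 + Real.exp (2 / (n : ℝ) * Real.log ‖1 + w ^ n‖)), ?_, ?_⟩
  · intro w hw
    apply ContDiffAt.contDiffWithinAt
    have hl2 : ContDiffAt ℝ 2 (fun z : ℂ => Real.log ‖1 + z ^ n‖) w :=
      USmooth.log_norm (USmooth.one_add_pow n w) (hne w hw)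
    refine (contDiffAt_const.add (contDiffAt_const.mul hl2)).sub ?_
    refine ContDiffAt.log (ContDiffAt.add (contDiffAt_id.norm_sq ℝ)
      (ContDiffAt.exp (contDiffAt_const.mul hl2))) ?_
    positivity
  · intro w hw hw0
    have h1 := hne w hw
    have hw1 : 0 < ‖w‖ := norm_pos_iff.2 hw0
    have hwn : w ^ n ≠ 0 := pow_ne_zero n hw0
    have h2 : 1 + w⁻¹ ^ n = (1 + w ^ n) / w ^ n := by
      rw [inv_pow]; field_simp; ring
    have h3 : Real.log ‖1 + w⁻¹ ^ n‖ = Real.log ‖1 + w ^ n‖ - n * Real.log ‖w‖ := by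
      rw [h2, norm_div, Real.log_div (norm_ne_zero_iff.2 h1) (norm_ne_zero_iff.2 hwn), norm_pow,
        Real.log_pow]
    have h4 : Real.exp (2 / (n : ℝ) * Real.log ‖1 + w⁻¹ ^ n‖) =
        Real.exp (2 / (n : ℝ) * Real.log ‖1 + w ^ n‖) / ‖w‖ ^ 2 := by
      rw [h3]
      have h5 : 2 / (n : ℝ) * (Real.log ‖1 + w ^ n‖ - n * Real.log ‖w‖) =
          2 / (n : ℝ) * Real.log ‖1 + w ^ n‖ - 2 * Real.log ‖w‖ := by
        field_simp
      rw [h5, Real.exp_sub]
      congr 1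
      rw [two_mul, Real.exp_add, Real.exp_log hw1, sq]
    have h6 : 1 + Real.exp (2 / (n : ℝ) * Real.log ‖1 + w ^ n‖) / ‖w‖ ^ 2 =
        (‖w‖ ^ 2 + Real.exp (2 / (n : ℝ) * Real.log ‖1 + w ^ n‖)) / ‖w‖ ^ 2 := by
      field_simp
    simp only [U]
    rw [h4, h6, Real.log_div (by positivity) (by positivity), h3, norm_inv, Real.log_inv,
      Real.log_pow]
    have h7 : (n : ℝ) ≠ 0 := by linarith
    field_simp
    push_cast
    ring

end Pool.Agent.Helper46.Cone
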