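import Pool.Agent.Helper46.Cone.Defs

set_option autoImplicit false

open MeasureTheory Filter Topology

noncomputable section

namespace Pool.Agent.Helper46.Cone

private theorem frCd1 {Y : ℝ × ℝ → E3} (hY : Hemi Y) : ContDiff ℝ 1 (d1 Y) := by
  unfold d1
  exact (hY.smooth.fderiv_right (m := 1) (by norm_num)).clm_apply contDiff_const

private theorem frCd2 {Y : ℝ × ℝ → E3} (hY : Hemi Y) : ContDiff ℝ 1 (d2 Y) := by
  unfold d2
  exact (hY.smooth.fderiv_right (m := 1) (by norm_num)).clm_apply contDiff_const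

private theorem frQpos0 (y : ℝ × ℝ) : 0 < q y := by
  unfold q; positivity

private theorem frG11 {Y : ℝ × ℝ → E3} (hY : Hemi Y) (y : ℝ × ℝ) :
    inner ℝ (d1 Y y) (d1 Y y) = (1 + y.2 ^ 2) / (q y) ^ 2 := by
  have h := hY.metric y (1, 0)
  have hq := frQpos0 y
  rw [real_inner_self_eq_norm_sq]
  unfold d1
  rw [h]
  field_simp
  simp only [q]
  ring

private theorem frG22 {Y : ℝ × ℝ → E3} (hY : Hemi Y) (y : ℝ × ℝ) :
    inner ℝ (d2 Y y) (d2 Y y) = (1 + y.1 ^ 2) / (q y) ^ 2 := by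
  have h := hY.metric y (0, 1)
  have hq := frQpos0 y
  rw [real_inner_self_eq_norm_sq]
  unfold d2
  rw [h]
  field_simp
  simp only [q]
  ring

private theorem frG12 {Y : ℝ × ℝ → E3} (hY : Hemi Y) (y : ℝ × ℝ) :
    inner ℝ (d1 Y y) (d2 Y y) = -(y.1 * y.2) / (q y) ^ 2 := by
  have h := hY.metric y (1, 1)
  have hq := frQpos0 y
  have e : ((1 : ℝ), (1 : ℝ)) = (1, 0) + (0, 1) := by simp
  have h2 : ‖d1 Y y + d2 Y y‖ ^ 2 = (1 ^ 2 + 1 ^ 2) / q y - (y.1 * 1 + y.2 * 1) ^ 2 / (q y) ^ 2 := by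
    rw [← h]
    conv_rhs => rw [e, map_add]
    rfl
  rw [norm_add_sq_real, ← real_inner_self_eq_norm_sq, ← real_inner_self_eq_norm_sq,
    frG11 hY, frG22 hY] at h2
  have h3 : inner ℝ (d1 Y y) (d2 Y y) = ((1 ^ 2 + 1 ^ 2) / q y - (y.1 * 1 + y.2 * 1) ^ 2 / (q y) ^ 2
      - (1 + y.2 ^ 2) / (q y) ^ 2 - (1 + y.1 ^ 2) / (q y) ^ 2) / 2 := by linarith
  rw [h3]
  field_simp
  simp only [q]
  ring

/-- cross product in `E3` -/
def frCross (a b : E3) : E3 :=
  !₂[a 1 * b 2 - a 2 * b 1, a 2 * b 0 - a 0 * b 2, a 0 * b 1 - a 1 * b 0]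

theorem frInner (a b : E3) : inner ℝ a b = a 0 * b 0 + a 1 * b 1 + a 2 * b 2 := by
  rw [PiLp.inner_apply, Fin.sum_univ_three]
  simp only [RCLike.inner_apply, conj_trivial]
  ring

theorem frCross0 (a b : E3) : frCross a b 0 = a 1 * b 2 - a 2 * b 1 := rfl
theorem frCross1 (a b : E3) : frCross a b 1 = a 2 * b 0 - a 0 * b 2 := rfl
theorem frCross2 (a b : E3) : frCross a b 2 = a 0 * b 1 - a 1 * b 0 := rfl

theorem frGram (a b v t : E3) :
    (inner ℝ a a * inner ℝ b b - inner ℝ a b ^ 2) * inner ℝ v t =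
      inner ℝ v (frCross a b) * inner ℝ t (frCross a b)
      + inner ℝ b b * (inner ℝ v a * inner ℝ t a)
      - inner ℝ a b * (inner ℝ v a * inner ℝ t b + inner ℝ v b * inner ℝ t a)
      + inner ℝ a a * (inner ℝ v b * inner ℝ t b) := by
  simp only [frInner, frCross0, frCross1, frCross2]
  ring

theorem frPerp1 (a b : E3) : inner ℝ (frCross a b) a = 0 := by
  simp only [frInner, frCross0, frCross1, frCross2]
  ring

theorem frPerp2 (a b : E3) : inner ℝ (frCross a b) b = 0 := by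
  simp only [frInner, frCross0, frCross1, frCross2]
  ring

theorem frNorm (a b : E3) : inner ℝ (frCross a b) (frCross a b) =
    inner ℝ a a * inner ℝ b b - inner ℝ a b ^ 2 := by
  simp only [frInner, frCross0, frCross1, frCross2]
  ring

theorem frQpos (y : ℝ × ℝ) : 0 < q y := by
  unfold q; positivity

theorem frQsmooth : ContDiff ℝ 1 q := by
  unfold q; fun_prop

theorem frSqrt : ContDiff ℝ 1 (fun y => q y * √(q y)) :=
  frQsmooth.mul (frQsmooth.sqrt (fun y => (frQpos y).ne'))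

theorem frCrossSmooth {A B : ℝ × ℝ → E3} (hA : ContDiff ℝ 1 A) (hB : ContDiff ℝ 1 B) :
    ContDiff ℝ 1 (fun y => frCross (A y) (B y)) := by
  rw [contDiff_euclidean] at hA hB ⊢
  intro i
  fin_cases i
  · exact ((hA 1).mul (hB 2)).sub ((hA 2).mul (hB 1))
  · exact ((hA 2).mul (hB 0)).sub ((hA 0).mul (hB 2))
  · exact ((hA 0).mul (hB 1)).sub ((hA 1).mul (hB 0))

theorem frDet {Y : ℝ × ℝ → E3} (hY : Hemi Y) (y : ℝ × ℝ) :
    inner ℝ (d1 Y y) (d1 Y y) * inner ℝ (d2 Y y) (d2 Y y) - inner ℝ (d1 Y y) (d2 Y y) ^ 2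
      = 1 / (q y) ^ 3 := by
  rw [frG11 hY, frG12 hY, frG22 hY]
  have h := frQpos y
  field_simp
  unfold q
  ring

/-- existence of the unit normal frame -/
theorem exists_frame {Y : ℝ × ℝ → E3} (hY : Hemi Y) : ∃ N, Frame Y N := by
  refine ⟨fun y => (q y * √(q y)) • frCross (d1 Y y) (d2 Y y), ?_, ?_, ?_, ?_, ?_⟩
  · exact frSqrt.smul (frCrossSmooth (frCd1 hY) (frCd2 hY))
  · intro y
    have h := frQpos y
    have hs : √(q y) * √(q y) = q y := Real.mul_self_sqrt h.le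
    rw [real_inner_smul_left, real_inner_smul_right, frNorm, frDet hY y]
    field_simp
    nlinarith [hs]
  · intro y
    rw [real_inner_smul_left, frPerp1, mul_zero]
  · intro y
    rw [real_inner_smul_left, frPerp2, mul_zero]
  · intro y v t
    have h := frQpos y
    have hs : √(q y) * √(q y) = q y := Real.mul_self_sqrt h.le
    have key := frGram (d1 Y y) (d2 Y y) v t
    rw [frDet hY y, frG11 hY y, frG12 hY y, frG22 hY y] at key
    rw [real_inner_smul_right, real_inner_smul_right]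
    have h3 : (q y) ^ 3 * (1 / (q y) ^ 3 * inner ℝ v t) = inner ℝ v t := by
      field_simp
    rw [← h3, key]
    have e1 : (q y * √(q y) * inner ℝ v (frCross (d1 Y y) (d2 Y y))) *
        (q y * √(q y) * inner ℝ t (frCross (d1 Y y) (d2 Y y))) =
        (q y) ^ 3 * (inner ℝ v (frCross (d1 Y y) (d2 Y y)) *
          inner ℝ t (frCross (d1 Y y) (d2 Y y))) := by
      calc _ = (q y) ^ 2 * (√(q y) * √(q y)) * (inner ℝ v (frCross (d1 Y y) (d2 Y y)) *
          inner ℝ t (frCross (d1 Y y) (d2 Y y))) := by ring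
        _ = _ := by rw [hs]; ring
    rw [e1]
    field_simp
    ring

end Pool.Agent.Helper46.Cone
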