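import Pool.Agent.Helper46.Cone.Defs

set_option autoImplicit false

open MeasureTheory Filter Topology

noncomputable section

namespace Pool.Agent.Helper46.Cone

theorem local_eq_zero_1d (g : ℝ → ℝ) (hg : Continuous g) (H : ∀ a b : ℝ, ∫ x in a..b, g x = 0)
    (x : ℝ) : g x = 0 := by
  have h1 : HasDerivAt (fun b => ∫ t in (0 : ℝ)..b, g t) (g x) x :=
    intervalIntegral.integral_hasDerivAt_right (hg.intervalIntegrable _ _)
      (hg.stronglyMeasurableAtFilter _ _) hg.continuousAt
  have h2 : (fun b => ∫ t in (0 : ℝ)..b, g t) = fun _ => (0 : ℝ) := by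
    funext b
    exact H 0 b
  rw [h2] at h1
  exact h1.unique (hasDerivAt_const x (0 : ℝ))

theorem eq_zero_of_rect (h : ℝ × ℝ → ℝ) (hc : Continuous h)
    (H : ∀ x0 x1 y0 y1 : ℝ, ∫ x in x0..x1, ∫ y in y0..y1, h (x, y) = 0) (y : ℝ × ℝ) : h y = 0 := by
  have h1 : ∀ x y0 y1 : ℝ, ∫ y in y0..y1, h (x, y) = 0 := by
    intro x y0 y1
    refine local_eq_zero_1d (fun x => ∫ y in y0..y1, h (x, y)) ?_ (fun a b => H a b y0 y1) x
    exact intervalIntegral.continuous_parametric_intervalIntegral_of_continuous'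
      (f := fun x y => h (x, y)) hc y0 y1
  have h2 := local_eq_zero_1d (fun t => h (y.1, t)) (by fun_prop) (fun a b => h1 y.1 a b) y.2
  simpa using h2

end Pool.Agent.Helper46.Cone
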