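import Pool.Agent.Helper46.Cone.Green
import Pool.Agent.Helper46.Cone.Local
import Pool.Agent.Helper46.Cone.Chr

set_option autoImplicit false

open MeasureTheory Filter Topology

noncomputable section

namespace Pool.Agent.Helper46.Cone

theorem gau_q_pos (y : ℝ × ℝ) : 0 < q y := by unfold q; positivity

theorem gau_q_smooth {n : WithTop ℕ∞} : ContDiff ℝ n q := by
  unfold q
  fun_prop

/-- `P` -/
def gauP (y : ℝ × ℝ) : ℝ := y.2 * (y.1 ^ 2 - 1 - y.2 ^ 2) / (q y) ^ 3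
/-- `R` -/
def gauR (y : ℝ × ℝ) : ℝ := 2 * y.1 * y.2 ^ 2 / (q y) ^ 3

theorem gauP_smooth {n : WithTop ℕ∞} : ContDiff ℝ n gauP := by
  unfold gauP
  refine ContDiff.div (by fun_prop) (gau_q_smooth.pow 3) (fun y => (pow_pos (gau_q_pos y) 3).ne')

theorem gauR_smooth {n : WithTop ℕ∞} : ContDiff ℝ n gauR := by
  unfold gauR
  refine ContDiff.div (by fun_prop) (gau_q_smooth.pow 3) (fun y => (pow_pos (gau_q_pos y) 3).ne')

theorem gau_d1 {f : ℝ × ℝ → ℝ} (hf : Differentiable ℝ f) (y : ℝ × ℝ) (f' : ℝ)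
    (h : HasDerivAt (fun t => f (t, y.2)) f' y.1) : d1 f y = f' := by
  have h1 : HasFDerivAt f (fderiv ℝ f y) (y.1, y.2) := (hf y).hasFDerivAt
  have h2 : HasDerivAt (fun t : ℝ => ((t, y.2) : ℝ × ℝ)) ((1, 0) : ℝ × ℝ) y.1 :=
    (hasDerivAt_id y.1).prodMk (hasDerivAt_const y.1 y.2)
  exact (h1.comp_hasDerivAt y.1 h2).unique h

theorem gau_d2 {f : ℝ × ℝ → ℝ} (hf : Differentiable ℝ f) (y : ℝ × ℝ) (f' : ℝ)
    (h : HasDerivAt (fun t => f (y.1, t)) f' y.2) : d2 f y = f' := by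
  have h1 : HasFDerivAt f (fderiv ℝ f y) (y.1, y.2) := (hf y).hasFDerivAt
  have h2 : HasDerivAt (fun t : ℝ => ((y.1, t) : ℝ × ℝ)) ((0, 1) : ℝ × ℝ) y.2 :=
    (hasDerivAt_const y.2 y.1).prodMk (hasDerivAt_id y.2)
  exact (h1.comp_hasDerivAt y.2 h2).unique h

theorem gau_d1R (y : ℝ × ℝ) : d1 gauR y = 2 * y.2 ^ 2 / (q y) ^ 3 - 12 * y.1 ^ 2 * y.2 ^ 2 / (q y) ^ 4 := by
  refine gau_d1 (gauR_smooth (n := 1)).differentiable_one y _ ?_
  have hq := gau_q_pos y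
  have hq' : HasDerivAt (fun t : ℝ => q (t, y.2)) (2 * y.1) y.1 := by
    have h := ((hasDerivAt_const y.1 (1 : ℝ)).add ((hasDerivAt_id y.1).pow 2)).add
      (hasDerivAt_const y.1 (y.2 ^ 2))
    refine h.congr_deriv ?_
    simp
  have h3 := hq'.pow 3
  have h4 : HasDerivAt (fun t : ℝ => 2 * t * y.2 ^ 2) (2 * y.2 ^ 2) y.1 := by
    have h := ((hasDerivAt_id y.1).const_mul 2).mul_const (y.2 ^ 2)
    refine h.congr_deriv ?_
    simp
  have h5 := h4.div h3 (pow_pos hq 3).ne'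
  refine h5.congr_deriv ?_
  have : q (y.1, y.2) = q y := rfl
  simp only [Pi.pow_apply, this]
  field_simp
  ring

theorem gau_d2P (y : ℝ × ℝ) : d2 gauP y = (y.1 ^ 2 - 1 - 3 * y.2 ^ 2) / (q y) ^ 3
    - 6 * y.2 ^ 2 * (y.1 ^ 2 - 1 - y.2 ^ 2) / (q y) ^ 4 := by
  refine gau_d2 (gauP_smooth (n := 1)).differentiable_one y _ ?_
  have hq := gau_q_pos y
  have hq' : HasDerivAt (fun t : ℝ => q (y.1, t)) (2 * y.2) y.2 := by
    have h := (hasDerivAt_const y.2 (1 + y.1 ^ 2 : ℝ)).add ((hasDerivAt_id y.2).pow 2)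
    refine h.congr_deriv ?_
    simp
  have h3 := hq'.pow 3
  have h4 : HasDerivAt (fun t : ℝ => t * (y.1 ^ 2 - 1 - t ^ 2)) (y.1 ^ 2 - 1 - 3 * y.2 ^ 2) y.2 := by
    have h := (hasDerivAt_id y.2).mul ((hasDerivAt_const y.2 (y.1 ^ 2 - 1 : ℝ)).sub ((hasDerivAt_id y.2).pow 2))
    refine h.congr_deriv ?_
    simp
    ring
  have h5 := h4.div h3 (pow_pos hq 3).ne'
  refine h5.congr_deriv ?_
  have : q (y.1, y.2) = q y := rfl
  simp only [Pi.pow_apply, this]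
  field_simp
  ring

theorem gau_curv (y : ℝ × ℝ) : d1 gauR y - d2 gauP y = (2 - q y) / (q y) ^ 3 := by
  rw [gau_d1R, gau_d2P]
  have hq := gau_q_pos y
  field_simp
  unfold q
  ring

theorem gau_cd {F : Type*} [NormedAddCommGroup F] [NormedSpace ℝ F] {f : ℝ × ℝ → F}
    (hf : ContDiff ℝ 1 f) (v : ℝ × ℝ) : Continuous (fun y => fderiv ℝ f y v) :=
  (hf.continuous_fderiv one_ne_zero).clm_apply continuous_const

theorem gau_int_cont {f : ℝ × ℝ → ℝ} (hf : Continuous f) (y0 y1 : ℝ) :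
    Continuous (fun x => ∫ y in y0..y1, f (x, y)) := by
  apply intervalIntegral.continuous_parametric_intervalIntegral_of_continuous'
  exact hf

theorem gau_int_sub {f g : ℝ × ℝ → ℝ} (hf : Continuous f) (hg : Continuous g) (x0 x1 y0 y1 : ℝ) :
    ∫ x in x0..x1, ∫ y in y0..y1, (f (x, y) - g (x, y)) =
      (∫ x in x0..x1, ∫ y in y0..y1, f (x, y)) - ∫ x in x0..x1, ∫ y in y0..y1, g (x, y) := by
  rw [← intervalIntegral.integral_sub ((gau_int_cont hf y0 y1).intervalIntegrable _ _)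
    ((gau_int_cont hg y0 y1).intervalIntegrable _ _)]
  congr 1
  funext x
  exact intervalIntegral.integral_sub
    ((hf.comp (by fun_prop : Continuous (fun y : ℝ => (x, y)))).intervalIntegrable _ _)
    ((hg.comp (by fun_prop : Continuous (fun y : ℝ => (x, y)))).intervalIntegrable _ _)

theorem gau_circ (x0 x1 y0 y1 : ℝ) : circ gauP gauR x0 x1 y0 y1 =
    ∫ x in x0..x1, ∫ y in y0..y1, (d1 gauR (x, y) - d2 gauP (x, y)) := by
  have hP : ContDiff ℝ 1 gauP := gauP_smooth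
  have hR : ContDiff ℝ 1 gauR := gauR_smooth
  have e1 := green (F := ℝ) gauP (fun y => y.1) hP (by fun_prop) x0 x1 y0 y1
  have e2 := green (F := ℝ) gauR (fun y => y.2) hR (by fun_prop) x0 x1 y0 y1
  have a1 : ∀ y : ℝ × ℝ, d1 (fun y : ℝ × ℝ => y.1) y = 1 := by
    intro y; unfold d1; rw [fderiv_fst]; rfl
  have a2 : ∀ y : ℝ × ℝ, d2 (fun y : ℝ × ℝ => y.1) y = 0 := by
    intro y; unfold d2; rw [fderiv_fst]; rfl
  have a3 : ∀ y : ℝ × ℝ, d1 (fun y : ℝ × ℝ => y.2) y = 0 := by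
    intro y; unfold d1; rw [fderiv_snd]; rfl
  have a4 : ∀ y : ℝ × ℝ, d2 (fun y : ℝ × ℝ => y.2) y = 1 := by
    intro y; unfold d2; rw [fderiv_snd]; rfl
  have hin : ∀ a b : ℝ, inner ℝ a b = a * b := by intro a b; simp [mul_comm]
  simp only [a1, a2, a3, a4, circ, hin, mul_one, mul_zero, zero_sub, sub_zero,
    intervalIntegral.integral_zero, add_zero, zero_add, intervalIntegral.integral_neg] at e1 e2
  rw [gau_int_sub (f := d1 gauR) (g := d2 gauP) (gau_cd hR _) (gau_cd hP _)]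
  unfold circ
  linarith

theorem gau_main {Y : ℝ × ℝ → E3} (hY : Hemi Y) (y : ℝ × ℝ) :
    inner ℝ (d1 (d1 Y) y) (d2 (d2 Y) y) - inner ℝ (d2 (d1 Y) y) (d2 (d1 Y) y) =
      (2 - q y) / (q y) ^ 3 := by
  have c1 := cd1 hY
  have c2 := cd2 hY
  have hP : ContDiff ℝ 1 gauP := gauP_smooth
  have hR : ContDiff ℝ 1 gauR := gauR_smooth
  let h1 : ℝ × ℝ → ℝ := fun y => inner ℝ (d1 (d1 Y) y) (d2 (d2 Y) y)
    - inner ℝ (d2 (d1 Y) y) (d2 (d1 Y) y)
  let h2 : ℝ × ℝ → ℝ := fun y => d1 gauR y - d2 gauP y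
  have hc1 : Continuous h1 :=
    ((gau_cd c1 _).inner (gau_cd c2 _)).sub ((gau_cd c1 _).inner (gau_cd c1 _))
  have hc2 : Continuous h2 := (gau_cd hR _).sub (gau_cd hP _)
  have key := eq_zero_of_rect (fun y => h1 y - h2 y) (hc1.sub hc2) ?_ y
  · have e : h1 y = h2 y := sub_eq_zero.1 key
    have e2 : h2 y = (2 - q y) / (q y) ^ 3 := gau_curv y
    exact e.trans e2
  · intro x0 x1 y0 y1
    rw [gau_int_sub hc1 hc2]
    have g := green (d1 Y) (d2 Y) c1 c2 x0 x1 y0 y1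
    have g' : (∫ x in x0..x1, ∫ y in y0..y1, h1 (x, y)) = circ (fun y => inner ℝ (d1 Y y) (d1 (d2 Y) y))
        (fun y => inner ℝ (d1 Y y) (d2 (d2 Y) y)) x0 x1 y0 y1 := by
      rw [g]
      simp only [symm12 hY, h1]
    have f1 : (fun y => inner ℝ (d1 Y y) (d1 (d2 Y) y)) = gauP := by
      funext y
      have hq := gau_q_pos y
      rw [symm12 hY, real_inner_comm, chr12 hY y _ (Or.inl rfl), real_inner_comm (d1 Y y) (d2 Y y), g11 hY, g12 hY]
      unfold gauP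
      field_simp
      ring
    have f2 : (fun y => inner ℝ (d1 Y y) (d2 (d2 Y) y)) = gauR := by
      funext y
      have hq := gau_q_pos y
      rw [real_inner_comm, chr22 hY y _ (Or.inl rfl), real_inner_comm (d1 Y y) (d2 Y y), g12 hY]
      unfold gauR
      field_simp
    rw [g', f1, f2, gau_circ, sub_self]

theorem gauss_det {Y N : ℝ × ℝ → E3} (hY : Hemi Y) (hN : Frame Y N) (y : ℝ × ℝ) :
    L11 Y N y * L22 Y N y - L12 Y N y ^ 2 = 1 / (q y) ^ 2 := by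
  have hq := gau_q_pos y
  have h := gau_main hY y
  rw [hN.gram y (d1 (d1 Y) y) (d2 (d2 Y) y), hN.gram y (d2 (d1 Y) y) (d2 (d1 Y) y),
    chr11 hY y _ (Or.inl rfl), chr11 hY y _ (Or.inr rfl), chr12 hY y _ (Or.inl rfl),
    chr12 hY y _ (Or.inr rfl), chr22 hY y _ (Or.inl rfl), chr22 hY y _ (Or.inr rfl),
    real_inner_comm (d1 Y y) (d2 Y y), g11 hY, g12 hY, g22 hY] at h
  have hs : √(q y) * √(q y) = q y := Real.mul_self_sqrt hq.le
  unfold L11 L12 L22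
  set a := inner ℝ (d1 (d1 Y) y) (N y)
  set b := inner ℝ (d2 (d1 Y) y) (N y)
  set c := inner ℝ (d2 (d2 Y) y) (N y)
  have e : √(q y) * a * (√(q y) * c) - (√(q y) * b) ^ 2 = q y * (a * c - b * b) := by
    calc _ = (√(q y) * √(q y)) * (a * c - b * b) := by ring
      _ = _ := by rw [hs]
  rw [e]
  have hqd : q y = 1 + y.1 ^ 2 + y.2 ^ 2 := rfl
  have e2 : a * c - b * b = 1 / (q y) ^ 3 := by
    have e3 : (2 - q y) / (q y) ^ 3 - (q y *
        ((1 + y.1 ^ 2) * (-(2 * y.1 / q y) * ((1 + y.2 ^ 2) / q y ^ 2) *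
            (-(2 * y.2 / q y) * (-(y.1 * y.2) / q y ^ 2))) +
          y.1 * y.2 * (-(2 * y.1 / q y) * ((1 + y.2 ^ 2) / q y ^ 2) *
            (-(2 * y.2 / q y) * ((1 + y.1 ^ 2) / q y ^ 2)) +
            -(2 * y.1 / q y) * (-(y.1 * y.2) / q y ^ 2) *
            (-(2 * y.2 / q y) * (-(y.1 * y.2) / q y ^ 2))) +
          (1 + y.2 ^ 2) * (-(2 * y.1 / q y) * (-(y.1 * y.2) / q y ^ 2) *
            (-(2 * y.2 / q y) * ((1 + y.1 ^ 2) / q y ^ 2))))) +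
        (q y * ((1 + y.1 ^ 2) * ((-(y.1 / q y) * (-(y.1 * y.2) / q y ^ 2) - y.2 / q y * ((1 + y.2 ^ 2) / q y ^ 2)) *
            (-(y.1 / q y) * (-(y.1 * y.2) / q y ^ 2) - y.2 / q y * ((1 + y.2 ^ 2) / q y ^ 2))) +
          y.1 * y.2 * ((-(y.1 / q y) * (-(y.1 * y.2) / q y ^ 2) - y.2 / q y * ((1 + y.2 ^ 2) / q y ^ 2)) *
            (-(y.1 / q y) * ((1 + y.1 ^ 2) / q y ^ 2) - y.2 / q y * (-(y.1 * y.2) / q y ^ 2)) +
            (-(y.1 / q y) * ((1 + y.1 ^ 2) / q y ^ 2) - y.2 / q y * (-(y.1 * y.2) / q y ^ 2)) *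
            (-(y.1 / q y) * (-(y.1 * y.2) / q y ^ 2) - y.2 / q y * ((1 + y.2 ^ 2) / q y ^ 2))) +
          (1 + y.2 ^ 2) * ((-(y.1 / q y) * ((1 + y.1 ^ 2) / q y ^ 2) - y.2 / q y * (-(y.1 * y.2) / q y ^ 2)) *
            (-(y.1 / q y) * ((1 + y.1 ^ 2) / q y ^ 2) - y.2 / q y * (-(y.1 * y.2) / q y ^ 2)))))
        = 1 / (q y) ^ 3 := by
      field_simp
      rw [hqd]
      ring
    rw [← e3]
    linear_combination h
  rw [e2]
  field_simp

end Pool.Agent.Helper46.Cone
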