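import Pool.Agent.Helper46.Cone.Defs

set_option autoImplicit false

open MeasureTheory Filter Topology

noncomputable section

namespace Pool.Agent.Helper46.Cone

/-! ### CONVEX -/
theorem pot_convex {Y N : ℝ × ℝ → E3} {Ψ G1 G2 : ℝ × ℝ → ℝ} (hP : Pot Y N Ψ G1 G2)
    (y z : ℝ × ℝ) : Ψ z + G1 z * (y.1 - z.1) + G2 z * (y.2 - z.2) ≤ Ψ y := by
  set a := y.1 - z.1 with ha
  set b := y.2 - z.2 with hb
  have hline : ∀ t : ℝ, HasDerivAt (fun t : ℝ => ((z.1 + t * a, z.2 + t * b) : ℝ × ℝ)) (a, b) t := by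
    intro t
    have h1 : HasDerivAt (fun t : ℝ => z.1 + t * a) a t := by
      simpa using ((hasDerivAt_id t).mul_const a).const_add z.1
    have h2 : HasDerivAt (fun t : ℝ => z.2 + t * b) b t := by
      simpa using ((hasDerivAt_id t).mul_const b).const_add z.2
    exact h1.prodMk h2
  have hφ : ∀ t : ℝ, HasDerivAt (fun t : ℝ => Ψ (z.1 + t * a, z.2 + t * b))
      (G1 (z.1 + t * a, z.2 + t * b) * a + G2 (z.1 + t * a, z.2 + t * b) * b) t := by
    intro t
    have := (hP.dΨ (z.1 + t * a, z.2 + t * b)).comp_hasDerivAt t (hline t)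
    simpa [Function.comp_def] using this
  have hφ' : ∀ t : ℝ, HasDerivAt (fun t : ℝ => G1 (z.1 + t * a, z.2 + t * b) * a +
      G2 (z.1 + t * a, z.2 + t * b) * b)
      ((L11 Y N (z.1 + t * a, z.2 + t * b) * a + L12 Y N (z.1 + t * a, z.2 + t * b) * b) * a +
       (L12 Y N (z.1 + t * a, z.2 + t * b) * a + L22 Y N (z.1 + t * a, z.2 + t * b) * b) * b) t := by
    intro t
    have h1 := (hP.dG1 (z.1 + t * a, z.2 + t * b)).comp_hasDerivAt t (hline t)
    have h2 := (hP.dG2 (z.1 + t * a, z.2 + t * b)).comp_hasDerivAt t (hline t)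
    have h1' : HasDerivAt (fun t : ℝ => G1 (z.1 + t * a, z.2 + t * b))
      (L11 Y N (z.1 + t * a, z.2 + t * b) * a + L12 Y N (z.1 + t * a, z.2 + t * b) * b) t := by
      simpa [Function.comp_def] using h1
    have h2' : HasDerivAt (fun t : ℝ => G2 (z.1 + t * a, z.2 + t * b))
      (L12 Y N (z.1 + t * a, z.2 + t * b) * a + L22 Y N (z.1 + t * a, z.2 + t * b) * b) t := by
      simpa [Function.comp_def] using h2
    exact (h1'.mul_const a).add (h2'.mul_const b)
  have hmono : Monotone (fun t : ℝ => G1 (z.1 + t * a, z.2 + t * b) * a +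
      G2 (z.1 + t * a, z.2 + t * b) * b) := by
    apply monotone_of_deriv_nonneg (fun t => (hφ' t).differentiableAt)
    intro t
    rw [(hφ' t).deriv]
    set w : ℝ × ℝ := (z.1 + t * a, z.2 + t * b)
    have hp := hP.pos w
    have hd := hP.det w
    have hd' : 0 ≤ L11 Y N w * L22 Y N w - L12 Y N w ^ 2 := by
      rw [hd]; positivity
    have h3 : 0 ≤ L11 Y N w * ((L11 Y N w * a + L12 Y N w * b) * a +
        (L12 Y N w * a + L22 Y N w * b) * b) := by
      have : L11 Y N w * ((L11 Y N w * a + L12 Y N w * b) * a +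
        (L12 Y N w * a + L22 Y N w * b) * b) =
        (L11 Y N w * a + L12 Y N w * b) ^ 2 + (L11 Y N w * L22 Y N w - L12 Y N w ^ 2) * b ^ 2 := by
        ring
      rw [this]
      have := mul_nonneg hd' (sq_nonneg b)
      have := sq_nonneg (L11 Y N w * a + L12 Y N w * b)
      linarith
    exact nonneg_of_mul_nonneg_right h3 hp
  obtain ⟨t, ht, e⟩ := exists_hasDerivAt_eq_slope (fun t : ℝ => Ψ (z.1 + t * a, z.2 + t * b))
    (fun t : ℝ => G1 (z.1 + t * a, z.2 + t * b) * a + G2 (z.1 + t * a, z.2 + t * b) * b)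
    (zero_lt_one' ℝ) (fun t _ => (hφ t).continuousAt.continuousWithinAt) (fun t _ => hφ t)
  have hle := hmono ht.1.le
  simp only [one_mul, zero_mul, add_zero, sub_zero, div_one, Prod.mk.eta] at e hle
  rw [show z.1 + a = y.1 by rw [ha]; ring, show z.2 + b = y.2 by rw [hb]; ring, Prod.mk.eta] at e
  linarith

theorem gradim_min3 (a b c : ℝ) : ∃ k : ℝ, k ≤ a ∧ k ≤ b ∧ k ≤ c :=
  ⟨min a (min b c), min_le_left _ _, (min_le_right _ _).trans (min_le_left _ _),
    (min_le_right _ _).trans (min_le_right _ _)⟩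

/-! ### GRADIM -/
set_option maxHeartbeats 2000000 in
theorem grad_image (Ψ G1 G2 : ℝ × ℝ → ℝ)
    (hΨ : ∀ y, HasFDerivAt Ψ (G1 y • ContinuousLinearMap.fst ℝ ℝ ℝ
      + G2 y • ContinuousLinearMap.snd ℝ ℝ ℝ) y)
    (hconv : ∀ y z : ℝ × ℝ, Ψ z + G1 z * (y.1 - z.1) + G2 z * (y.2 - z.2) ≤ Ψ y)
    (A B C : ℝ × ℝ) (s t : ℝ) (hs : 0 < s) (ht : 0 < t) (hst : s + t < 1)
    (hdet : (G1 B - G1 A) * (G2 C - G2 A) - (G2 B - G2 A) * (G1 C - G1 A) ≠ 0) :
    ∃ y, G1 y = G1 A + s * (G1 B - G1 A) + t * (G1 C - G1 A) ∧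
      G2 y = G2 A + s * (G2 B - G2 A) + t * (G2 C - G2 A) := by
  set g1 := G1 A + s * (G1 B - G1 A) + t * (G1 C - G1 A) with hg1
  set g2 := G2 A + s * (G2 B - G2 A) + t * (G2 C - G2 A) with hg2
  set l := 1 - s - t with hl
  have hl0 : 0 < l := by linarith
  -- the smallest weight
  obtain ⟨m, hm0, hml, hms, hmt⟩ : ∃ m : ℝ, 0 < m ∧ m ≤ l ∧ m ≤ s ∧ m ≤ t :=
    ⟨min l (min s t), lt_min hl0 (lt_min hs ht), min_le_left _ _,
      (min_le_right _ _).trans (min_le_left _ _), (min_le_right _ _).trans (min_le_right _ _)⟩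
  set D := (G1 B - G1 A) * (G2 C - G2 A) - (G2 B - G2 A) * (G1 C - G1 A) with hD
  have hD0 : 0 < |D| := abs_pos.mpr hdet
  -- bound of the coordinates by the maximum of the three linear forms
  set Q := |G1 B - G1 A| + |G2 B - G2 A| + |G1 C - G1 A| + |G2 C - G2 A| with hQ
  have hQ0 : 0 ≤ Q := by positivity
  let uA : ℝ × ℝ → ℝ := fun y => (G1 A - g1) * y.1 + (G2 A - g2) * y.2
  let uB : ℝ × ℝ → ℝ := fun y => (G1 B - g1) * y.1 + (G2 B - g2) * y.2
  let uC : ℝ × ℝ → ℝ := fun y => (G1 C - g1) * y.1 + (G2 C - g2) * y.2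
  have hsum : ∀ y, l * uA y + s * uB y + t * uC y = 0 := by
    intro y
    simp only [uA, uB, uC, hg1, hg2, hl]
    ring
  let Mx : ℝ × ℝ → ℝ := fun y => max (uA y) (max (uB y) (uC y))
  have hMA : ∀ y, uA y ≤ Mx y := fun y => le_max_left _ _
  have hMB : ∀ y, uB y ≤ Mx y := fun y => (le_max_left _ _).trans (le_max_right _ _)
  have hMC : ∀ y, uC y ≤ Mx y := fun y => (le_max_right _ _).trans (le_max_right _ _)
  have hM0 : ∀ y, 0 ≤ Mx y := by
    intro y
    have h1 := mul_le_mul_of_nonneg_left (hMA y) hl0.le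
    have h2 := mul_le_mul_of_nonneg_left (hMB y) hs.le
    have h3 := mul_le_mul_of_nonneg_left (hMC y) ht.le
    have h4 := hsum y
    have h5 : l * Mx y + s * Mx y + t * Mx y = Mx y := by rw [hl]; ring
    linarith
  have hlow : ∀ y, ∀ w u : ℝ, 0 < w → m ≤ w → w ≤ 1 → 0 ≤ w * u + (1 - w) * Mx y → -(Mx y / m) ≤ u := by
    intro y w u hw hmw hw1 h
    have h1 : -Mx y ≤ w * u := by nlinarith [hM0 y]
    have h2 : -(Mx y / w) ≤ u := by
      have h3 : w * (u + Mx y / w) = w * u + Mx y := by field_simp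
      have h4 : 0 ≤ w * (u + Mx y / w) := by rw [h3]; linarith
      have h5 := nonneg_of_mul_nonneg_right h4 hw
      linarith
    have h3 : Mx y / w ≤ Mx y / m := div_le_div_of_nonneg_left (hM0 y) hm0 hmw
    linarith
  have hm1 : m ≤ 1 := by linarith
  have hMm : ∀ y, Mx y ≤ Mx y / m := fun y => by
    rw [le_div_iff₀ hm0]
    nlinarith [hM0 y]
  have habs : ∀ y, |uA y| ≤ Mx y / m ∧ |uB y| ≤ Mx y / m ∧ |uC y| ≤ Mx y / m := by
    intro y
    have h4 := hsum y
    have h1 := mul_le_mul_of_nonneg_left (hMA y) hl0.le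
    have h2 := mul_le_mul_of_nonneg_left (hMB y) hs.le
    have h3 := mul_le_mul_of_nonneg_left (hMC y) ht.le
    refine ⟨abs_le.mpr ⟨?_, (hMA y).trans (hMm y)⟩, abs_le.mpr ⟨?_, (hMB y).trans (hMm y)⟩,
      abs_le.mpr ⟨?_, (hMC y).trans (hMm y)⟩⟩
    · refine hlow y l _ hl0 hml (by linarith) ?_
      have : (1 - l) * Mx y = s * Mx y + t * Mx y := by rw [hl]; ring
      linarith
    · refine hlow y s _ hs hms (by linarith) ?_
      have : (1 - s) * Mx y = l * Mx y + t * Mx y := by rw [hl]; ring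
      linarith
    · refine hlow y t _ ht hmt (by linarith) ?_
      have : (1 - t) * Mx y = l * Mx y + s * Mx y := by rw [hl]; ring
      linarith
  have hnorm : ∀ y : ℝ × ℝ, |D| * ‖y‖ ≤ Q * (2 * (Mx y / m)) := by
    intro y
    obtain ⟨h1, h2, h3⟩ := habs y
    have hAB : |uB y - uA y| ≤ 2 * (Mx y / m) := by
      have := abs_sub (uB y) (uA y)
      linarith
    have hAC : |uC y - uA y| ≤ 2 * (Mx y / m) := by
      have := abs_sub (uC y) (uA y)
      linarith
    have e1 : D * y.1 = (uB y - uA y) * (G2 C - G2 A) - (uC y - uA y) * (G2 B - G2 A) := by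
      simp only [uA, uB, uC, hD]; ring
    have e2 : D * y.2 = (uC y - uA y) * (G1 B - G1 A) - (uB y - uA y) * (G1 C - G1 A) := by
      simp only [uA, uB, uC, hD]; ring
    have hK : 0 ≤ 2 * (Mx y / m) := by
      have := div_nonneg (hM0 y) hm0.le
      linarith
    have b1 : |D| * |y.1| ≤ Q * (2 * (Mx y / m)) := by
      rw [← abs_mul, e1]
      refine (abs_sub _ _).trans ?_
      rw [abs_mul, abs_mul]
      have c1 := mul_le_mul_of_nonneg_right hAB (abs_nonneg (G2 C - G2 A))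
      have c2 := mul_le_mul_of_nonneg_right hAC (abs_nonneg (G2 B - G2 A))
      have c3 : 2 * (Mx y / m) * |G2 C - G2 A| + 2 * (Mx y / m) * |G2 B - G2 A| ≤
          Q * (2 * (Mx y / m)) := by
        rw [hQ]
        have := mul_nonneg hK (abs_nonneg (G1 B - G1 A))
        have := mul_nonneg hK (abs_nonneg (G1 C - G1 A))
        nlinarith
      linarith
    have b2 : |D| * |y.2| ≤ Q * (2 * (Mx y / m)) := by
      rw [← abs_mul, e2]
      refine (abs_sub _ _).trans ?_
      rw [abs_mul, abs_mul]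
      have c1 := mul_le_mul_of_nonneg_right hAC (abs_nonneg (G1 B - G1 A))
      have c2 := mul_le_mul_of_nonneg_right hAB (abs_nonneg (G1 C - G1 A))
      have c3 : 2 * (Mx y / m) * |G1 B - G1 A| + 2 * (Mx y / m) * |G1 C - G1 A| ≤
          Q * (2 * (Mx y / m)) := by
        rw [hQ]
        have := mul_nonneg hK (abs_nonneg (G2 B - G2 A))
        have := mul_nonneg hK (abs_nonneg (G2 C - G2 A))
        nlinarith
      linarith
    rw [Prod.norm_def, Real.norm_eq_abs, Real.norm_eq_abs]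
    rcases max_cases |y.1| |y.2| with ⟨h, _⟩ | ⟨h, _⟩
    · rw [h]; exact b1
    · rw [h]; exact b2
  -- the function to be minimised
  let h : ℝ × ℝ → ℝ := fun y => Ψ y - (g1 * y.1 + g2 * y.2)
  have hcont : Continuous h := by
    have : Continuous Ψ := continuous_iff_continuousAt.mpr fun y => (hΨ y).continuousAt
    exact this.sub ((continuous_const.mul continuous_fst).add (continuous_const.mul continuous_snd))
  obtain ⟨c0, hc0⟩ : ∃ c0 : ℝ, ∀ y, c0 + Mx y ≤ h y := by
    obtain ⟨k, k1, k2, k3⟩ := gradim_min3 (Ψ A - G1 A * A.1 - G2 A * A.2)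
      (Ψ B - G1 B * B.1 - G2 B * B.2) (Ψ C - G1 C * C.1 - G2 C * C.2)
    refine ⟨k, fun y => ?_⟩
    have kA := hconv y A
    have kB := hconv y B
    have kC := hconv y C
    have : Mx y ≤ h y - k := by
      refine max_le ?_ (max_le ?_ ?_)
      · simp only [uA, h]; linarith
      · simp only [uB, h]; linarith
      · simp only [uC, h]; linarith
    linarith
  have htend : Tendsto h (cocompact (ℝ × ℝ)) atTop := by
    have hpos : 0 < |D| * m / (2 * (Q + 1)) := by positivity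
    have h1 : ∀ y : ℝ × ℝ, c0 + (|D| * m / (2 * (Q + 1))) * ‖y‖ ≤ h y := by
      intro y
      refine le_trans ?_ (hc0 y)
      have h2 := hnorm y
      have h3 : (|D| * m / (2 * (Q + 1))) * ‖y‖ ≤ Mx y := by
        rw [div_mul_eq_mul_div, div_le_iff₀ (by positivity)]
        have h4 : Q * (2 * (Mx y / m)) ≤ (Q + 1) * (2 * (Mx y / m)) := by
          have := div_nonneg (hM0 y) hm0.le
          nlinarith
        have h5 : |D| * ‖y‖ * m ≤ (Q + 1) * (2 * (Mx y / m)) * m :=
          mul_le_mul_of_nonneg_right (h2.trans h4) hm0.le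
        have h6 : (Q + 1) * (2 * (Mx y / m)) * m = Mx y * (2 * (Q + 1)) := by
          field_simp
        linarith
      linarith
    refine tendsto_atTop_mono h1 ?_
    exact tendsto_atTop_add_const_left _ _ ((tendsto_norm_cocompact_atTop (E := ℝ × ℝ)).const_mul_atTop hpos)
  obtain ⟨y, hy⟩ := hcont.exists_forall_le htend
  have hder : HasFDerivAt h ((G1 y • ContinuousLinearMap.fst ℝ ℝ ℝ
      + G2 y • ContinuousLinearMap.snd ℝ ℝ ℝ) - (g1 • ContinuousLinearMap.fst ℝ ℝ ℝ
      + g2 • ContinuousLinearMap.snd ℝ ℝ ℝ)) y := by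
    refine (hΨ y).sub ?_
    have := (g1 • ContinuousLinearMap.fst ℝ ℝ ℝ + g2 • ContinuousLinearMap.snd ℝ ℝ ℝ).hasFDerivAt (x := y)
    exact this
  have hzero := (show IsLocalMin h y from Filter.Eventually.of_forall hy).hasFDerivAt_eq_zero hder
  refine ⟨y, ?_, ?_⟩
  · have := congrArg (fun L : ℝ × ℝ →L[ℝ] ℝ => L (1, 0)) hzero
    simp at this
    linarith
  · have := congrArg (fun L : ℝ × ℝ →L[ℝ] ℝ => L (0, 1)) hzero
    simp at this
    linarith

end Pool.Agent.Helper46.Cone
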