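import Pool.Agent.Helper46.Cone.Defs

/-! WIDTH: the gradient image has width at least 16 in every direction. -/

set_option autoImplicit false

open MeasureTheory Filter Topology

noncomputable section

namespace Pool.Agent.Helper46.Cone

/-- `harc` is the statement of module ARC: use as `width_of_arc c hlim β (arc hY hN hP c β)` -/
theorem width_of_arc {Y : ℝ × ℝ → E3} {G1 G2 : ℝ × ℝ → ℝ} (c : E3)
    (hlim : ∀ j : ℤ, Tendsto (fun R : ℝ => Y (R * Real.cos (mark j), R * Real.sin (mark j)))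
      atTop (𝓝 c)) (β : ℝ)
    (harc : ∀ θ0 θ1 : ℝ, β - Real.pi / 3 ≤ θ0 → θ0 < θ1 → θ1 ≤ β + Real.pi / 3 →
      Tendsto (fun R : ℝ => Y (R * Real.cos θ0, R * Real.sin θ0)) atTop (𝓝 c) →
      Tendsto (fun R : ℝ => Y (R * Real.cos θ1, R * Real.sin θ1)) atTop (𝓝 c) →
      ∀ᶠ R in atTop, 1 / 2 ≤ (G1 (pt β θ1 R) - G1 (pt β θ0 R)) * (-Real.sin β)
        + (G2 (pt β θ1 R) - G2 (pt β θ0 R)) * Real.cos β) :
    ∃ A B : ℝ × ℝ, 16 ≤ (G1 A - G1 B) * (-Real.sin β) + (G2 A - G2 B) * Real.cos β := by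
  have hpi := Real.pi_pos
  set j0 : ℤ := ⌈(β - Real.pi / 3) * 100 / (2 * Real.pi)⌉ with hj0
  have h1 : (β - Real.pi / 3) * 100 / (2 * Real.pi) ≤ (j0 : ℝ) := Int.le_ceil _
  have h2 : (j0 : ℝ) < (β - Real.pi / 3) * 100 / (2 * Real.pi) + 1 := Int.ceil_lt_add_one _
  rw [div_le_iff₀ (by positivity)] at h1
  have h2' : (j0 : ℝ) * (2 * Real.pi) < (β - Real.pi / 3) * 100 + 2 * Real.pi := by
    have := mul_lt_mul_of_pos_right h2 (show 0 < 2 * Real.pi by positivity)
    rw [add_mul, div_mul_cancel₀ _ (by positivity)] at this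
    linarith
  have hm : ∀ k : ℕ, mark (j0 + k) = mark j0 + 2 * Real.pi * k / 100 := by
    intro k
    unfold mark
    push_cast
    ring
  have hlow : β - Real.pi / 3 ≤ mark j0 := by
    unfold mark
    rw [le_div_iff₀ (by norm_num)]
    linarith
  have hup : mark j0 + 2 * Real.pi * 32 / 100 ≤ β + Real.pi / 3 := by
    unfold mark
    have : (2 * Real.pi * (j0 : ℝ)) < (β - Real.pi / 3) * 100 + 2 * Real.pi := by linarith
    linarith
  have hev : ∀ k ∈ Finset.range 32, ∀ᶠ R in atTop, 1 / 2 ≤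
      (G1 (pt β (mark (j0 + ((k + 1 : ℕ) : ℤ))) R) - G1 (pt β (mark (j0 + (k : ℤ))) R)) *
        (-Real.sin β)
      + (G2 (pt β (mark (j0 + ((k + 1 : ℕ) : ℤ))) R) - G2 (pt β (mark (j0 + (k : ℤ))) R)) *
        Real.cos β := by
    intro k hk
    have hk' : k < 32 := Finset.mem_range.mp hk
    have hk'' : (k : ℝ) + 1 ≤ 32 := by exact_mod_cast hk'
    have hk0 : (0 : ℝ) ≤ k := Nat.cast_nonneg k
    refine harc _ _ ?_ ?_ ?_ (hlim _) (hlim _)
    · rw [hm k]
      have : 0 ≤ 2 * Real.pi * k / 100 := by positivity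
      linarith
    · rw [hm k, hm (k + 1)]
      push_cast
      have : 2 * Real.pi * k / 100 < 2 * Real.pi * (k + 1) / 100 := by
        have := mul_lt_mul_of_pos_left (show (k : ℝ) < k + 1 by linarith)
          (show 0 < 2 * Real.pi by positivity)
        linarith
      linarith
    · rw [hm (k + 1)]
      push_cast
      have : 2 * Real.pi * ((k : ℝ) + 1) / 100 ≤ 2 * Real.pi * 32 / 100 := by
        have := mul_le_mul_of_nonneg_left hk'' (show 0 ≤ 2 * Real.pi by positivity)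
        linarith
      linarith
  have hall := (Finset.eventually_all (Finset.range 32)).mpr hev
  obtain ⟨R, hR⟩ := hall.exists
  refine ⟨pt β (mark (j0 + ((32 : ℕ) : ℤ))) R, pt β (mark (j0 + ((0 : ℕ) : ℤ))) R, ?_⟩
  have hs := Finset.sum_le_sum hR
  have t1 := Finset.sum_range_sub
    (fun k : ℕ => G1 (pt β (mark (j0 + ((k : ℕ) : ℤ))) R) * (-Real.sin β)
      + G2 (pt β (mark (j0 + ((k : ℕ) : ℤ))) R) * Real.cos β) 32
  have e : ∑ k ∈ Finset.range 32,
      ((G1 (pt β (mark (j0 + ((k + 1 : ℕ) : ℤ))) R) - G1 (pt β (mark (j0 + (k : ℤ))) R)) *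
        (-Real.sin β)
      + (G2 (pt β (mark (j0 + ((k + 1 : ℕ) : ℤ))) R) - G2 (pt β (mark (j0 + (k : ℤ))) R)) *
        Real.cos β) = ∑ k ∈ Finset.range 32,
      ((G1 (pt β (mark (j0 + ((k + 1 : ℕ) : ℤ))) R) * (-Real.sin β)
      + G2 (pt β (mark (j0 + ((k + 1 : ℕ) : ℤ))) R) * Real.cos β)
      - (G1 (pt β (mark (j0 + ((k : ℕ) : ℤ))) R) * (-Real.sin β)
      + G2 (pt β (mark (j0 + ((k : ℕ) : ℤ))) R) * Real.cos β)) := by
    refine Finset.sum_congr rfl fun k _ => ?_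
    ring
  rw [e, t1] at hs
  have e2 : ∑ i ∈ Finset.range 32, (1 / 2 : ℝ) = 16 := by
    rw [Finset.sum_const, Finset.card_range]
    norm_num
  rw [e2] at hs
  calc (16 : ℝ) ≤ _ := hs
    _ = _ := by ring

end Pool.Agent.Helper46.Cone
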