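import Pool.Agent.Helper46.Cone.Pot
import Pool.Agent.Helper46.Cone.Width
import Pool.Agent.Helper46.Cone.Arc
import Pool.Agent.Helper46.Cone.Gradim
import Pool.Agent.Helper46.Cone.Area

set_option autoImplicit false

open MeasureTheory Filter Topology

noncomputable section

namespace Pool.Agent.Helper46.Cone

theorem width {Y N : ℝ × ℝ → E3} {Ψ G1 G2 : ℝ × ℝ → ℝ} (hY : Hemi Y) (hN : Frame Y N)
    (hP : Pot Y N Ψ G1 G2) (c : E3)
    (hlim : ∀ j : ℤ, Tendsto (fun R : ℝ => Y (R * Real.cos (mark j), R * Real.sin (mark j)))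
      atTop (𝓝 c)) (β : ℝ) :
    ∃ A B : ℝ × ℝ, 16 ≤ (G1 A - G1 B) * (-Real.sin β) + (G2 A - G2 B) * Real.cos β :=
  width_of_arc c hlim β (arc hY hN hP c β)

/-- There is no `C²` isometric immersion of the open unit hemisphere into `ℝ³` for which the images
of the points near the `100` marks of the boundary circle all converge to the same point. -/
theorem no_hemi {Y : ℝ × ℝ → E3} (hY : Hemi Y) (c : E3)
    (hlim : ∀ j : ℤ, Tendsto (fun R : ℝ => Y (R * Real.cos (mark j), R * Real.sin (mark j)))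
      atTop (𝓝 c)) : False := by
  obtain ⟨N, Ψ, G1, G2, hN, hP⟩ := exists_pot hY
  have W := width hY hN hP c hlim
  obtain ⟨A, B, hAB⟩ := W 0
  simp only [Real.sin_zero, neg_zero, mul_zero, zero_add, Real.cos_zero, mul_one] at hAB
  set v1 : ℝ := G1 A - G1 B with hv1
  set v2 : ℝ := G2 A - G2 B with hv2
  set w : ℂ := ⟨v1, v2⟩ with hw
  have hr16 : (16 : ℝ) ≤ ‖w‖ := by
    calc (16 : ℝ) ≤ v2 := hAB
      _ ≤ |w.im| := le_abs_self _
      _ ≤ ‖w‖ := Complex.abs_im_le_norm w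
  have hr0 : (0 : ℝ) < ‖w‖ := by linarith
  have hw0 : w ≠ 0 := norm_pos_iff.mp hr0
  obtain ⟨C, D, hCD⟩ := W (Complex.arg w)
  rw [Complex.cos_arg hw0, Complex.sin_arg] at hCD
  have hre : w.re = v1 := rfl
  have him : w.im = v2 := rfl
  rw [hre, him] at hCD
  have hdet : 256 ≤ v1 * (G2 C - G2 D) - v2 * (G1 C - G1 D) := by
    have h1 : (G1 C - G1 D) * -(v2 / ‖w‖) + (G2 C - G2 D) * (v1 / ‖w‖)
        = (v1 * (G2 C - G2 D) - v2 * (G1 C - G1 D)) / ‖w‖ := by ring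
    rw [h1, le_div_iff₀ hr0] at hCD
    nlinarith
  have key : ∀ X : ℝ × ℝ, 128 ≤ |v1 * (G2 X - G2 B) - v2 * (G1 X - G1 B)| → False := by
    intro X hX
    have hne : (G1 A - G1 B) * (G2 X - G2 B) - (G2 A - G2 B) * (G1 X - G1 B) ≠ 0 := by
      intro h0
      rw [← hv1, ← hv2] at h0
      rw [h0, abs_zero] at hX
      linarith
    have hsub : {p : ℝ × ℝ | ∃ s t : ℝ, 0 < s ∧ s < 1 / 2 ∧ 0 < t ∧ t < 1 / 2 ∧
        p = ((G1 B, G2 B).1 + s * (v1, v2).1 + t * (G1 X - G1 B, G2 X - G2 B).1,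
          (G1 B, G2 B).2 + s * (v1, v2).2 + t * (G1 X - G1 B, G2 X - G2 B).2)} ⊆
        Set.range fun y => (G1 y, G2 y) := by
      rintro p ⟨s, t, hs, hs', ht, ht', rfl⟩
      obtain ⟨y, h1, h2⟩ := grad_image Ψ G1 G2 hP.dΨ (pot_convex hP) B A X s t hs ht
        (by linarith) hne
      exact ⟨y, by simp only [h1, h2, hv1, hv2]⟩
    have h1 := para (G1 B, G2 B) (v1, v2) (G1 X - G1 B, G2 X - G2 B)
    have h2 := (h1.trans (measure_mono hsub)).trans (area_le hP)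
    rw [ENNReal.ofReal_le_ofReal_iff (by positivity)] at h2
    have h3 : Real.pi < 3.15 := Real.pi_lt_d2
    have h4 := Real.pi_pos
    have h5 : |(v1, v2).1 * (G1 X - G1 B, G2 X - G2 B).2 - (v1, v2).2 *
      (G1 X - G1 B, G2 X - G2 B).1| = |v1 * (G2 X - G2 B) - v2 * (G1 X - G1 B)| := rfl
    rw [h5] at h2
    nlinarith
  by_cases hC : 128 ≤ |v1 * (G2 C - G2 B) - v2 * (G1 C - G1 B)|
  · exact key C hC
  · refine key D ?_
    push Not at hC
    have h6 := (abs_lt.mp hC).2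
    rw [le_abs]
    right
    linarith

end Pool.Agent.Helper46.Cone
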