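import Pool.Agent.Helper46.Cone.Defs

set_option autoImplicit false

open MeasureTheory Filter Topology

noncomputable section

namespace Pool.Agent.Helper46.Cone

theorem poinc_bound (g : ℝ → ℝ) (hg : Continuous g) (a b c e : ℝ)
    (h : ∀ t ∈ Set.uIcc a b, |g t - c| ≤ e) :
    |(∫ t in a..b, g t) - c * (b - a)| ≤ e * |b - a| := by
  have h1 : (∫ t in a..b, g t) - c * (b - a) = ∫ t in a..b, (g t - c) := by
    rw [intervalIntegral.integral_sub (hg.intervalIntegrable _ _)
      (continuous_const.intervalIntegrable _ _), intervalIntegral.integral_const, smul_eq_mul]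
    ring
  rw [h1]
  have h2 := intervalIntegral.norm_integral_le_of_norm_le_const (a := a) (b := b) (C := e)
    (f := fun t => g t - c) (fun t ht => by
      rw [Real.norm_eq_abs]
      exact h t (Set.uIoc_subset_uIcc ht))
  simpa [Real.norm_eq_abs] using h2

theorem exists_primitive (p r : ℝ × ℝ → ℝ) (hp : Continuous p) (hr : Continuous r)
    (H : ∀ x0 x1 y0 y1 : ℝ, circ p r x0 x1 y0 y1 = 0) :
    ∃ Φ : ℝ × ℝ → ℝ, ∀ y, HasFDerivAt Φ (p y • ContinuousLinearMap.fst ℝ ℝ ℝ
      + r y • ContinuousLinearMap.snd ℝ ℝ ℝ) y := by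
  have hpx : ∀ y : ℝ, Continuous fun x => p (x, y) := fun y => by fun_prop
  have hry : ∀ x : ℝ, Continuous fun y => r (x, y) := fun x => by fun_prop
  refine ⟨fun z => (∫ s in (0 : ℝ)..z.1, p (s, 0)) + ∫ t in (0 : ℝ)..z.2, r (z.1, t), ?_⟩
  rintro ⟨x, y⟩
  rw [hasFDerivAt_iff_isLittleO, Asymptotics.isLittleO_iff]
  intro c hc
  have hpc : ∀ᶠ z in 𝓝 (x, y), |p z - p (x, y)| < c / 2 := by
    have := (hp.tendsto (x, y)).sub_const (p (x, y))
    rw [sub_self] at this
    have h2 := this.eventually (Metric.ball_mem_nhds (0 : ℝ) (half_pos hc))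
    filter_upwards [h2] with z hz
    simpa [Real.dist_eq] using hz
  have hrc : ∀ᶠ z in 𝓝 (x, y), |r z - r (x, y)| < c / 2 := by
    have := (hr.tendsto (x, y)).sub_const (r (x, y))
    rw [sub_self] at this
    have h2 := this.eventually (Metric.ball_mem_nhds (0 : ℝ) (half_pos hc))
    filter_upwards [h2] with z hz
    simpa [Real.dist_eq] using hz
  obtain ⟨d, hd, hball⟩ := Metric.eventually_nhds_iff_ball.mp (hpc.and hrc)
  filter_upwards [Metric.ball_mem_nhds (x, y) hd] with z hz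
  obtain ⟨x', y'⟩ := z
  rw [Metric.mem_ball, Prod.dist_eq, max_lt_iff] at hz
  simp only at hz
  have hx' : |x' - x| ≤ ‖(x', y') - (x, y)‖ := by
    exact norm_fst_le ((x', y') - (x, y) : ℝ × ℝ)
  have hy' : |y' - y| ≤ ‖(x', y') - (x, y)‖ := by
    exact norm_snd_le ((x', y') - (x, y) : ℝ × ℝ)
  have hA : |(∫ s in x..x', p (s, y)) - p (x, y) * (x' - x)| ≤ c / 2 * |x' - x| := by
    refine poinc_bound (fun s => p (s, y)) (hpx y) x x' _ _ ?_
    intro s hs
    refine (hball (s, y) ?_).1.le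
    rw [Metric.mem_ball, Prod.dist_eq, max_lt_iff]
    refine ⟨?_, by simpa using hd⟩
    calc dist s x ≤ dist x' x := by
          rw [Real.dist_eq, Real.dist_eq]
          exact Set.abs_sub_left_of_mem_uIcc hs
      _ < d := hz.1
  have hB : |(∫ t in y..y', r (x', t)) - r (x, y) * (y' - y)| ≤ c / 2 * |y' - y| := by
    refine poinc_bound (fun t => r (x', t)) (hry x') y y' _ _ ?_
    intro t ht
    refine (hball (x', t) ?_).2.le
    rw [Metric.mem_ball, Prod.dist_eq, max_lt_iff]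
    refine ⟨hz.1, ?_⟩
    calc dist t y ≤ dist y' y := by
          rw [Real.dist_eq, Real.dist_eq]
          exact Set.abs_sub_left_of_mem_uIcc ht
      _ < d := hz.2
  have e1 : ((∫ s in (0 : ℝ)..x', p (s, 0)) + ∫ t in (0 : ℝ)..y', r (x', t))
      - ((∫ s in (0 : ℝ)..x, p (s, 0)) + ∫ t in (0 : ℝ)..y, r (x, t))
      = (∫ s in x..x', p (s, y)) + ∫ t in y..y', r (x', t) := by
    have h1 := H x x' 0 y
    unfold circ at h1
    have h2 : (∫ s in (0 : ℝ)..x', p (s, 0)) - (∫ s in (0 : ℝ)..x, p (s, 0))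
        = ∫ s in x..x', p (s, 0) :=
      intervalIntegral.integral_interval_sub_left ((hpx 0).intervalIntegrable _ _)
        ((hpx 0).intervalIntegrable _ _)
    have h3 : (∫ t in (0 : ℝ)..y', r (x', t)) - (∫ t in (0 : ℝ)..y, r (x', t))
        = ∫ t in y..y', r (x', t) :=
      intervalIntegral.integral_interval_sub_left ((hry x').intervalIntegrable _ _)
        ((hry x').intervalIntegrable _ _)
    linarith
  have e2 : (fun z : ℝ × ℝ => (∫ s in (0 : ℝ)..z.1, p (s, 0)) + ∫ t in (0 : ℝ)..z.2, r (z.1, t))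
        (x', y')
      - (fun z : ℝ × ℝ => (∫ s in (0 : ℝ)..z.1, p (s, 0)) + ∫ t in (0 : ℝ)..z.2, r (z.1, t)) (x, y)
      - (p (x, y) • ContinuousLinearMap.fst ℝ ℝ ℝ + r (x, y) • ContinuousLinearMap.snd ℝ ℝ ℝ)
        ((x', y') - (x, y))
      = ((∫ s in x..x', p (s, y)) - p (x, y) * (x' - x))
        + ((∫ t in y..y', r (x', t)) - r (x, y) * (y' - y)) := by
    simp only [add_apply, smul_apply,
      ContinuousLinearMap.coe_fst', ContinuousLinearMap.coe_snd', Prod.mk_sub_mk, smul_eq_mul]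
    rw [e1]
    ring
  rw [e2, Real.norm_eq_abs]
  calc _ ≤ |(∫ s in x..x', p (s, y)) - p (x, y) * (x' - x)|
        + |(∫ t in y..y', r (x', t)) - r (x, y) * (y' - y)| := abs_add_le _ _
    _ ≤ c / 2 * ‖(x', y') - (x, y)‖ + c / 2 * ‖(x', y') - (x, y)‖ := by
        refine add_le_add (hA.trans ?_) (hB.trans ?_)
        · exact mul_le_mul_of_nonneg_left hx' (by positivity)
        · exact mul_le_mul_of_nonneg_left hy' (by positivity)
    _ = c * ‖(x', y') - (x, y)‖ := by ring

end Pool.Agent.Helper46.Cone
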