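import Pool.Agent.Helper46.Cone.Green
import Pool.Agent.Helper46.Cone.Poinc
import Pool.Agent.Helper46.Cone.Chr
import Pool.Agent.Helper46.Cone.Frame
import Pool.Agent.Helper46.Cone.Gauss
import Pool.Agent.Helper46.Cone.Codazzi

set_option autoImplicit false

open MeasureTheory Filter Topology

noncomputable section

namespace Pool.Agent.Helper46.Cone

/-! ### POT -/

private theorem pot_cont_d1 {f : ℝ × ℝ → E3} (hf : ContDiff ℝ 1 f) : Continuous (d1 f) :=
  (hf.continuous_fderiv one_ne_zero).clm_apply continuous_const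

private theorem pot_cont_d2 {f : ℝ × ℝ → E3} (hf : ContDiff ℝ 1 f) : Continuous (d2 f) :=
  (hf.continuous_fderiv one_ne_zero).clm_apply continuous_const

private theorem pot_q_pos (y : ℝ × ℝ) : 0 < q y := by
  unfold q; positivity

private theorem pot_sqrt_cont : Continuous (fun y : ℝ × ℝ => √(q y)) := by
  unfold q; fun_prop

theorem contL {Y N : ℝ × ℝ → E3} (hY : Hemi Y) (hN : Frame Y N) :
    Continuous (L11 Y N) ∧ Continuous (L12 Y N) ∧ Continuous (L22 Y N) := by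
  have hNc : Continuous N := hN.smooth.continuous
  refine ⟨?_, ?_, ?_⟩
  · exact pot_sqrt_cont.mul ((pot_cont_d1 (cd1 hY)).inner hNc)
  · exact pot_sqrt_cont.mul ((pot_cont_d2 (cd1 hY)).inner hNc)
  · exact pot_sqrt_cont.mul ((pot_cont_d2 (cd2 hY)).inner hNc)

private theorem pot_neg_frame {Y N : ℝ × ℝ → E3} (hN : Frame Y N) : Frame Y (fun y => -N y) where
  smooth := hN.smooth.neg
  unit := fun y => by rw [inner_neg_neg]; exact hN.unit y
  perp1 := fun y => by rw [inner_neg_left, hN.perp1 y, neg_zero]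
  perp2 := fun y => by rw [inner_neg_left, hN.perp2 y, neg_zero]
  gram := fun y v t => by
    rw [inner_neg_right, inner_neg_right, neg_mul_neg]
    exact hN.gram y v t

private theorem pot_neg_L11 (Y N : ℝ × ℝ → E3) (y : ℝ × ℝ) :
    L11 Y (fun y => -N y) y = -L11 Y N y := by
  unfold L11; rw [inner_neg_right, mul_neg]

private theorem pot_L11_ne {Y N : ℝ × ℝ → E3} (hY : Hemi Y) (hN : Frame Y N) (y : ℝ × ℝ) :
    L11 Y N y ≠ 0 := by
  intro h
  have h1 := gauss_det hY hN y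
  rw [h, zero_mul, zero_sub] at h1
  have h2 : 0 < 1 / (q y) ^ 2 := by have := pot_q_pos y; positivity
  nlinarith [sq_nonneg (L12 Y N y)]

private theorem pot_exists_pos_frame {Y : ℝ × ℝ → E3} (hY : Hemi Y) :
    ∃ N, Frame Y N ∧ ∀ y, 0 < L11 Y N y := by
  obtain ⟨N, hN⟩ := exists_frame hY
  have hc := (contL hY hN).1
  by_cases h0 : 0 < L11 Y N 0
  · refine ⟨N, hN, fun y => ?_⟩
    by_contra hy
    obtain ⟨z, -, hz⟩ := isPreconnected_univ.intermediate_value (Set.mem_univ y)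
      (Set.mem_univ (0 : ℝ × ℝ)) hc.continuousOn ⟨not_lt.1 hy, h0.le⟩
    exact pot_L11_ne hY hN z hz
  · refine ⟨fun y => -N y, pot_neg_frame hN, fun y => ?_⟩
    rw [pot_neg_L11]
    by_contra hy
    obtain ⟨z, -, hz⟩ := isPreconnected_univ.intermediate_value (Set.mem_univ (0 : ℝ × ℝ))
      (Set.mem_univ y) hc.continuousOn ⟨not_lt.1 h0, by linarith⟩
    exact pot_L11_ne hY hN z hz

private theorem pot_contDiff {G a b : ℝ × ℝ → ℝ} (ha : Continuous a) (hb : Continuous b)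
    (h : ∀ y, HasFDerivAt G (a y • ContinuousLinearMap.fst ℝ ℝ ℝ
      + b y • ContinuousLinearMap.snd ℝ ℝ ℝ) y) : ContDiff ℝ 1 G := by
  rw [contDiff_one_iff_fderiv]
  refine ⟨fun y => (h y).differentiableAt, ?_⟩
  have : fderiv ℝ G = fun y => a y • ContinuousLinearMap.fst ℝ ℝ ℝ
      + b y • ContinuousLinearMap.snd ℝ ℝ ℝ := by
    funext y; exact (h y).fderiv
  rw [this]
  exact (ha.smul continuous_const).add (hb.smul continuous_const)

private theorem pot_d1 {G a b : ℝ × ℝ → ℝ}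
    (h : ∀ y, HasFDerivAt G (a y • ContinuousLinearMap.fst ℝ ℝ ℝ
      + b y • ContinuousLinearMap.snd ℝ ℝ ℝ) y) : d1 G = a := by
  funext y
  unfold d1
  rw [(h y).fderiv]
  simp

private theorem pot_d2 {G a b : ℝ × ℝ → ℝ}
    (h : ∀ y, HasFDerivAt G (a y • ContinuousLinearMap.fst ℝ ℝ ℝ
      + b y • ContinuousLinearMap.snd ℝ ℝ ℝ) y) : d2 G = b := by
  funext y
  unfold d2
  rw [(h y).fderiv]
  simp

private theorem pot_circ {G1 G2 a b c : ℝ × ℝ → ℝ} (ha : Continuous a) (hb : Continuous b)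
    (hc : Continuous c)
    (h1 : ∀ y, HasFDerivAt G1 (a y • ContinuousLinearMap.fst ℝ ℝ ℝ
      + b y • ContinuousLinearMap.snd ℝ ℝ ℝ) y)
    (h2 : ∀ y, HasFDerivAt G2 (b y • ContinuousLinearMap.fst ℝ ℝ ℝ
      + c y • ContinuousLinearMap.snd ℝ ℝ ℝ) y) (x0 x1 y0 y1 : ℝ) :
    circ G1 G2 x0 x1 y0 y1 = 0 := by
  have hf : ∀ y, HasFDerivAt (fun y : ℝ × ℝ => y.1) ((fun _ => (1 : ℝ)) y •
      ContinuousLinearMap.fst ℝ ℝ ℝ + (fun _ => (0 : ℝ)) y • ContinuousLinearMap.snd ℝ ℝ ℝ) y := by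
    intro y; simpa using (ContinuousLinearMap.fst ℝ ℝ ℝ).hasFDerivAt
  have hs : ∀ y, HasFDerivAt (fun y : ℝ × ℝ => y.2) ((fun _ => (0 : ℝ)) y •
      ContinuousLinearMap.fst ℝ ℝ ℝ + (fun _ => (1 : ℝ)) y • ContinuousLinearMap.snd ℝ ℝ ℝ) y := by
    intro y; simpa using (ContinuousLinearMap.snd ℝ ℝ ℝ).hasFDerivAt
  have e1 := green G1 (fun y : ℝ × ℝ => y.1) (pot_contDiff ha hb h1) (by fun_prop) x0 x1 y0 y1
  have e2 := green G2 (fun y : ℝ × ℝ => y.2) (pot_contDiff hb hc h2) (by fun_prop) x0 x1 y0 y1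
  rw [pot_d1 h1, pot_d2 h1, pot_d1 hf, pot_d2 hf] at e1
  rw [pot_d1 h2, pot_d2 h2, pot_d1 hs, pot_d2 hs] at e2
  simp only [circ, RCLike.inner_apply, conj_trivial, one_mul, zero_mul, zero_sub, sub_zero,
    intervalIntegral.integral_zero, intervalIntegral.integral_neg, add_zero, zero_add] at e1 e2
  unfold circ
  linarith

theorem exists_pot {Y : ℝ × ℝ → E3} (hY : Hemi Y) :
    ∃ (N : ℝ × ℝ → E3) (Ψ G1 G2 : ℝ × ℝ → ℝ), Frame Y N ∧ Pot Y N Ψ G1 G2 := by
  obtain ⟨N, hN, hpos⟩ := pot_exists_pos_frame hY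
  obtain ⟨c11, c12, c22⟩ := contL hY hN
  obtain ⟨G1, hG1⟩ := exists_primitive _ _ c11 c12 (codazzi1 hY hN)
  obtain ⟨G2, hG2⟩ := exists_primitive _ _ c12 c22 (codazzi2 hY hN)
  obtain ⟨Ψ, hΨ⟩ := exists_primitive G1 G2 (pot_contDiff c11 c12 hG1).continuous
    (pot_contDiff c12 c22 hG2).continuous (pot_circ c11 c12 c22 hG1 hG2)
  exact ⟨N, Ψ, G1, G2, hN, hΨ, hG1, hG2, hpos, gauss_det hY hN⟩

end Pool.Agent.Helper46.Cone
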